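import Pool.Agent.CG.Sob

/-!
# CG-M-Appr: approximation of a local Sobolev function by smooth functions

PLAN.  `appr`: cut-off `η` with `Test (B 0 (7/4)) η`, `η = 1` on `B 0 (3/2)` (`G.exists_cutoff`).  `(η u, η • F + u • grad η)` is `HW G p (B 0 2)`
(`HW.mul_smooth`) and vanishes off the compact set `K = tsupport η ⊆ B 0 (7/4) ⊆ B 0 2` (`grad η = 0` off `tsupport η`: there `η` is locally zero).
`HW.approx` gives test functions `φ n` on `B 0 2` with `grad (φ n) → η • F + u • grad η` in `L^p(volume)`; restrict to `B 0 1`: there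
`η = 1` near the point, so `grad η = 0` and the limit is `F`.
-/

set_option autoImplicit false

namespace Pool.Agent.CG

open MeasureTheory Set Filter Topology
open scoped ContDiff ENNReal

variable {N m : ℕ}

theorem appr (G : Carnot N m) {p : ℝ≥0∞} (hp : 1 ≤ p) (hp' : p ≠ ⊤) {u : Pt N → ℝ}
    {F : Pt N → Hv m} (hu : HW G p (G.B 0 2) u F) :
    ∃ φ : ℕ → Pt N → ℝ, (∀ n, Test (G.B 0 2) (φ n)) ∧
      Tendsto (fun n => eLpNorm (fun x => G.grad (φ n) x - F x) p (volume.restrict (G.B 0 1)))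
        atTop (𝓝 0) := by
  obtain ⟨φ, h1, -, h3, -, -⟩ := hu.approx_loc (G.isOpen_B 0 2) hp hp' (G.isCompact_cB 0 (3 / 2))
    (fun y hy => lt_of_le_of_lt hy (by norm_num : (3 / 2 : ℝ) < 2))
  refine ⟨φ, h1, tendsto_of_tendsto_of_tendsto_of_le_of_le tendsto_const_nhds h3
    (fun _ => zero_le) (fun n => ?_)⟩
  refine eLpNorm_mono_measure _ (Measure.restrict_mono (fun y hy => ?_) le_rfl)
  exact le_of_lt (lt_trans (show G.di 0 y < 1 from hy) (by norm_num))

end Pool.Agent.CG
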