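import Pool.Agent.CG.M.Gg

/-!
# CG-M-MonoPt: pointwise consequence of monotonicity

PLAN.  `s n = ‖ξ n - ζ‖`, `M n = max ‖ξ n‖ ‖ζ‖`, `s n / 2 ≤ M n ≤ ‖ζ‖ + s n`.  If not `s n → 0` there are `ε > 0` and
infinitely many `n` with `s n ≥ ε`; there `W (M n) * (s n)^2 ≥ W (ε/2) * ((‖ζ‖ + s n)/(ε/2))^(-a) * (s n)^2 ≥ c0 > 0`
(`Wt.lo` with `s = ε/2 ≤ M n`) since `‖ζ‖ + s n ≤ (‖ζ‖/ε + 1) s n` and `2 - a > 0`; contradiction with `AA.mono`.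
-/

set_option autoImplicit false

namespace Pool.Agent.CG

open MeasureTheory Set Filter Topology
open scoped ContDiff ENNReal

variable {m : ℕ} {a b : ℝ} {W : ℝ → ℝ}

private theorem mono_pt_low (ha0 : 0 ≤ a) (ha : a < 1) (hW : Wt a b W) (ζ : Hv m) {ε : ℝ}
    (hε : 0 < ε) : ∃ c : ℝ, 0 < c ∧ ∀ ξ : Hv m, ε ≤ ‖ξ - ζ‖ →
      c ≤ W (max ‖ξ‖ ‖ζ‖) * ‖ξ - ζ‖ ^ 2 := by
  have hK : 0 < 2 * (‖ζ‖ / ε + 1) / ε := by positivity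
  set K : ℝ := 2 * (‖ζ‖ / ε + 1) / ε with hKdef
  have hW0 : 0 < W (ε / 2) := hW.pos _ (by positivity)
  refine ⟨K ^ (-a) * W (ε / 2) * ε ^ (2 - a), by positivity, ?_⟩
  intro ξ hξ
  set s : ℝ := ‖ξ - ζ‖ with hs
  have hs0 : 0 < s := lt_of_lt_of_le hε hξ
  set M : ℝ := max ‖ξ‖ ‖ζ‖ with hM
  have h1 : s ≤ ‖ξ‖ + ‖ζ‖ := norm_sub_le _ _
  have h2 : ‖ξ‖ ≤ M := le_max_left _ _
  have h3 : ‖ζ‖ ≤ M := le_max_right _ _
  have h4 : ε / 2 ≤ M := by linarith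
  have h5 : ‖ξ‖ ≤ ‖ζ‖ + s := by
    have : ‖ξ‖ = ‖ζ + (ξ - ζ)‖ := by congr 1; abel
    rw [this]
    exact norm_add_le _ _
  have h6 : M ≤ ‖ζ‖ + s := max_le h5 (by linarith)
  have hM0 : 0 < M := by linarith
  have h7 : M / (ε / 2) ≤ s * K := by
    rw [div_le_iff₀ (by positivity : (0 : ℝ) < ε / 2), hKdef]
    have e1 : s * (2 * (‖ζ‖ / ε + 1) / ε) * (ε / 2) = s * (‖ζ‖ / ε) + s := by
      field_simp
    rw [e1]
    have e2 : ‖ζ‖ ≤ s * (‖ζ‖ / ε) := by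
      have e3 : ‖ζ‖ = ε * (‖ζ‖ / ε) := by field_simp
      calc ‖ζ‖ = ε * (‖ζ‖ / ε) := e3
        _ ≤ s * (‖ζ‖ / ε) := mul_le_mul_of_nonneg_right hξ (by positivity)
    linarith
  have h8 : (s * K) ^ (-a) ≤ (M / (ε / 2)) ^ (-a) :=
    Real.rpow_le_rpow_of_nonpos (by positivity) h7 (by linarith)
  have h9 : (s * K) ^ (-a) * W (ε / 2) ≤ W M :=
    (mul_le_mul_of_nonneg_right h8 hW0.le).trans (hW.lo _ _ (by positivity) h4)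
  have h10 : (s * K) ^ (-a) = s ^ (-a) * K ^ (-a) := Real.mul_rpow hs0.le hK.le
  have h11 : s ^ (-a) * s ^ 2 = s ^ (2 - a) := by
    rw [← Real.rpow_natCast, ← Real.rpow_add hs0]
    congr 1
    push_cast
    ring
  calc K ^ (-a) * W (ε / 2) * ε ^ (2 - a) ≤ K ^ (-a) * W (ε / 2) * s ^ (2 - a) := by
        refine mul_le_mul_of_nonneg_left ?_ (by positivity)
        exact Real.rpow_le_rpow hε.le hξ (by linarith)
    _ = (s * K) ^ (-a) * W (ε / 2) * s ^ 2 := by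
        rw [h10, ← h11]
        ring
    _ ≤ W M * s ^ 2 := mul_le_mul_of_nonneg_right h9 (by positivity)

/-- Pointwise consequence of monotonicity. -/
theorem mono_pt {L : ℝ} (ha0 : 0 ≤ a) (ha : a < 1) (hb : 0 ≤ b) (hW : Wt a b W) {A : Hv m → Hv m}
    (hA : AA W L A) {ζ : Hv m} {ξ : ℕ → Hv m}
    (h : Tendsto (fun n => inner ℝ (A (ξ n) - A ζ) (ξ n - ζ)) atTop (𝓝 0)) :
    Tendsto ξ atTop (𝓝 ζ) := by
  have _ := hb
  rw [tendsto_iff_norm_sub_tendsto_zero, Metric.tendsto_atTop]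
  intro ε hε
  obtain ⟨c, hc, hlow⟩ := mono_pt_low ha0 ha hW ζ hε
  have h1 : ∀ᶠ n in atTop, inner ℝ (A (ξ n) - A ζ) (ξ n - ζ) < c := h.eventually_lt_const hc
  obtain ⟨n₀, hn₀⟩ := eventually_atTop.1 h1
  refine ⟨n₀, fun n hn => ?_⟩
  rw [Real.dist_eq, sub_zero, abs_of_nonneg (norm_nonneg _)]
  by_contra hc'
  have h2 := hlow (ξ n) (not_lt.1 hc')
  have h3 := hA.mono (ξ n) ζ
  have h4 := hn₀ n hn
  linarith

end Pool.Agent.CG
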