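import Pool.Agent.CG.Sob

/-!
# CG-M-TestG: testing with limits of gradients of test functions

PLAN.  `test_grad0`: for each `n`: `∫_D ⟨H, grad (ψ n)⟩ = ∫ ⟨H, grad (ψ n)⟩ = 0` (`grad (ψ n) = 0` off `D`).
`|∫_D ⟨H, Z⟩| = |∫_D ⟨H, Z - grad (ψ n)⟩| ≤ ‖H‖_{p'} ‖Z - grad (ψ n)‖_p → 0` (Hölder inequality `MeasureTheory.integral_mul_norm_le...` or
`eLpNorm_smul_le_mul_eLpNorm`; integrability from `MemLp.integrable_inner`-type lemmas for conjugate exponents).
-/

set_option autoImplicit false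

namespace Pool.Agent.CG

open MeasureTheory Set Filter Topology
open scoped ContDiff ENNReal

variable {N m : ℕ}

theorem test_grad0 (G : Carnot N m) {p p' : ℝ≥0∞} (hp : 1 ≤ p) (hpp : ENNReal.HolderConjugate p p')
    {D : Set (Pt N)} (hD : IsOpen D) {Z : Pt N → Hv m} (hZ : MemLp Z p (volume.restrict D))
    {ψ : ℕ → Pt N → ℝ} (hψ : ∀ n, Test D (ψ n))
    (hl : Tendsto (fun n => eLpNorm (fun x => G.grad (ψ n) x - Z x) p (volume.restrict D)) atTop (𝓝 0))
    {H : Pt N → Hv m} (hH : MemLp H p' (volume.restrict D))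
    (h0 : ∀ φ : Pt N → ℝ, Test D φ → ∫ x, inner ℝ (H x) (G.grad φ x) = 0) :
    ∫ x in D, inner ℝ (H x) (Z x) = 0 := by
  have hgm : ∀ n, MemLp (G.grad (ψ n)) p (volume.restrict D) := fun n =>
    ((hψ n).continuous_grad.memLp_of_hasCompactSupport (hψ n).cpt_grad).restrict D
  haveI : ENNReal.HolderTriple p' p 1 := ENNReal.HolderTriple.symm
  have hb : ∀ (A B : Pt N → Hv m), ∀ x, ‖inner ℝ (A x) (B x)‖₊ ≤ 1 * ‖A x‖₊ * ‖B x‖₊ := by
    intro A B x
    rw [one_mul]
    exact nnnorm_inner_le_nnnorm (A x) (B x)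
  have hint : ∀ B : Pt N → Hv m, MemLp B p (volume.restrict D) →
      Integrable (fun x => inner ℝ (H x) (B x)) (volume.restrict D) := by
    intro B hB
    rw [← memLp_one_iff_integrable]
    exact MemLp.of_bilin (fun a b : Hv m => inner ℝ a b) 1 hH hB
      (hH.aestronglyMeasurable.inner hB.aestronglyMeasurable) (Eventually.of_forall fun x => hb H B x)
  have hbd : ∀ B : Pt N → Hv m, MemLp B p (volume.restrict D) →
      ‖∫ x in D, inner ℝ (H x) (B x)‖ₑ ≤ eLpNorm H p' (volume.restrict D) * eLpNorm B p (volume.restrict D) := by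
    intro B hB
    refine (enorm_integral_le_lintegral_enorm _).trans ?_
    rw [← eLpNorm_one_eq_lintegral_enorm]
    have h5 := eLpNorm_le_eLpNorm_mul_eLpNorm_of_nnnorm (p := p') (q := p) (r := 1) hH.aestronglyMeasurable
      hB.aestronglyMeasurable (fun a b : Hv m => inner ℝ a b) 1 (Eventually.of_forall fun x => hb H B x)
    rw [ENNReal.coe_one, one_mul] at h5
    exact h5
  have e2 : ∀ n, ∫ x in D, inner ℝ (H x) (G.grad (ψ n) x) = 0 := by
    intro n
    rw [← h0 (ψ n) (hψ n)]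
    refine setIntegral_eq_integral_of_forall_compl_eq_zero fun x hx => ?_
    rw [(hψ n).grad_eq_zero hx, inner_zero_right]
  have e3 : ∀ n, ‖∫ x in D, inner ℝ (H x) (Z x)‖ₑ ≤
      eLpNorm H p' (volume.restrict D) * eLpNorm (fun x => G.grad (ψ n) x - Z x) p (volume.restrict D) := by
    intro n
    have h6 : ∫ x in D, inner ℝ (H x) (G.grad (ψ n) x - Z x) = -∫ x in D, inner ℝ (H x) (Z x) := by
      rw [← zero_sub, ← e2 n, ← integral_sub (hint _ (hgm n)) (hint _ hZ)]
      refine integral_congr_ae (Eventually.of_forall fun x => ?_)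
      exact inner_sub_right _ _ _
    have h7 := hbd (fun x => G.grad (ψ n) x - Z x) ((hgm n).sub hZ)
    rw [h6, enorm_neg] at h7
    exact h7
  have e4 : Tendsto (fun n => eLpNorm H p' (volume.restrict D) *
      eLpNorm (fun x => G.grad (ψ n) x - Z x) p (volume.restrict D)) atTop
      (𝓝 (eLpNorm H p' (volume.restrict D) * 0)) :=
    ENNReal.Tendsto.const_mul hl (Or.inr hH.eLpNorm_ne_top)
  rw [mul_zero] at e4
  have e5 : ‖∫ x in D, inner ℝ (H x) (Z x)‖ₑ ≤ 0 := ge_of_tendsto' e4 e3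
  exact enorm_eq_zero.1 (le_antisymm e5 zero_le)

end Pool.Agent.CG
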