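import Pool.Agent.CG.M.Pi
import Pool.Agent.CG.M.TestG
import Pool.Agent.CG.M.MonoPt

/-!
# CG-M-Comp: the comparison argument (section 8, last step)

PLAN.  `D = B 0 1`, `μ = volume.restrict D` (finite), `p' = p/(p-1)`, `Fj = Γj + Zj`.  `A F ∈ L^{p'}(D)` (`memLp_A`), `Fj ∈ L^p` (`memLp_of_gg`), `A (Fj) ∈ L^{p'}` with a bound independent of
`j` (`A_norm_bound`), `Zj = Fj - Γj ∈ L^p(D)`.  `test_grad0` for `H = A (F)` and `H = A (Fj)` and `Z = Zj`:
`∫_D ⟨A Fj - A F, Zj⟩ = 0`, so `g_j := ⟨A Fj - A F, Fj - F⟩ = ⟨A Fj - A F, Zj⟩ + ⟨A Fj - A F, Γj - F⟩` has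
`∫_D g_j ≤ ‖A Fj - A F‖_{p'} ‖Γj - F‖_p → 0` (Hölder), and `g_j ≥ 0` (`AA.mono`, `Wt.pos`; if both vectors are `0` it is `0`).  So `g_j → 0` in `L^1(D)`, a subsequence
converges to `0` a.e. (`tendstoInMeasure_of_tendsto_eLpNorm`, `TendstoInMeasure.exists_seq_tendsto_ae`), and `mono_pt` gives `Fj → F` a.e. on `D`.
-/

set_option autoImplicit false

namespace Pool.Agent.CG

open MeasureTheory Set Filter Topology
open scoped ContDiff ENNReal

variable {N m : ℕ}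

/-- Hölder inequality for inner products -/
private lemma cmp_inner {μ : Measure (Pt N)} {P P' : ℝ≥0∞} (hPP : ENNReal.HolderConjugate P P')
    {H Z : Pt N → Hv m} (hH : MemLp H P' μ) (hZ : MemLp Z P μ) :
    Integrable (fun x => (inner ℝ (H x) (Z x) : ℝ)) μ ∧
    eLpNorm (fun x => (inner ℝ (H x) (Z x) : ℝ)) 1 μ ≤ eLpNorm H P' μ * eLpNorm Z P μ := by
  have : ENNReal.HolderTriple P' P 1 := hPP.symm
  have h := eLpNorm_le_eLpNorm_mul_eLpNorm_of_nnnorm (p := P') (q := P) (r := 1) hH.1 hZ.1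
    (fun a b => (inner ℝ a b : ℝ)) 1 (Filter.Eventually.of_forall fun x => by
      rw [one_mul]
      exact nnnorm_inner_le_nnnorm _ _)
  rw [ENNReal.coe_one, one_mul] at h
  refine ⟨?_, h⟩
  rw [← memLp_one_iff_integrable]
  exact ⟨hH.1.inner hZ.1, lt_of_le_of_lt h (ENNReal.mul_lt_top hH.2 hZ.2)⟩

theorem comparison (G : Carnot N m) {p c δ L : ℝ} (hp : 1 < p) (hc : 0 < c) (hδ : 0 ≤ δ) (hL : 1 ≤ L)
    (hW : Wt (max (2 - p) 0) (max (p - 2) 0) (pw p c δ))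
    {A : Hv m → Hv m} (hA : AA (pw p c δ) L A) (hAc : Continuous A) {F : Pt N → Hv m}
    (hF : MemLp F (ENNReal.ofReal p) (volume.restrict (G.B 0 1)))
    (hE : ∀ ψ : Pt N → ℝ, Test (G.B 0 1) ψ → ∫ x, inner ℝ (A (F x)) (G.grad ψ x) = 0)
    {Γj Zj : ℕ → Pt N → Hv m}
    (hΓ : Tendsto (fun j => eLpNorm (fun x => Γj j x - F x) (ENNReal.ofReal p)
      (volume.restrict (G.B 0 1))) atTop (𝓝 0))
    (hΓm : ∀ j, MemLp (Γj j) (ENNReal.ofReal p) (volume.restrict (G.B 0 1)))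
    (hZm : ∀ j, AEStronglyMeasurable (Zj j) (volume.restrict (G.B 0 1)))
    {E : ℝ} (hI : ∀ j, IntegrableOn (fun x => gg (pw p c δ) ‖Γj j x + Zj j x‖) (G.B 0 1))
    (hb : ∀ j, ∫ x in G.B 0 1, gg (pw p c δ) ‖Γj j x + Zj j x‖ ≤ E)
    (hEj : ∀ j, ∀ ψ : Pt N → ℝ, Test (G.B 0 1) ψ →
      ∫ x, inner ℝ (A (Γj j x + Zj j x)) (G.grad ψ x) = 0)
    (hψ : ∀ j, ∃ ψ : ℕ → Pt N → ℝ, (∀ n, Test (G.B 0 1) (ψ n)) ∧
      Tendsto (fun n => eLpNorm (fun x => G.grad (ψ n) x - Zj j x) (ENNReal.ofReal p)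
        (volume.restrict (G.B 0 1))) atTop (𝓝 0)) :
    ∃ s : ℕ → ℕ, StrictMono s ∧
      ∀ᵐ x, x ∈ G.B 0 1 → Tendsto (fun j => Γj (s j) x + Zj (s j) x) atTop (𝓝 (F x)) := by
  set μ : Measure (Pt N) := volume.restrict (G.B 0 1) with hμ
  have hfin : IsFiniteMeasure μ := ⟨by
    rw [hμ, Measure.restrict_apply_univ]
    exact G.vol_B_lt_top 0 1⟩
  have hPP := conj_p hp
  have hP1 : (1 : ℝ≥0∞) ≤ ENNReal.ofReal p := by
    rw [← ENNReal.ofReal_one]
    exact ENNReal.ofReal_le_ofReal hp.le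
  have hFm : ∀ j, AEStronglyMeasurable (fun x => Γj j x + Zj j x) μ := fun j =>
    (hΓm j).1.add (hZm j)
  have hFj : ∀ j, MemLp (fun x => Γj j x + Zj j x) (ENNReal.ofReal p) μ := fun j =>
    memLp_of_gg hp hc hδ (hFm j) (hI j)
  have hZ : ∀ j, MemLp (Zj j) (ENNReal.ofReal p) μ := fun j => by
    have h1 := (hFj j).sub (hΓm j)
    refine h1.congr_norm (hZm j) (Filter.Eventually.of_forall fun x => ?_)
    simp
  have hAF : MemLp (fun x => A (F x)) (ENNReal.ofReal (p / (p - 1))) μ :=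
    memLp_A hp hc hδ hL hA hAc hF
  have hAFj : ∀ j, MemLp (fun x => A (Γj j x + Zj j x)) (ENNReal.ofReal (p / (p - 1))) μ := fun j =>
    memLp_A hp hc hδ hL hA hAc (hFj j)
  obtain ⟨C, hC⟩ := A_norm_bound (N := N) hp hc hδ hL hA hAc μ E
  have hD : IsOpen (G.B 0 1) := G.isOpen_B 0 1
  have t1 : ∀ j, ∫ x, (inner ℝ (A (F x)) (Zj j x) : ℝ) ∂μ = 0 := fun j => by
    obtain ⟨ψ, hψ1, hψ2⟩ := hψ j
    exact test_grad0 G hP1 hPP hD (hZ j) hψ1 hψ2 hAF hE
  have t2 : ∀ j, ∫ x, (inner ℝ (A (Γj j x + Zj j x)) (Zj j x) : ℝ) ∂μ = 0 := fun j => by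
    obtain ⟨ψ, hψ1, hψ2⟩ := hψ j
    exact test_grad0 G hP1 hPP hD (hZ j) hψ1 hψ2 (hAFj j) (hEj j)
  have hdA : ∀ j, MemLp (fun x => A (Γj j x + Zj j x) - A (F x)) (ENNReal.ofReal (p / (p - 1))) μ :=
    fun j => (hAFj j).sub hAF
  have hdΓ : ∀ j, MemLp (fun x => Γj j x - F x) (ENNReal.ofReal p) μ := fun j => (hΓm j).sub hF
  have hdF : ∀ j, MemLp (fun x => Γj j x + Zj j x - F x) (ENNReal.ofReal p) μ := fun j =>
    (hFj j).sub hF
  let g : ℕ → Pt N → ℝ := fun j x =>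
    inner ℝ (A (Γj j x + Zj j x) - A (F x)) (Γj j x + Zj j x - F x)
  have ha0 : 0 ≤ max (2 - p) 0 := le_max_right _ _
  have ha1 : max (2 - p) 0 < 1 := max_lt (by linarith) one_pos
  have hb0 : 0 ≤ max (p - 2) 0 := le_max_right _ _
  have hg0 : ∀ j x, 0 ≤ g j x := by
    intro j x
    have h1 := hA.mono (Γj j x + Zj j x) (F x)
    refine le_trans ?_ h1
    rcases eq_or_lt_of_le (le_max_of_le_left (norm_nonneg (Γj j x + Zj j x)) :
      0 ≤ max ‖Γj j x + Zj j x‖ ‖F x‖) with h2 | h2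
    · have h3 : ‖Γj j x + Zj j x‖ = 0 := le_antisymm (by rw [h2]; exact le_max_left _ _)
        (norm_nonneg _)
      have h4 : ‖F x‖ = 0 := le_antisymm (by rw [h2]; exact le_max_right _ _) (norm_nonneg _)
      rw [norm_eq_zero] at h3 h4
      rw [h3, h4]
      simp
    · exact mul_nonneg (hW.pos _ h2).le (sq_nonneg _)
  have hgi : ∀ j, Integrable (g j) μ := fun j => (cmp_inner hPP (hdA j) (hdF j)).1
  have hsplit : ∀ j, ∫ x, g j x ∂μ =
      ∫ x, (inner ℝ (A (Γj j x + Zj j x) - A (F x)) (Γj j x - F x) : ℝ) ∂μ := by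
    intro j
    have i1 := (cmp_inner hPP (hdA j) (hdΓ j)).1
    have i2 := (cmp_inner hPP (hAFj j) (hZ j)).1
    have i3 := (cmp_inner hPP hAF (hZ j)).1
    have e1 : ∀ x, g j x = (inner ℝ (A (Γj j x + Zj j x) - A (F x)) (Γj j x - F x) : ℝ) +
        ((inner ℝ (A (Γj j x + Zj j x)) (Zj j x) : ℝ) - (inner ℝ (A (F x)) (Zj j x) : ℝ)) := by
      intro x
      simp only [g]
      rw [← inner_sub_left, ← inner_add_right]
      congr 1
      abel
    calc ∫ x, g j x ∂μ = ∫ x, ((inner ℝ (A (Γj j x + Zj j x) - A (F x)) (Γj j x - F x) : ℝ) +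
        ((inner ℝ (A (Γj j x + Zj j x)) (Zj j x) : ℝ) - (inner ℝ (A (F x)) (Zj j x) : ℝ))) ∂μ := by
          simp only [e1]
      _ = _ := by
          have i4 : Integrable (fun x => (inner ℝ (A (Γj j x + Zj j x)) (Zj j x) : ℝ) -
            (inner ℝ (A (F x)) (Zj j x) : ℝ)) μ := i2.sub i3
          rw [integral_add i1 i4, integral_sub i2 i3, t1 j, t2 j, sub_zero, add_zero]
  have hbound : ∀ j, eLpNorm (g j) 1 μ ≤ (ENNReal.ofReal C +
      eLpNorm (fun x => A (F x)) (ENNReal.ofReal (p / (p - 1))) μ) *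
      eLpNorm (fun x => Γj j x - F x) (ENNReal.ofReal p) μ := by
    intro j
    obtain ⟨i1, i2⟩ := cmp_inner hPP (hdA j) (hdΓ j)
    have e1 : eLpNorm (g j) 1 μ = ENNReal.ofReal (∫ x, g j x ∂μ) := by
      rw [eLpNorm_one_eq_lintegral_enorm, ofReal_integral_eq_lintegral_ofReal (hgi j)
        (Filter.Eventually.of_forall (hg0 j))]
      apply lintegral_congr
      intro x
      rw [Real.enorm_eq_ofReal (hg0 j x)]
    have e2 : ENNReal.ofReal (∫ x, g j x ∂μ) ≤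
        eLpNorm (fun x => (inner ℝ (A (Γj j x + Zj j x) - A (F x)) (Γj j x - F x) : ℝ)) 1 μ := by
      rw [hsplit j, eLpNorm_one_eq_lintegral_enorm]
      refine le_trans (ENNReal.ofReal_le_ofReal (le_abs_self _)) ?_
      rw [← Real.norm_eq_abs, ofReal_norm]
      exact enorm_integral_le_lintegral_enorm _
    rw [e1]
    refine e2.trans (i2.trans ?_)
    gcongr
    have hPP1 : (1 : ℝ≥0∞) ≤ ENNReal.ofReal (p / (p - 1)) := by
      rw [← ENNReal.ofReal_one]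
      apply ENNReal.ofReal_le_ofReal
      rw [le_div_iff₀ (by linarith)]
      linarith
    calc eLpNorm (fun x => A (Γj j x + Zj j x) - A (F x)) (ENNReal.ofReal (p / (p - 1))) μ
        ≤ eLpNorm (fun x => A (Γj j x + Zj j x)) (ENNReal.ofReal (p / (p - 1))) μ +
          eLpNorm (fun x => A (F x)) (ENNReal.ofReal (p / (p - 1))) μ :=
          eLpNorm_sub_le (hAFj j).1 hAF.1 hPP1
      _ ≤ _ := by
          gcongr
          exact hC _ (hFm j) (hI j) (hb j)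
  have hlim : Tendsto (fun j => eLpNorm (g j) 1 μ) atTop (𝓝 0) := by
    have hK : (ENNReal.ofReal C +
      eLpNorm (fun x => A (F x)) (ENNReal.ofReal (p / (p - 1))) μ) ≠ ⊤ :=
      ENNReal.add_ne_top.2 ⟨ENNReal.ofReal_ne_top, hAF.2.ne⟩
    have h1 := ENNReal.Tendsto.const_mul hΓ (Or.inr hK)
    rw [mul_zero] at h1
    exact tendsto_of_tendsto_of_tendsto_of_le_of_le tendsto_const_nhds h1
      (fun _ => bot_le) hbound
  have hmeas : TendstoInMeasure μ g atTop (fun _ => (0 : ℝ)) := by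
    apply tendstoInMeasure_of_tendsto_eLpNorm one_ne_zero (fun j => (hgi j).1)
      aestronglyMeasurable_const
    refine hlim.congr fun j => ?_
    apply eLpNorm_congr_ae
    exact Filter.Eventually.of_forall fun x => by simp
  obtain ⟨s, hs, hsl⟩ := hmeas.exists_seq_tendsto_ae
  refine ⟨s, hs, ?_⟩
  rw [hμ, ae_restrict_iff' hD.measurableSet] at hsl
  filter_upwards [hsl] with x hx hxD
  exact mono_pt ha0 ha1 hb0 hW hA (hx hxD)

end Pool.Agent.CG
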