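import Pool.Agent.CG.Geo

/-!
# CG-M-Diag: pointwise compactness of locally equi-Hölder sequences

PLAN.  Let `S ⊆ D` be countable and dense in `D` (`TopologicalSpace.exists_countable_dense` for the subtype, or
`IsSeparable`); if `D` is empty trivial.  For each `s ∈ S` the sequence `Fk k s` is bounded (hypothesis at `s`; `s ∈ B s r` because
`G.di_self`), so it lies in a compact ball of `Hv m`; the product over the countable set `S` is compact and metrizable (index by `ℕ`:
`S = range of a sequence`), so `IsCompact.tendsto_subseq` gives a subsequence converging at all points of `S`.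
For `y ∈ D` with ball `B y r` and `M`: given `ε` choose `s ∈ S ∩ B y r` with `M (di y s)^α < ε/3` (continuity of `G.di`, `G.di_self`); then
`Fk (s k) y` is Cauchy.  Let `F y` be the limit.
-/

set_option autoImplicit false

namespace Pool.Agent.CG

open MeasureTheory Set Filter Topology
open scoped ContDiff ENNReal

variable {N m : ℕ}

theorem diag (G : Carnot N m) {D : Set (Pt N)} (hD : IsOpen D) (Fk : ℕ → Pt N → Hv m) {α : ℝ}
    (hα : 0 < α)
    (h : ∀ y ∈ D, ∃ r : ℝ, 0 < r ∧ ∃ M : ℝ, ∀ k, (∀ x ∈ G.B y r, ‖Fk k x‖ ≤ M) ∧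
      ∀ x ∈ G.B y r, ∀ x' ∈ G.B y r, ‖Fk k x - Fk k x'‖ ≤ M * G.di x x' ^ α) :
    ∃ s : ℕ → ℕ, StrictMono s ∧ ∃ F : Pt N → Hv m,
      ∀ y ∈ D, Tendsto (fun k => Fk (s k) y) atTop (𝓝 (F y)) := by
  classical
  obtain ⟨S, hSc, hSd⟩ := TopologicalSpace.exists_countable_dense (Pt N)
  haveI : Countable S := hSc.to_subtype
  have hself : ∀ (y : Pt N) (r : ℝ), 0 < r → y ∈ G.B y r := by
    intro y r hr
    change G.di y y < r
    rw [G.di_self]
    exact hr
  let a : ℕ → (S → Hv m) := fun k i => if i.1 ∈ D then Fk k i.1 else 0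
  have hbd : ∀ i : S, ∃ R : ℝ, ∀ k, ‖a k i‖ ≤ R := by
    intro i
    by_cases hi : i.1 ∈ D
    · obtain ⟨r, hr, M, hM⟩ := h i.1 hi
      refine ⟨M, fun k => ?_⟩
      have h1 : a k i = Fk k i.1 := if_pos hi
      rw [h1]
      exact (hM k).1 _ (hself _ _ hr)
    · refine ⟨0, fun k => ?_⟩
      have h1 : a k i = 0 := if_neg hi
      rw [h1, norm_zero]
  choose R hR using hbd
  have hK : IsCompact (Set.pi Set.univ (fun i : S => Metric.closedBall (0 : Hv m) (R i))) :=
    isCompact_univ_pi fun i => isCompact_closedBall _ _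
  obtain ⟨x, -, s, hs, hx⟩ := hK.tendsto_subseq (x := a) (by
    intro k i _
    rw [mem_closedBall_zero_iff]
    exact hR i k)
  rw [tendsto_pi_nhds] at hx
  refine ⟨s, hs, ?_⟩
  have key : ∀ y : Pt N, ∃ b : Hv m, y ∈ D → Tendsto (fun k => Fk (s k) y) atTop (𝓝 b) := by
    intro y
    by_cases hy : y ∈ D
    swap
    · exact ⟨0, fun h => absurd h hy⟩
    obtain ⟨r, hr, M, hM⟩ := h y hy
    have hc : CauchySeq (fun k => Fk (s k) y) := by
      rw [Metric.cauchySeq_iff]
      intro ε hε
      have hcont : Continuous (fun z : Pt N => M * G.di y z ^ α) :=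
        continuous_const.mul ((G.continuous_di.comp (continuous_const.prodMk continuous_id)).rpow_const
          fun _ => Or.inr hα.le)
      have hcont2 : Continuous (fun z : Pt N => G.di y z) :=
        G.continuous_di.comp (continuous_const.prodMk continuous_id)
      have hU : IsOpen ({z : Pt N | M * G.di y z ^ α < ε / 3} ∩ ({z : Pt N | G.di y z < r} ∩ D)) :=
        (isOpen_lt hcont continuous_const).inter ((isOpen_lt hcont2 continuous_const).inter hD)
      have hne : ({z : Pt N | M * G.di y z ^ α < ε / 3} ∩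
          ({z : Pt N | G.di y z < r} ∩ D)).Nonempty := by
        refine ⟨y, ?_, ?_, hy⟩
        · change M * G.di y y ^ α < ε / 3
          rw [G.di_self, Real.zero_rpow hα.ne', mul_zero]
          positivity
        · change G.di y y < r
          rw [G.di_self]
          exact hr
      obtain ⟨z, hzS, hz1, hz2, hz3⟩ := hSd.exists_mem_open hU hne
      have hzlim := hx ⟨z, hzS⟩
      have hz4 : ∀ k, (a ∘ s) k ⟨z, hzS⟩ = Fk (s k) z := fun k => if_pos hz3
      have hz5 : CauchySeq (fun k => Fk (s k) z) := by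
        have h1 := hzlim.cauchySeq
        have h2 : (fun k => (a ∘ s) k ⟨z, hzS⟩) = fun k => Fk (s k) z := funext hz4
        rwa [h2] at h1
      rw [Metric.cauchySeq_iff] at hz5
      obtain ⟨n0, hn0⟩ := hz5 (ε / 3) (by positivity)
      have hyz : ∀ k, ‖Fk (s k) y - Fk (s k) z‖ < ε / 3 := fun k =>
        lt_of_le_of_lt ((hM (s k)).2 y (hself y r hr) z hz2) hz1
      refine ⟨n0, fun p hp q hq => ?_⟩
      have h1 := hn0 p hp q hq
      rw [dist_eq_norm] at h1 ⊢
      have h2 : Fk (s p) y - Fk (s q) y = (Fk (s p) y - Fk (s p) z) + (Fk (s p) z - Fk (s q) z)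
          - (Fk (s q) y - Fk (s q) z) := by abel
      have h3 := norm_sub_le ((Fk (s p) y - Fk (s p) z) + (Fk (s p) z - Fk (s q) z))
        (Fk (s q) y - Fk (s q) z)
      have h4 := norm_add_le (Fk (s p) y - Fk (s p) z) (Fk (s p) z - Fk (s q) z)
      have h5 := hyz p
      have h6 := hyz q
      rw [h2]
      linarith
    obtain ⟨b, hb⟩ := cauchySeq_tendsto_of_complete hc
    exact ⟨b, fun _ => hb⟩
  choose F hF using key
  exact ⟨F, hF⟩

end Pool.Agent.CG
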