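import Pool.Agent.CG.Geo

/-!
# CG-M-DilLp: continuity of dilations in `L^p`

PLAN.  Given `ε > 0` choose a continuous `g` with compact support and `eLpNorm (f - g) p ≤ ε`
(`MemLp.exists_hasCompactSupport_eLpNorm_sub_le`).  For `1/2 < r < 2`: `eLpNorm (fun x => (f - g) (G.del r x)) p = (r⁻¹ ^ Q)^(1/p) eLpNorm (f - g) p ≤ 2^Q ε`
(`G.map_del`, `eLpNorm_map_measure` or a change of variables in the `lintegral`; `G.homeoD` is a measurable embedding).
`g ∘ del r - g → 0` in `L^p` as `r → 1`: the supports are in a fixed compact set (image of `Icc (1/2) 2 ×ˢ tsupport g` under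
`(r, x) ↦ G.del r⁻¹ x`), and `g ∘ del r → g` uniformly (uniform continuity of `g`) or by dominated convergence along sequences.
Triangle inequality `eLpNorm_add_le`.
-/

set_option autoImplicit false

namespace Pool.Agent.CG

open MeasureTheory Set Filter Topology
open scoped ContDiff ENNReal

variable {N m : ℕ}

private theorem del_cont2 (G : Carnot N m) : Continuous (fun q : ℝ × Pt N => G.del q.1 q.2) := by
  refine continuous_pi fun i => ?_
  change Continuous (fun q : ℝ × Pt N => q.1 ^ G.deg i * q.2 i)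
  fun_prop

private theorem lp_del (G : Carnot N m) {p : ℝ≥0∞} (hp : 1 ≤ p) (hp' : p ≠ ⊤) {f : Pt N → Hv m}
    (hf : AEStronglyMeasurable f volume) {r : ℝ} (hr : 1 / 2 < r) :
    eLpNorm (fun x => f (G.del r x)) p volume ≤ ENNReal.ofReal (2 ^ G.Q) * eLpNorm f p volume := by
  have hr0 : 0 < r := by linarith
  have h1 : eLpNorm f p (Measure.map (G.del r) volume) = eLpNorm (f ∘ G.del r) p volume := by
    refine eLpNorm_map_measure ?_ (G.continuous_del r).measurable.aemeasurable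
    rw [G.map_del hr0]
    exact hf.smul_measure _
  have h2 : (fun x => f (G.del r x)) = f ∘ G.del r := rfl
  rw [h2, ← h1, G.map_del hr0, eLpNorm_smul_measure_of_ne_top hp', smul_eq_mul]
  refine mul_le_mul_left ?_ _
  have h3 : r⁻¹ ≤ 2 := by
    rw [inv_le_comm₀ hr0 (by norm_num)]
    linarith
  have h4 : ENNReal.ofReal (r⁻¹ ^ G.Q) ≤ ENNReal.ofReal (2 ^ G.Q) :=
    ENNReal.ofReal_le_ofReal (pow_le_pow_left₀ (by positivity) h3 _)
  have h5 : (1 : ℝ≥0∞) ≤ ENNReal.ofReal (2 ^ G.Q) := by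
    rw [← ENNReal.ofReal_one]
    exact ENNReal.ofReal_le_ofReal (one_le_pow₀ (by norm_num))
  have h6 : (1 / p).toReal ≤ 1 := by
    have h7 : 1 / p ≤ 1 := by
      rw [one_div]
      exact ENNReal.inv_le_one.2 hp
    have h8 := ENNReal.toReal_mono ENNReal.one_ne_top h7
    simpa using h8
  calc ENNReal.ofReal (r⁻¹ ^ G.Q) ^ (1 / p).toReal ≤ ENNReal.ofReal (2 ^ G.Q) ^ (1 / p).toReal :=
        ENNReal.rpow_le_rpow h4 ENNReal.toReal_nonneg
    _ ≤ ENNReal.ofReal (2 ^ G.Q) ^ (1 : ℝ) := ENNReal.rpow_le_rpow_of_exponent_le h5 h6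
    _ = ENNReal.ofReal (2 ^ G.Q) := ENNReal.rpow_one _

theorem dil_lp (G : Carnot N m) {p : ℝ≥0∞} (hp : 1 ≤ p) (hp' : p ≠ ⊤) {f : Pt N → Hv m}
    (hf : MemLp f p volume) :
    Tendsto (fun r : ℝ => eLpNorm (fun x => f (G.del r x) - f x) p volume) (𝓝 1) (𝓝 0) := by
  rw [ENNReal.tendsto_nhds_zero]
  intro ε hε
  have hC0 : ENNReal.ofReal (2 ^ G.Q) ≠ 0 := by
    rw [ne_eq, ENNReal.ofReal_eq_zero, not_le]
    positivity
  have hCt : ENNReal.ofReal (2 ^ G.Q) ≠ ⊤ := ENNReal.ofReal_ne_top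
  have hC1 : (1 : ℝ≥0∞) ≤ ENNReal.ofReal (2 ^ G.Q) := by
    rw [← ENNReal.ofReal_one]
    exact ENNReal.ofReal_le_ofReal (one_le_pow₀ (by norm_num))
  have hε3 : ε / 3 ≠ 0 := (ENNReal.div_pos hε.ne' (by norm_num)).ne'
  obtain ⟨g, hgs, hfg, hgc, hg⟩ := hf.exists_hasCompactSupport_eLpNorm_sub_le hp'
    (ε := ε / 3 / ENNReal.ofReal (2 ^ G.Q)) (ENNReal.div_pos hε3 hCt).ne'
  have hfg1 : ENNReal.ofReal (2 ^ G.Q) * eLpNorm (f - g) p volume ≤ ε / 3 := by
    calc ENNReal.ofReal (2 ^ G.Q) * eLpNorm (f - g) p volume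
        ≤ ENNReal.ofReal (2 ^ G.Q) * (ε / 3 / ENNReal.ofReal (2 ^ G.Q)) := mul_le_mul_right hfg _
      _ = ε / 3 := ENNReal.mul_div_cancel hC0 hCt
  have hfg2 : eLpNorm (f - g) p volume ≤ ε / 3 := by
    refine le_trans ?_ hfg1
    calc eLpNorm (f - g) p volume = 1 * eLpNorm (f - g) p volume := (one_mul _).symm
      _ ≤ _ := mul_le_mul_left hC1 _
  -- the compact set
  set K : Set (Pt N) := (fun q : ℝ × Pt N => G.del q.1 q.2) '' (Icc (1 / 2) 2 ×ˢ tsupport g) with hKdef
  have hK : IsCompact K := (isCompact_Icc.prod hgs).image (del_cont2 G)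
  have hV : volume K ^ (1 / p.toReal) ≠ ⊤ :=
    ENNReal.rpow_ne_top_of_nonneg (by positivity) hK.measure_lt_top.ne
  obtain ⟨η, hη0, hη⟩ := ENNReal.exists_nnreal_pos_mul_lt hV hε3
  have hK1 : Function.support g ⊆ K := by
    intro x hx
    exact ⟨(1, x), ⟨⟨by norm_num, by norm_num⟩, subset_tsupport g hx⟩, G.del_one x⟩
  have hK2 : ∀ r : ℝ, 1 / 2 < r → r < 2 → Function.support (fun x => g (G.del r x)) ⊆ K := by
    intro r hr1 hr2 x hx
    have hr0 : 0 < r := by linarith
    refine ⟨(r⁻¹, G.del r x), ⟨⟨?_, ?_⟩, subset_tsupport g hx⟩, G.del_inv_del hr0.ne' x⟩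
    · change 1 / 2 ≤ r⁻¹
      rw [le_inv_comm₀ (by norm_num) hr0]
      norm_num
      linarith
    · change r⁻¹ ≤ 2
      rw [inv_le_comm₀ hr0 (by norm_num)]
      linarith
  have hunif : ∀ᶠ r : ℝ in 𝓝 1, ∀ x ∈ K, ‖g (G.del r x) - g x‖ < (η : ℝ) := by
    refine hK.eventually_forall_of_forall_eventually fun x _ => ?_
    have hc : Continuous (fun q : ℝ × Pt N => ‖g (G.del q.1 q.2) - g q.2‖) :=
      ((hgc.comp (del_cont2 G)).sub (hgc.comp continuous_snd)).norm
    refine hc.continuousAt.eventually_lt continuousAt_const ?_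
    change ‖g (G.del 1 x) - g x‖ < (η : ℝ)
    rw [G.del_one, sub_self, norm_zero]
    exact_mod_cast hη0
  have hr1 : ∀ᶠ r : ℝ in 𝓝 1, 1 / 2 < r := lt_mem_nhds (by norm_num)
  have hr2 : ∀ᶠ r : ℝ in 𝓝 1, r < 2 := gt_mem_nhds (by norm_num)
  filter_upwards [hunif, hr1, hr2] with r hu h1 h2
  have hr0 : 0 < r := by linarith
  have hmid : eLpNorm ((fun x => g (G.del r x)) - g) p volume ≤ ε / 3 := by
    have h3 := eLpNorm_sub_le_of_dist_bdd (volume : Measure (Pt N)) hp' hK.measurableSet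
      (c := (η : ℝ)) η.2 (f := fun x => g (G.del r x)) (g := g) (fun x => by
        rw [dist_eq_norm]
        by_cases hx : x ∈ K
        · exact (hu x hx).le
        · have h4 : g x = 0 := by
            by_contra h5
            exact hx (hK1 h5)
          have h6 : g (G.del r x) = 0 := by
            by_contra h5
            exact hx (hK2 r h1 h2 h5)
          rw [h4, h6, sub_self, norm_zero]
          exact η.2) (hK2 r h1 h2) hK1
    refine h3.trans ?_
    rw [ENNReal.ofReal_coe_nnreal]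
    exact hη.le
  have hm1 : AEStronglyMeasurable (f - g) volume := hf.1.sub hg.1
  have hm2 : AEStronglyMeasurable (fun x => (f - g) (G.del r x)) volume := by
    have h4 : AEStronglyMeasurable (f - g) (Measure.map (G.del r) volume) := by
      rw [G.map_del hr0]
      exact hm1.smul_measure _
    exact h4.comp_measurable (G.continuous_del r).measurable
  have hm3 : AEStronglyMeasurable ((fun x => g (G.del r x)) - g) volume :=
    ((hgc.comp (G.continuous_del r)).sub hgc).aestronglyMeasurable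
  have hsplit : (fun x => f (G.del r x) - f x) =
      ((fun x => (f - g) (G.del r x)) + ((fun x => g (G.del r x)) - g)) + (-(f - g)) := by
    funext x
    simp only [Pi.add_apply, Pi.sub_apply, Pi.neg_apply]
    abel
  rw [hsplit]
  have e1 := eLpNorm_add_le (hm2.add hm3) hm1.neg hp
  have e2 := eLpNorm_add_le hm2 hm3 hp
  have e3 := lp_del G hp hp' hm1 h1
  rw [eLpNorm_neg] at e1
  calc _ ≤ _ := e1
    _ ≤ (ε / 3 + ε / 3) + ε / 3 :=
        add_le_add (e2.trans (add_le_add (e3.trans hfg1) hmid)) hfg2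
    _ = ε := ENNReal.add_thirds ε

end Pool.Agent.CG
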