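import Pool.Agent.CG.M.Gg

/-!
# CG-M-Wkk: clamped weights

PLAN.  `wk_wt`: `wt_clamp` with `k := k + 1`.  `gg_wk_one`: `max (k+1)⁻¹ (min 1 (k+1)) = 1`.
`gg_wk_lower`: `gg_mono` for the weight `Wk` with `s = 1`.  `gg_wk_bound`: from `gg_wk_lower`.
`gg_wk_le`: if `t ≥ (k+1)⁻¹` the clamp is `t`; otherwise `t^2 * W((k+1)⁻¹) ≤ gg W (k+1)⁻¹`.
`gg_wk_tendsto`: if `t0 > 0` then eventually the clamp of `t k` is `t k`; if `t0 = 0` then
`gg (Wk c W (κ k)) (t k) ≤ c * gg W (max (κ k+1)⁻¹ (t k))` eventually, and this tends to `0` (continuity at 0).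
-/

set_option autoImplicit false

namespace Pool.Agent.CG

open MeasureTheory Set Filter Topology
open scoped ContDiff ENNReal

variable {m : ℕ} {a b : ℝ} {W : ℝ → ℝ}

/-- The clamped weights of the regularisation. -/
noncomputable def Wk (c : ℝ) (W : ℝ → ℝ) (k : ℕ) : ℝ → ℝ :=
  fun t => c * W (max ((k : ℝ) + 1)⁻¹ (min t (k + 1)))

private theorem wk_pos (k : ℕ) : (0 : ℝ) < (k : ℝ) + 1 := by positivity

private theorem wk_one_le (k : ℕ) : (1 : ℝ) ≤ (k : ℝ) + 1 := by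
  have : (0 : ℝ) ≤ (k : ℝ) := Nat.cast_nonneg k
  linarith

theorem wk_wt (ha0 : 0 ≤ a) (hb : 0 ≤ b) (hW : Wt a b W) {c : ℝ} (hc : 0 < c) (k : ℕ) :
    Wt a b (Wk c W k) :=
  wt_clamp ha0 hb hW hc (wk_pos k)

theorem gg_wk_one (c : ℝ) (W : ℝ → ℝ) (k : ℕ) : gg (Wk c W k) 1 = c * W 1 := by
  have h1 : min (1 : ℝ) ((k : ℝ) + 1) = 1 := min_eq_left (wk_one_le k)
  have h2 : max ((k : ℝ) + 1)⁻¹ (1 : ℝ) = 1 := max_eq_right (inv_le_one_of_one_le₀ (wk_one_le k))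
  simp only [gg, Wk, h1, h2, one_pow, one_mul]

theorem gg_wk_lower (ha0 : 0 ≤ a) (ha : a < 1) (hb : 0 ≤ b) (hW : Wt a b W) {c : ℝ} (hc : 0 < c)
    (k : ℕ) {t : ℝ} (ht : 1 ≤ t) : c * W 1 * t ^ (2 - a) ≤ gg (Wk c W k) t := by
  have h := gg_mono ha (wk_wt ha0 hb hW hc k) one_pos ht
  rw [div_one, gg_wk_one] at h
  linarith

theorem gg_wk_bound (ha0 : 0 ≤ a) (ha : a < 1) (hb : 0 ≤ b) (hW : Wt a b W) {c : ℝ} (hc : 0 < c)
    (k : ℕ) {t E : ℝ} (h : gg (Wk c W k) t ≤ E) : t ≤ max 1 ((E / (c * W 1)) ^ (1 / (2 - a))) := by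
  rcases le_total t 1 with ht | ht
  · exact ht.trans (le_max_left _ _)
  · refine le_trans ?_ (le_max_right _ _)
    have hW1 : 0 < c * W 1 := mul_pos hc (hW.pos 1 one_pos)
    have h1 := (gg_wk_lower ha0 ha hb hW hc k ht).trans h
    have h2 : t ^ (2 - a) ≤ E / (c * W 1) := by
      rw [le_div_iff₀ hW1]
      linarith
    have h3 : (0 : ℝ) < 2 - a := by linarith
    have ht0 : 0 ≤ t := by linarith
    calc t = (t ^ (2 - a)) ^ (1 / (2 - a)) := by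
          rw [← Real.rpow_mul ht0, mul_one_div_cancel h3.ne', Real.rpow_one]
      _ ≤ (E / (c * W 1)) ^ (1 / (2 - a)) :=
          Real.rpow_le_rpow (Real.rpow_nonneg ht0 _) h2 (by positivity)

/-- between the clamping bounds the weight is `c * W` -/
private theorem gg_wk_eq (c : ℝ) (W : ℝ → ℝ) (k : ℕ) {t : ℝ} (h1 : ((k : ℝ) + 1)⁻¹ ≤ t)
    (h2 : t ≤ k + 1) : gg (Wk c W k) t = c * gg W t := by
  simp only [gg, Wk]
  rw [min_eq_left h2, max_eq_right h1]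
  ring

theorem gg_wk_le (ha0 : 0 ≤ a) (ha : a < 1) (hb : 0 ≤ b) (hW : Wt a b W) {c : ℝ} (hc : 0 < c)
    (k : ℕ) {t : ℝ} (h0 : 0 ≤ t) (ht : t ≤ k + 1) :
    gg (Wk c W k) t ≤ c * (gg W t + gg W ((k : ℝ) + 1)⁻¹) := by
  have hK : (0 : ℝ) < ((k : ℝ) + 1)⁻¹ := inv_pos.2 (wk_pos k)
  have hg1 : 0 ≤ gg W t := gg_nonneg hW h0
  have hg2 : 0 ≤ gg W ((k : ℝ) + 1)⁻¹ := gg_nonneg hW hK.le
  rcases le_total (((k : ℝ) + 1)⁻¹) t with h1 | h1
  · rw [gg_wk_eq c W k h1 ht]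
    exact mul_le_mul_of_nonneg_left (by linarith) hc.le
  · have h2 : gg (Wk c W k) t = c * (t ^ 2 * W ((k : ℝ) + 1)⁻¹) := by
      simp only [gg, Wk]
      rw [min_eq_left ht, max_eq_left h1]
      ring
    rw [h2]
    refine mul_le_mul_of_nonneg_left ?_ hc.le
    have h3 : t ^ 2 * W ((k : ℝ) + 1)⁻¹ ≤ gg W ((k : ℝ) + 1)⁻¹ := by
      unfold gg
      exact mul_le_mul_of_nonneg_right (pow_le_pow_left₀ h0 h1 2) (hW.pos _ hK).le
    linarith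

private theorem gg_tendsto (ha0 : 0 ≤ a) (ha : a < 1) (hb : 0 ≤ b) (hW : Wt a b W)
    {t : ℕ → ℝ} {t0 : ℝ} (h0 : ∀ k, 0 ≤ t k) (h : Tendsto t atTop (𝓝 t0)) :
    Tendsto (fun k => gg W (t k)) atTop (𝓝 (gg W t0)) := by
  have ht0 : 0 ≤ t0 := ge_of_tendsto' h h0
  have h1 := (gg_continuousOn ha0 ha hb hW).continuousWithinAt (x := t0) ht0
  exact h1.tendsto.comp (tendsto_nhdsWithin_iff.2 ⟨h, Eventually.of_forall h0⟩)

private theorem inv_tendsto : Tendsto (fun k : ℕ => ((k : ℝ) + 1)⁻¹) atTop (𝓝 0) :=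
  tendsto_inv_atTop_zero.comp
    (tendsto_atTop_add_const_right _ _ tendsto_natCast_atTop_atTop)

theorem gg_inv_tendsto (ha0 : 0 ≤ a) (ha : a < 1) (hb : 0 ≤ b) (hW : Wt a b W) :
    Tendsto (fun k : ℕ => gg W ((k : ℝ) + 1)⁻¹) atTop (𝓝 0) := by
  have h := gg_tendsto ha0 ha hb hW (t := fun k : ℕ => ((k : ℝ) + 1)⁻¹)
    (fun k => (inv_pos.2 (wk_pos k)).le) inv_tendsto
  rwa [gg_zero] at h

/-- Convergence along a sequence `κ` of indices tending to infinity. -/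
theorem gg_wk_tendsto (ha0 : 0 ≤ a) (ha : a < 1) (hb : 0 ≤ b) (hW : Wt a b W) {c : ℝ} (hc : 0 < c)
    {κ : ℕ → ℕ} (hκ : Tendsto κ atTop atTop) {t : ℕ → ℝ} {t0 : ℝ} (h0 : ∀ k, 0 ≤ t k)
    (h : Tendsto t atTop (𝓝 t0)) :
    Tendsto (fun k => gg (Wk c W (κ k)) (t k)) atTop (𝓝 (c * gg W t0)) := by
  have ht0 : 0 ≤ t0 := ge_of_tendsto' h h0
  have hinv : Tendsto (fun k => ((κ k : ℝ) + 1)⁻¹) atTop (𝓝 0) := inv_tendsto.comp hκ
  have hup : ∀ᶠ k in atTop, t k ≤ (κ k : ℝ) + 1 := by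
    have h1 : ∀ᶠ k in atTop, t k ≤ t0 + 1 := h.eventually_le_const (by linarith)
    have h2 : ∀ᶠ k in atTop, t0 + 1 ≤ (κ k : ℝ) + 1 :=
      (tendsto_atTop_add_const_right _ _
        (tendsto_natCast_atTop_atTop.comp hκ)).eventually_ge_atTop (t0 + 1)
    filter_upwards [h1, h2] with k h3 h4
    exact h3.trans h4
  rcases ht0.eq_or_lt with ht | ht
  · subst ht
    rw [gg_zero, mul_zero]
    have h5 : Tendsto (fun k => c * (gg W (t k) + gg W ((κ k : ℝ) + 1)⁻¹)) atTop (𝓝 0) := by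
      have h6 := gg_tendsto ha0 ha hb hW h0 h
      have h7 := (gg_inv_tendsto ha0 ha hb hW).comp hκ
      rw [gg_zero] at h6
      have h8 := (h6.add h7).const_mul c
      rwa [add_zero, mul_zero] at h8
    refine squeeze_zero' (Eventually.of_forall fun k =>
      gg_nonneg (wk_wt ha0 hb hW hc (κ k)) (h0 k)) ?_ h5
    filter_upwards [hup] with k hk
    exact gg_wk_le ha0 ha hb hW hc (κ k) (h0 k) hk
  · have h1 : ∀ᶠ k in atTop, ((κ k : ℝ) + 1)⁻¹ ≤ t k := by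
      have h2 : ∀ᶠ k in atTop, ((κ k : ℝ) + 1)⁻¹ ≤ t0 / 2 :=
        hinv.eventually_le_const (by linarith)
      have h3 : ∀ᶠ k in atTop, t0 / 2 ≤ t k := h.eventually_const_le (by linarith)
      filter_upwards [h2, h3] with k h4 h5
      exact h4.trans h5
    refine ((gg_tendsto ha0 ha hb hW h0 h).const_mul c).congr' ?_
    filter_upwards [h1, hup] with k h4 h5
    exact (gg_wk_eq c W (κ k) h4 h5).symm

end Pool.Agent.CG
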