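import Pool.Agent.CG.M.SeqB
import Pool.Agent.CG.M.Wkk

/-!
# CG-M-SeqC: the limit energy

PLAN.  `seq_energy`: Fatou (`lintegral_liminf_le'`) for `x ↦ ENNReal.ofReal (gg (Wk c W (κ k)) ‖F k x‖)` on `B 0 1`, pointwise limit `c * gg W ‖F' x‖` (`gg_wk_tendsto` with `t k = ‖F k x‖`).
Conclude integrability (measurability of `F'` on `B 0 1`: pointwise limit of functions continuous on it) and the bound.
-/

set_option autoImplicit false

namespace Pool.Agent.CG

open MeasureTheory Set Filter Topology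
open scoped ContDiff ENNReal

variable {N m : ℕ} {G : Carnot N m}

theorem seq_energy {a b c E1 : ℝ} {W : ℝ → ℝ} (ha0 : 0 ≤ a) (ha : a < 1) (hb : 0 ≤ b) (hW : Wt a b W)
    (hc : 0 < c) (hE : 0 ≤ E1) {κ : ℕ → ℕ} (hκ : Tendsto κ atTop atTop) {F : ℕ → Pt N → Hv m}
    {F' : Pt N → Hv m} (hF : ∀ k, ContinuousOn (F k) (G.B 0 1))
    (hI : ∀ k, IntegrableOn (fun x => gg (Wk c W (κ k)) ‖F k x‖) (G.B 0 1))
    (hbE : ∀ k, ∫ x in G.B 0 1, gg (Wk c W (κ k)) ‖F k x‖ ≤ E1)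
    (hl : ∀ y ∈ G.B 0 1, Tendsto (fun k => F k y) atTop (𝓝 (F' y))) :
    IntegrableOn (fun x => gg W ‖F' x‖) (G.B 0 1) ∧ ∫ x in G.B 0 1, gg W ‖F' x‖ ≤ E1 / c := by
  have hopen : IsOpen (G.B 0 1) := G.isOpen_B 0 1
  have hmB : MeasurableSet (G.B 0 1) := hopen.measurableSet
  have hF'm : AEStronglyMeasurable F' (volume.restrict (G.B 0 1)) := seq_meas hopen hF hl
  have hgc : Continuous (fun ξ : Hv m => gg W ‖ξ‖) := gg_norm_continuous ha0 ha hb hW
  have hgm : AEStronglyMeasurable (fun x => gg W ‖F' x‖) (volume.restrict (G.B 0 1)) :=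
    hgc.comp_aestronglyMeasurable hF'm
  have hg0 : ∀ x, 0 ≤ gg W ‖F' x‖ := fun x => gg_nonneg hW (norm_nonneg _)
  have hk0 : ∀ k x, 0 ≤ gg (Wk c W (κ k)) ‖F k x‖ := fun k x =>
    gg_nonneg (wk_wt ha0 hb hW hc (κ k)) (norm_nonneg _)
  -- bounds of the integrals
  have hE' : ∀ k, ∫⁻ x in G.B 0 1, ENNReal.ofReal (gg (Wk c W (κ k)) ‖F k x‖) ≤ ENNReal.ofReal E1 := by
    intro k
    rw [← ofReal_integral_eq_lintegral_ofReal (hI k) (Eventually.of_forall (hk0 k))]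
    exact ENNReal.ofReal_le_ofReal (hbE k)
  -- Fatou
  have hlim : ∀ x ∈ G.B 0 1, liminf (fun k => ENNReal.ofReal (gg (Wk c W (κ k)) ‖F k x‖)) atTop
      = ENNReal.ofReal (c * gg W ‖F' x‖) := by
    intro x hx
    apply Tendsto.liminf_eq
    refine (ENNReal.continuous_ofReal.tendsto _).comp ?_
    exact gg_wk_tendsto ha0 ha hb hW hc hκ (fun k => norm_nonneg _) (hl x hx).norm
  have hfat : ∫⁻ x in G.B 0 1, ENNReal.ofReal (c * gg W ‖F' x‖) ≤ ENNReal.ofReal E1 := by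
    calc ∫⁻ x in G.B 0 1, ENNReal.ofReal (c * gg W ‖F' x‖)
        = ∫⁻ x in G.B 0 1, liminf (fun k => ENNReal.ofReal (gg (Wk c W (κ k)) ‖F k x‖)) atTop := by
          refine setLIntegral_congr_fun hmB (fun x hx => ?_)
          exact (hlim x hx).symm
      _ ≤ liminf (fun k => ∫⁻ x in G.B 0 1, ENNReal.ofReal (gg (Wk c W (κ k)) ‖F k x‖)) atTop :=
          lintegral_liminf_le' (fun k => (hI k).aestronglyMeasurable.aemeasurable.ennreal_ofReal)
      _ ≤ ENNReal.ofReal E1 := by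
          refine (liminf_le_liminf (Eventually.of_forall hE')).trans ?_
          simp
  have hcg : IntegrableOn (fun x => c * gg W ‖F' x‖) (G.B 0 1) := by
    refine ⟨hgm.const_mul c, ?_⟩
    rw [hasFiniteIntegral_iff_ofReal (Eventually.of_forall (fun x => mul_nonneg hc.le (hg0 x)))]
    exact lt_of_le_of_lt hfat ENNReal.ofReal_lt_top
  have hgi : IntegrableOn (fun x => gg W ‖F' x‖) (G.B 0 1) := by
    have h := hcg.const_mul c⁻¹
    refine h.congr (Eventually.of_forall (fun x => ?_))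
    simp only
    rw [← mul_assoc, inv_mul_cancel₀ hc.ne', one_mul]
  refine ⟨hgi, ?_⟩
  have h1 : ENNReal.ofReal (∫ x in G.B 0 1, c * gg W ‖F' x‖) ≤ ENNReal.ofReal E1 := by
    rw [ofReal_integral_eq_lintegral_ofReal hcg
      (Eventually.of_forall (fun x => mul_nonneg hc.le (hg0 x)))]
    exact hfat
  have h2 := (ENNReal.ofReal_le_ofReal_iff hE).1 h1
  rw [integral_const_mul] at h2
  rw [le_div_iff₀ hc]
  linarith

end Pool.Agent.CG
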