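import Pool.Agent.CG.Geo

/-!
# CG-M-L1conv: convergence of the gradients in `L^1`

PLAN.  `Z` is measurable on `B 0 1` (a.e. limit) and `∫_{B 0 1} ‖Z‖^r ≤ E` (Fatou), so `Z ∈ L^1`.  Given `ε`: for `ρ < 1` put
`K_ρ = {di 0 y ≤ ρ}` (compact, `G.isCompact_cB`), `vol (B 0 1 \ K_ρ) → 0` as `ρ → 1` (`G.vol_B`: `vol (B 0 ρ) = ρ^Q vol (B 0 1)`; or: the sets decrease to the
empty set, `tendsto_measure_iInter`).  Hölder: `∫_{B \ K_ρ} ‖Zk - Z‖ ≤ vol(B \ K_ρ)^(1-1/r) * 2 E^(1/r)`; on `K_ρ`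
dominated convergence (bound `2 M`).  Alternatively use `MeasureTheory.tendsto_Lp_finite_of_tendsto_ae` with uniform integrability proved from the `L^r` bound.
-/

set_option autoImplicit false

namespace Pool.Agent.CG

open MeasureTheory Set Filter Topology
open scoped ContDiff ENNReal

variable {N m : ℕ}

private theorem l1conv_pt {r C a : ℝ} (hr : 1 < r) (hC : 0 < C) (h : C ≤ a) :
    a ≤ C ^ (1 - r) * a ^ r := by
  have ha : 0 < a := lt_of_lt_of_le hC h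
  have h1 : C ^ (r - 1) ≤ a ^ (r - 1) := Real.rpow_le_rpow hC.le h (by linarith)
  have h2 : C ^ (1 - r) * C ^ (r - 1) = 1 := by
    rw [← Real.rpow_add hC]
    norm_num
  have h3 : a ^ r = a ^ (r - 1) * a := by
    rw [← Real.rpow_add_one ha.ne']
    norm_num
  have h4 : 0 ≤ C ^ (1 - r) := Real.rpow_nonneg hC.le _
  calc a = C ^ (1 - r) * C ^ (r - 1) * a := by rw [h2, one_mul]
    _ ≤ C ^ (1 - r) * a ^ (r - 1) * a := by gcongr
    _ = C ^ (1 - r) * a ^ r := by rw [h3, mul_assoc]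

theorem l1conv (G : Carnot N m) {r E : ℝ} (hr : 1 < r) {Zk : ℕ → Pt N → Hv m} {Z : Pt N → Hv m}
    (hm : ∀ k, AEStronglyMeasurable (Zk k) (volume.restrict (G.B 0 1)))
    (hE : ∀ k, ∫⁻ x in G.B 0 1, ENNReal.ofReal (‖Zk k x‖ ^ r) ≤ ENNReal.ofReal E)
    (hb : ∀ K : Set (Pt N), IsCompact K → K ⊆ G.B 0 1 → ∃ M : ℝ, ∀ k, ∀ᵐ x, x ∈ K → ‖Zk k x‖ ≤ M)
    (hl : ∀ᵐ x, x ∈ G.B 0 1 → Tendsto (fun k => Zk k x) atTop (𝓝 (Z x))) :
    Tendsto (fun k => eLpNorm (fun x => Zk k x - Z x) 1 (volume.restrict (G.B 0 1))) atTop (𝓝 0) := by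
  set μ : Measure (Pt N) := volume.restrict (G.B 0 1) with hμ
  have hfin : IsFiniteMeasure μ := ⟨by
    rw [hμ, Measure.restrict_apply_univ]
    exact G.vol_B_lt_top 0 1⟩
  have hae : ∀ᵐ x ∂μ, Tendsto (fun k => Zk k x) atTop (𝓝 (Z x)) :=
    (ae_restrict_iff' (G.isOpen_B 0 1).measurableSet).2 hl
  have hZm : AEStronglyMeasurable Z μ := aestronglyMeasurable_of_tendsto_ae atTop hm hae
  have hbd : ∀ k, eLpNorm (Zk k) 1 μ ≤ μ univ + ENNReal.ofReal E := by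
    intro k
    rw [eLpNorm_one_eq_lintegral_enorm]
    calc ∫⁻ x, ‖Zk k x‖ₑ ∂μ ≤ ∫⁻ x, (1 + ENNReal.ofReal (‖Zk k x‖ ^ r)) ∂μ := by
          refine lintegral_mono fun x => ?_
          rw [← ofReal_norm, ← ENNReal.ofReal_one,
            ← ENNReal.ofReal_add zero_le_one (Real.rpow_nonneg (norm_nonneg _) _)]
          refine ENNReal.ofReal_le_ofReal ?_
          rcases le_or_gt ‖Zk k x‖ 1 with h1 | h1
          · have := Real.rpow_nonneg (norm_nonneg (Zk k x)) r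
            linarith
          · have := Real.self_le_rpow_of_one_le h1.le hr.le
            linarith
      _ = μ univ + ∫⁻ x, ENNReal.ofReal (‖Zk k x‖ ^ r) ∂μ := by
          rw [lintegral_add_left measurable_const, lintegral_const, one_mul]
      _ ≤ μ univ + ENNReal.ofReal E := by gcongr; exact hE k
  have hZ1 : MemLp Z 1 μ := ⟨hZm, lt_of_le_of_lt
    (Lp.eLpNorm_le_of_ae_tendsto (Eventually.of_forall hbd) hm hae)
    (ENNReal.add_lt_top.2 ⟨measure_lt_top μ univ, ENNReal.ofReal_lt_top⟩)⟩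
  refine tendsto_Lp_finite_of_tendsto_ae le_rfl ENNReal.one_ne_top hm hZ1 ?_ hae
  refine unifIntegrable_of le_rfl ENNReal.one_ne_top hm fun ε hε => ?_
  have hlim : Tendsto (fun C : ℝ => C ^ (1 - r) * |E|) atTop (𝓝 (0 * |E|)) := by
    have := tendsto_rpow_neg_atTop (show (0 : ℝ) < r - 1 by linarith)
    rw [neg_sub] at this
    exact this.mul_const _
  rw [zero_mul] at hlim
  obtain ⟨C, hC1, hC2⟩ := ((hlim.eventually (gt_mem_nhds hε)).and (eventually_gt_atTop 0)).exists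
  refine ⟨C.toNNReal, fun k => ?_⟩
  rw [eLpNorm_one_eq_lintegral_enorm]
  have h4 : 0 ≤ C ^ (1 - r) := Real.rpow_nonneg hC2.le _
  calc ∫⁻ x, ‖({x | C.toNNReal ≤ ‖Zk k x‖₊}.indicator (Zk k)) x‖ₑ ∂μ
      ≤ ∫⁻ x, ENNReal.ofReal (C ^ (1 - r)) * ENNReal.ofReal (‖Zk k x‖ ^ r) ∂μ := by
        refine lintegral_mono fun x => ?_
        by_cases hx : x ∈ {x | C.toNNReal ≤ ‖Zk k x‖₊}
        · rw [indicator_of_mem hx, ← ofReal_norm, ← ENNReal.ofReal_mul h4]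
          refine ENNReal.ofReal_le_ofReal (l1conv_pt hr hC2 ?_)
          have h5 : C.toNNReal ≤ ‖Zk k x‖₊ := hx
          have h6 := NNReal.coe_le_coe.2 h5
          rwa [Real.coe_toNNReal C hC2.le, coe_nnnorm] at h6
        · rw [indicator_of_notMem hx, enorm_zero]
          exact zero_le
    _ = ENNReal.ofReal (C ^ (1 - r)) * ∫⁻ x, ENNReal.ofReal (‖Zk k x‖ ^ r) ∂μ :=
        lintegral_const_mul' _ _ ENNReal.ofReal_ne_top
    _ ≤ ENNReal.ofReal (C ^ (1 - r)) * ENNReal.ofReal E := by gcongr; exact hE k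
    _ ≤ ENNReal.ofReal (C ^ (1 - r)) * ENNReal.ofReal |E| := by
        gcongr
        exact le_abs_self E
    _ = ENNReal.ofReal (C ^ (1 - r) * |E|) := (ENNReal.ofReal_mul h4).symm
    _ ≤ ENNReal.ofReal ε := ENNReal.ofReal_le_ofReal hC1.le

end Pool.Agent.CG
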