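import Pool.Agent.CG.M.Poin1

/-!
# CG-M-Limit1: the limit function in `HW^{1,1}`

PLAN.  Apply `poin1` to the differences `zk k - zk l` (`HW.sub`), so `zk` is Cauchy in `L^1` (each `zk k ∈ L^1` because it is in `L^1_loc` and vanishes
off the bounded set `B 0 1 ⊆ {di 0 y ≤ 1}` compact; `‖Zk k - Zk l‖_1 ≤ ‖Zk k - Z‖_1 + ‖Z - Zk l‖_1`); completeness of `Lp` (`MeasureTheory.Lp` of exponent 1) gives `z`.
`HW.lim` with `q = 1` (local convergence from global; `Z ∈ L^1`: `Zk k ∈ L^1` for some `k` and `‖Zk k - Z‖_1 < ⊤`, measurability `hZ`).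
`z = 0` and `Z = 0` a.e. off `B 0 1`: the `L^1` norm on the complement is the limit of zeros (or a.e. convergent subsequence).
-/

set_option autoImplicit false

namespace Pool.Agent.CG

open MeasureTheory Set Filter Topology
open scoped ContDiff ENNReal

variable {N m : ℕ}

private theorem lim1_off {E : Type*} [NormedAddCommGroup E] {f : ℕ → Pt N → E} {g : Pt N → E}
    {S : Set (Pt N)} (hS : MeasurableSet S) (h0 : ∀ k, ∀ᵐ x, x ∈ S → f k x = 0)
    (hg : AEStronglyMeasurable g volume)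
    (hl : Tendsto (fun k => eLpNorm (fun x => f k x - g x) 1 volume) atTop (𝓝 0)) :
    ∀ᵐ x, x ∈ S → g x = 0 := by
  have h1 : ∀ k, eLpNorm g 1 (volume.restrict S) ≤ eLpNorm (fun x => f k x - g x) 1 volume := by
    intro k
    calc eLpNorm g 1 (volume.restrict S) = eLpNorm (fun x => f k x - g x) 1 (volume.restrict S) := by
          refine eLpNorm_congr_norm_ae ?_
          rw [ae_restrict_iff' hS]
          filter_upwards [h0 k] with x hx hxS
          rw [hx hxS, zero_sub, norm_neg]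
      _ ≤ eLpNorm (fun x => f k x - g x) 1 volume :=
          eLpNorm_mono_measure _ Measure.restrict_le_self
  have h2 : eLpNorm g 1 (volume.restrict S) ≤ 0 := ge_of_tendsto' hl h1
  have h3 := (eLpNorm_eq_zero_iff hg.restrict one_ne_zero).1 (le_antisymm h2 zero_le)
  exact (ae_restrict_iff' hS).1 h3

private theorem lim1_mem (G : Carnot N m) {E : Type*} [NormedAddCommGroup E] {f : Pt N → E}
    (hf : LqLoc 1 univ f) (h0 : ∀ᵐ x, x ∉ G.B 0 1 → f x = 0) : MemLp f 1 volume := by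
  have hK := G.isCompact_cB 0 1
  have h1 := hf _ hK (subset_univ _)
  rw [← memLp_indicator_iff_restrict hK.measurableSet] at h1
  refine h1.ae_eq ?_
  filter_upwards [h0] with x hx
  by_cases h2 : x ∈ {y | G.di 0 y ≤ 1}
  · rw [indicator_of_mem h2]
  · rw [indicator_of_notMem h2]
    refine (hx fun h3 => h2 ?_).symm
    exact (Carnot.mem_B G |>.1 h3).le

theorem limit1 (G : Carnot N m) (hN : 0 < N) {zk : ℕ → Pt N → ℝ} {Zk : ℕ → Pt N → Hv m}
    {Z : Pt N → Hv m} (h : ∀ k, HW G 1 univ (zk k) (Zk k))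
    (h0 : ∀ k, ∀ᵐ x, x ∉ G.B 0 1 → zk k x = 0 ∧ Zk k x = 0) (hZ : AEStronglyMeasurable Z volume)
    (hl : Tendsto (fun k => eLpNorm (fun x => Zk k x - Z x) 1 volume) atTop (𝓝 0)) :
    ∃ z : Pt N → ℝ, HW G 1 univ z Z ∧ ∀ᵐ x, x ∉ G.B 0 1 → z x = 0 ∧ Z x = 0 := by
  obtain ⟨C, hC, hp⟩ := poin1 G hN
  have hz0 : ∀ k, ∀ᵐ x, x ∉ G.B 0 1 → zk k x = 0 := fun k => by
    filter_upwards [h0 k] with x hx hxB
    exact (hx hxB).1
  have hZ0 : ∀ k, ∀ᵐ x, x ∉ G.B 0 1 → Zk k x = 0 := fun k => by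
    filter_upwards [h0 k] with x hx hxB
    exact (hx hxB).2
  have hzm : ∀ k, MemLp (zk k) 1 volume := fun k => lim1_mem G (h k).lq (hz0 k)
  have hZm : ∀ k, MemLp (Zk k) 1 volume := fun k => lim1_mem G (h k).lqg (hZ0 k)
  set a : ℕ → ℝ≥0∞ := fun k => eLpNorm (fun x => Zk k x - Z x) 1 volume with ha
  have hZk : ∀ k l, eLpNorm (fun x => Zk k x - Zk l x) 1 volume ≤ a k + a l := by
    intro k l
    have e : (fun x => Zk k x - Zk l x) = (fun x => (Zk k x - Z x) - (Zk l x - Z x)) := by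
      funext x
      abel
    rw [e]
    exact eLpNorm_sub_le ((hZm k).1.sub hZ) ((hZm l).1.sub hZ) le_rfl
  have hzk : ∀ k l, eLpNorm (zk k - zk l) 1 volume ≤ ENNReal.ofReal C * (a k + a l) := by
    intro k l
    have h1 := hp _ _ (HW.sub le_rfl (h k) (h l)) (by
      filter_upwards [h0 k, h0 l] with x hx1 hx2 hxB
      rw [(hx1 hxB).1, (hx2 hxB).1, (hx1 hxB).2, (hx2 hxB).2]
      exact ⟨sub_self _, sub_self _⟩)
    exact h1.trans (by gcongr; exact hZk k l)
  have hfact : Fact ((1 : ℝ≥0∞) ≤ 1) := ⟨le_rfl⟩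
  have hcau : CauchySeq (fun k => (hzm k).toLp (zk k)) := by
    rw [Lp.cauchySeq_Lp_iff_cauchySeq_eLpNorm]
    have h1 : Tendsto (fun n : ℕ × ℕ => ENNReal.ofReal C * (a n.1 + a n.2)) atTop (𝓝 0) := by
      have h2 : Tendsto (fun n : ℕ × ℕ => a n.1 + a n.2) atTop (𝓝 (0 + 0)) := by
        rw [← prod_atTop_atTop_eq]
        exact (hl.comp tendsto_fst).add (hl.comp tendsto_snd)
      rw [add_zero] at h2
      have h3 := ENNReal.Tendsto.const_mul (a := ENNReal.ofReal C) h2 (Or.inr ENNReal.ofReal_ne_top)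
      rwa [mul_zero] at h3
    refine tendsto_of_tendsto_of_tendsto_of_le_of_le tendsto_const_nhds h1 (fun _ => zero_le) ?_
    intro n
    refine le_trans (le_of_eq ?_) (hzk n.1 n.2)
    exact eLpNorm_congr_ae ((hzm n.1).coeFn_toLp.sub (hzm n.2).coeFn_toLp)
  obtain ⟨zL, hzL⟩ := cauchySeq_tendsto_of_complete hcau
  have hzl : Tendsto (fun k => eLpNorm (zk k - ⇑zL) 1 volume) atTop (𝓝 0) := by
    have h1 := (Lp.tendsto_Lp_iff_tendsto_eLpNorm' _ _).1 hzL
    refine h1.congr fun k => ?_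
    exact eLpNorm_congr_ae ((hzm k).coeFn_toLp.sub (ae_eq_refl _))
  have hzLm : MemLp zL 1 volume := Lp.memLp zL
  have hZL : MemLp Z 1 volume := by
    have h1 : ∀ᶠ k in atTop, a k < 1 := hl.eventually (gt_mem_nhds one_pos)
    obtain ⟨k, hk⟩ := h1.exists
    have h2 : MemLp (fun x => Zk k x - Z x) 1 volume :=
      ⟨(hZm k).1.sub hZ, lt_trans hk ENNReal.one_lt_top⟩
    have h3 := (hZm k).sub h2
    refine h3.ae_eq (Eventually.of_forall fun x => ?_)
    show Zk k x - (Zk k x - Z x) = Z x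
    abel
  have hSm : MeasurableSet (G.B 0 1)ᶜ := (G.isOpen_B 0 1).measurableSet.compl
  refine ⟨zL, HW.lim le_rfl h (fun K _ _ => hzLm.restrict K) (fun K _ _ => hZL.restrict K) ?_ ?_, ?_⟩
  · intro K _ _
    refine tendsto_of_tendsto_of_tendsto_of_le_of_le tendsto_const_nhds hzl (fun _ => zero_le) ?_
    intro k
    exact eLpNorm_mono_measure _ Measure.restrict_le_self
  · intro K _ _
    refine tendsto_of_tendsto_of_tendsto_of_le_of_le tendsto_const_nhds hl (fun _ => zero_le) ?_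
    intro k
    exact eLpNorm_mono_measure _ Measure.restrict_le_self
  · filter_upwards [lim1_off hSm hz0 hzLm.1 hzl, lim1_off hSm hZ0 hZ hl] with x h1 h2 hx
    exact ⟨h1 hx, h2 hx⟩

end Pool.Agent.CG
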