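import Pool.Agent.CG.Sob

/-!
# CG-M-SeqB: the limit equation

PLAN.  `seq_eqn`: fix a test function `ψ` on `B 0 1`, `K = tsupport ψ`.  By `hb` there is `M` with `‖F k x‖ ≤ M` on `K` for all `k`; so `‖F' x‖ ≤ M` on `K`.
`A k (F k x) → A' (F' x)` for `x ∈ K`: uniform convergence of `A k` on the closed ball of radius `M` and continuity of `A'`.  `A k` is bounded on that ball uniformly for large `k`
(`A'` is bounded on the compact ball, uniform convergence).  Off `K` the integrands vanish (`grad ψ = 0` off the support: `ψ` vanishes near the point).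
Dominated convergence (bound: const * indicator of `K` * ‖grad ψ‖, `G.smooth_grad`); measurability of `x ↦ ⟨A k (F k x), grad ψ x⟩`: `F k` is continuous on the open set `B 0 1`,
`A k` continuous.
-/

set_option autoImplicit false

namespace Pool.Agent.CG

open MeasureTheory Set Filter Topology
open scoped ContDiff ENNReal

variable {N m : ℕ} {G : Carnot N m}

theorem seq_meas {F : ℕ → Pt N → Hv m} {F' : Pt N → Hv m} {D : Set (Pt N)} (hD : IsOpen D)
    (hF : ∀ k, ContinuousOn (F k) D) (hl : ∀ y ∈ D, Tendsto (fun k => F k y) atTop (𝓝 (F' y))) :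
    AEStronglyMeasurable F' (volume.restrict D) := by
  refine aestronglyMeasurable_of_tendsto_ae atTop
    (fun k => (hF k).aestronglyMeasurable hD.measurableSet) ?_
  exact (ae_restrict_iff' hD.measurableSet).2 (Eventually.of_forall hl)

private theorem seqB_grad_zero {ψ : Pt N → ℝ} {Ω : Set (Pt N)} (hψ : Test Ω ψ) {x : Pt N}
    (hx : x ∉ tsupport ψ) : G.grad ψ x = 0 := by
  have h0 : Test (tsupport ψ) ψ := ⟨hψ.smooth, hψ.cpt, subset_rfl⟩
  have h1 : ∀ k, G.X k ψ x = 0 := by
    intro k
    have h2 := (G.test_X h0 k).sub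
    have h3 : x ∉ tsupport (G.X k ψ) := fun h => hx (h2 h)
    exact image_eq_zero_of_notMem_tsupport h3
  ext k
  show G.X k ψ x = 0
  exact h1 k

theorem seq_eqn {A : ℕ → Hv m → Hv m} {A' : Hv m → Hv m} {F : ℕ → Pt N → Hv m} {F' : Pt N → Hv m}
    (hA : ∀ k, Continuous (A k)) (hA' : Continuous A')
    (hu : ∀ M : ℝ, TendstoUniformlyOn A A' atTop (Metric.closedBall 0 M))
    (hF : ∀ k, ContinuousOn (F k) (G.B 0 1))
    (hb : ∀ K : Set (Pt N), IsCompact K → K ⊆ G.B 0 1 → ∃ M : ℝ, 0 < M ∧ ∀ k, ∀ x ∈ K, ‖F k x‖ ≤ M)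
    (he : ∀ k, ∀ ψ : Pt N → ℝ, Test (G.B 0 1) ψ → ∫ x, inner ℝ (A k (F k x)) (G.grad ψ x) = 0)
    (hl : ∀ y ∈ G.B 0 1, Tendsto (fun k => F k y) atTop (𝓝 (F' y))) :
    ∀ ψ : Pt N → ℝ, Test (G.B 0 1) ψ → ∫ x, inner ℝ (A' (F' x)) (G.grad ψ x) = 0 := by
  intro ψ hψ
  set K : Set (Pt N) := tsupport ψ with hKdef
  have hK : IsCompact K := hψ.cpt
  have hKB : K ⊆ G.B 0 1 := hψ.sub
  obtain ⟨M, hM, hMb⟩ := hb K hK hKB
  have hz : ∀ x, x ∉ K → G.grad ψ x = 0 := fun x hx => seqB_grad_zero hψ hx
  have hgc : Continuous (G.grad ψ) := (G.smooth_grad hψ.smooth).continuous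
  -- reduce to integrals over `K`
  have hred : ∀ H : Pt N → Hv m, ∫ x, inner ℝ (H x) (G.grad ψ x) =
      ∫ x in K, inner ℝ (H x) (G.grad ψ x) := by
    intro H
    symm
    apply setIntegral_eq_integral_of_forall_compl_eq_zero
    intro x hx
    rw [hz x hx, inner_zero_right]
  -- bounds
  obtain ⟨Ma, hMa⟩ := (isCompact_closedBall (0 : Hv m) M).exists_bound_of_continuousOn
    hA'.continuousOn
  obtain ⟨Mg, hMg⟩ := hK.exists_bound_of_continuousOn hgc.continuousOn
  have hev := Metric.tendstoUniformlyOn_iff.1 (hu M) 1 one_pos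
  have hFc : ∀ k, ContinuousOn (F k) K := fun k => (hF k).mono hKB
  have hlim : Tendsto (fun k => ∫ x in K, inner ℝ (A k (F k x)) (G.grad ψ x)) atTop
      (𝓝 (∫ x in K, inner ℝ (A' (F' x)) (G.grad ψ x))) := by
    refine tendsto_integral_filter_of_dominated_convergence (fun _ => (Ma + 1) * Mg) ?_ ?_ ?_ ?_
    · refine Eventually.of_forall fun k => ?_
      apply ContinuousOn.aestronglyMeasurable _ hK.measurableSet
      exact ((hA k).comp_continuousOn (hFc k)).inner hgc.continuousOn
    · filter_upwards [hev] with k hk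
      refine (ae_restrict_iff' hK.measurableSet).2 (Eventually.of_forall fun x hx => ?_)
      have h1 : F k x ∈ Metric.closedBall (0 : Hv m) M := by
        rw [mem_closedBall_zero_iff]
        exact hMb k x hx
      have h2 := hk _ h1
      rw [dist_eq_norm] at h2
      have h3 := hMa _ h1
      have h4 : ‖A k (F k x)‖ ≤ Ma + 1 := by
        have h5 : A k (F k x) = A' (F k x) - (A' (F k x) - A k (F k x)) := by abel
        rw [h5]
        refine (norm_sub_le _ _).trans ?_
        linarith
      have h6 : 0 ≤ Ma + 1 := (norm_nonneg _).trans h4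
      exact (norm_inner_le_norm _ _).trans
        (mul_le_mul h4 (hMg x hx) (norm_nonneg _) h6)
    · haveI : IsFiniteMeasure (volume.restrict K) := ⟨by
        rw [Measure.restrict_apply_univ]
        exact hK.measure_lt_top⟩
      exact integrable_const _
    · refine (ae_restrict_iff' hK.measurableSet).2 (Eventually.of_forall fun x hx => ?_)
      have h1 : ∀ k, F k x ∈ Metric.closedBall (0 : Hv m) M := by
        intro k
        rw [mem_closedBall_zero_iff]
        exact hMb k x hx
      have h2 := hl x (hKB hx)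
      have h3 : Tendsto (fun k => A' (F k x)) atTop (𝓝 (A' (F' x))) :=
        (hA'.tendsto _).comp h2
      have h4 : Tendsto (fun k => A k (F k x) - A' (F k x)) atTop (𝓝 0) := by
        rw [Metric.tendsto_atTop]
        intro ε hε
        obtain ⟨n, hn⟩ := eventually_atTop.1 (Metric.tendstoUniformlyOn_iff.1 (hu M) ε hε)
        refine ⟨n, fun k hk => ?_⟩
        have h5 := hn k hk _ (h1 k)
        rw [dist_zero_right, ← dist_eq_norm, dist_comm]
        exact h5
      have h5 : Tendsto (fun k => A k (F k x)) atTop (𝓝 (A' (F' x))) := by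
        have h6 := h4.add h3
        rw [zero_add] at h6
        refine h6.congr fun k => ?_
        abel
      exact h5.inner tendsto_const_nhds
  have hzero : ∀ k, ∫ x in K, inner ℝ (A k (F k x)) (G.grad ψ x) = 0 := by
    intro k
    rw [← hred fun x => A k (F k x)]
    exact he k ψ hψ
  simp only [hzero] at hlim
  rw [hred fun x => A' (F' x)]
  exact tendsto_nhds_unique hlim tendsto_const_nhds

end Pool.Agent.CG
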