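import Pool.Agent.CG.M.SeqA
import Pool.Agent.CG.M.SeqB
import Pool.Agent.CG.M.L1conv
import Pool.Agent.CG.M.Limit1

/-!
# CG-M-SeqD: the limit function in `HW^{1,1}`

PLAN.  `Z' x = F' x - Γ x` on `B 0 1`, `0` off `B 0 1`.  Apply `l1conv` with `r = 2 - a > 1` to `Zk k = F (k) - Γ` (on `B 0 1`): measurable (continuous on the open ball);
`‖F - Γ‖^r ≤ 2^r (‖F‖^r + ‖Γ‖^r)`, `‖F‖^r ≤ 1 + gg (Wk ..) ‖F‖ / (c W 1)` (`gg_wk_lower`), `Γ` is bounded on `B 0 1` (continuous on the compact set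
`{di 0 y ≤ 1}`), the ball has finite volume: `E` independent of `k`; local boundedness: `seq_bdd`.
Since `Z k = F k - Γ` a.e. on `B 0 1` (`Pack.ae`) and `Z k = 0` a.e. off `B 0 1` (`HW0.zero`), `eLpNorm (Z k - Z') 1 volume → 0` (split the integral into `B 0 1` and its complement;
`volume = restrict + restrict compl`).  `limit1` with `HW G 1 univ (z k) (Z k)` from `HW0.hw`, `HW.mono_exp`.
-/

set_option autoImplicit false

namespace Pool.Agent.CG

open MeasureTheory Set Filter Topology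
open scoped ContDiff ENNReal

variable {N m : ℕ} {G : Carnot N m}

theorem seq_lim1 (hN : 0 < N) {a b c C α E1 : ℝ} {W : ℝ → ℝ} (ha0 : 0 ≤ a) (ha : a < 1) (hb : 0 ≤ b)
    (hW : Wt a b W) (hc : 0 < c) {κ : ℕ → ℕ} {A : ℕ → Hv m → Hv m} {Γ : Pt N → Hv m}
    (hΓ : Continuous Γ) {z : ℕ → Pt N → ℝ} {Z F : ℕ → Pt N → Hv m} {F' : Pt N → Hv m}
    (hP : ∀ k, Pack G (Wk c W (κ k)) (A k) Γ C α E1 (z k) (Z k) (F k))
    (hl : ∀ y ∈ G.B 0 1, Tendsto (fun k => F k y) atTop (𝓝 (F' y))) :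
    ∃ (z' : Pt N → ℝ) (Z' : Pt N → Hv m), HW G 1 univ z' Z' ∧
      (∀ᵐ x, x ∉ G.B 0 1 → z' x = 0 ∧ Z' x = 0) ∧ ∀ x ∈ G.B 0 1, Γ x + Z' x = F' x := by
  classical
  have hDo : IsOpen (G.B 0 1) := G.isOpen_B 0 1
  have hDm : MeasurableSet (G.B 0 1) := hDo.measurableSet
  have hvol : volume (G.B 0 1) < ⊤ := G.vol_B_lt_top 0 1
  have : IsFiniteMeasure (volume.restrict (G.B 0 1)) := ⟨by
    rw [Measure.restrict_apply_univ]; exact hvol⟩
  have hr : 1 < 2 - a := by linarith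
  have hr0 : 0 ≤ 2 - a := by linarith
  have hcW : 0 < c * W 1 := mul_pos hc (hW.pos 1 one_pos)
  -- bound of `Γ`
  obtain ⟨M0, hM0⟩ := (G.isCompact_cB 0 1).exists_bound_of_continuousOn hΓ.continuousOn
  have hMG : ∀ x ∈ G.B 0 1, ‖Γ x‖ ≤ max M0 0 := fun x hx =>
    (hM0 x (show G.di 0 x ≤ 1 from le_of_lt hx)).trans (le_max_left _ _)
  have hMG0 : 0 ≤ max M0 0 := le_max_right _ _
  set MG := max M0 0 with hMGdef
  -- the limit gradient
  set Z' : Pt N → Hv m := (G.B 0 1).indicator (fun x => F' x - Γ x) with hZ'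
  have hZ'in : ∀ x ∈ G.B 0 1, Z' x = F' x - Γ x := fun x hx => indicator_of_mem hx _
  have hZ'out : ∀ x, x ∉ G.B 0 1 → Z' x = 0 := fun x hx => indicator_of_notMem hx _
  have hFmeas : ∀ k, AEStronglyMeasurable (F k) (volume.restrict (G.B 0 1)) := fun k =>
    (hP k).cont.aestronglyMeasurable hDm
  have hF'meas : AEStronglyMeasurable F' (volume.restrict (G.B 0 1)) :=
    seq_meas hDo (fun k => (hP k).cont) hl
  have hggnn : ∀ k x, 0 ≤ gg (Wk c W (κ k)) ‖F k x‖ := fun k x =>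
    gg_nonneg (wk_wt ha0 hb hW hc (κ k)) (norm_nonneg _)
  set c0 : ℝ := 2 ^ (2 - a) * (1 + MG ^ (2 - a)) with hc0
  set c1 : ℝ := 2 ^ (2 - a) / (c * W 1) with hc1
  have h2r : 0 < (2 : ℝ) ^ (2 - a) := Real.rpow_pos_of_pos two_pos _
  have hc1nn : 0 ≤ c1 := div_nonneg h2r.le hcW.le
  have hMGr : 0 ≤ MG ^ (2 - a) := Real.rpow_nonneg hMG0 _
  have hc0nn : 0 ≤ c0 := mul_nonneg h2r.le (by linarith)
  have hpt : ∀ k, ∀ x ∈ G.B 0 1,
      ‖F k x - Γ x‖ ^ (2 - a) ≤ c0 + c1 * gg (Wk c W (κ k)) ‖F k x‖ := by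
    intro k x hx
    have hx1 := hMG x hx
    have hg := hggnn k x
    have hFr : ‖F k x‖ ^ (2 - a) ≤ 1 + gg (Wk c W (κ k)) ‖F k x‖ / (c * W 1) := by
      rcases le_total ‖F k x‖ 1 with h | h
      · have h1 : ‖F k x‖ ^ (2 - a) ≤ 1 := Real.rpow_le_one (norm_nonneg _) h hr0
        have h2 : 0 ≤ gg (Wk c W (κ k)) ‖F k x‖ / (c * W 1) := div_nonneg hg hcW.le
        linarith
      · have h1 := gg_wk_lower ha0 ha hb hW hc (κ k) h
        have h2 : ‖F k x‖ ^ (2 - a) ≤ gg (Wk c W (κ k)) ‖F k x‖ / (c * W 1) := by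
          rw [le_div_iff₀ hcW, mul_comm]
          exact h1
        linarith
    have h1 : ‖F k x - Γ x‖ ≤ 2 * max ‖F k x‖ MG := by
      have h2 := norm_sub_le (F k x) (Γ x)
      have h3 := le_max_left ‖F k x‖ MG
      have h4 := le_max_right ‖F k x‖ MG
      linarith
    have h2 : ‖F k x - Γ x‖ ^ (2 - a) ≤ 2 ^ (2 - a) * (max ‖F k x‖ MG) ^ (2 - a) := by
      rw [← Real.mul_rpow two_pos.le (le_max_of_le_right hMG0)]
      exact Real.rpow_le_rpow (norm_nonneg _) h1 hr0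
    have h3 : (max ‖F k x‖ MG) ^ (2 - a) ≤ ‖F k x‖ ^ (2 - a) + MG ^ (2 - a) := by
      rcases max_cases ‖F k x‖ MG with h | h
      · rw [h.1]
        linarith
      · rw [h.1]
        have := Real.rpow_nonneg (norm_nonneg (F k x)) (2 - a)
        linarith
    calc ‖F k x - Γ x‖ ^ (2 - a) ≤ 2 ^ (2 - a) * (max ‖F k x‖ MG) ^ (2 - a) := h2
      _ ≤ 2 ^ (2 - a) * ((1 + gg (Wk c W (κ k)) ‖F k x‖ / (c * W 1)) + MG ^ (2 - a)) := by
          refine mul_le_mul_of_nonneg_left ?_ h2r.le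
          linarith
      _ = c0 + c1 * gg (Wk c W (κ k)) ‖F k x‖ := by
          rw [hc0, hc1]
          field_simp
          ring
  have hE : ∀ k, ∫⁻ x in G.B 0 1, ENNReal.ofReal (‖F k x - Γ x‖ ^ (2 - a)) ≤
      ENNReal.ofReal (c0 * (volume (G.B 0 1)).toReal + c1 * E1) := by
    intro k
    have hi : IntegrableOn (fun x => c0 + c1 * gg (Wk c W (κ k)) ‖F k x‖) (G.B 0 1) :=
      (integrable_const c0).add ((hP k).int.const_mul c1)
    calc ∫⁻ x in G.B 0 1, ENNReal.ofReal (‖F k x - Γ x‖ ^ (2 - a))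
        ≤ ∫⁻ x in G.B 0 1, ENNReal.ofReal (c0 + c1 * gg (Wk c W (κ k)) ‖F k x‖) :=
          setLIntegral_mono' hDm fun x hx => ENNReal.ofReal_le_ofReal (hpt k x hx)
      _ = ENNReal.ofReal (∫ x in G.B 0 1, (c0 + c1 * gg (Wk c W (κ k)) ‖F k x‖)) := by
          rw [ofReal_integral_eq_lintegral_ofReal hi]
          exact Eventually.of_forall fun x =>
            add_nonneg hc0nn (mul_nonneg hc1nn (hggnn k x))
      _ ≤ ENNReal.ofReal (c0 * (volume (G.B 0 1)).toReal + c1 * E1) := by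
          refine ENNReal.ofReal_le_ofReal ?_
          rw [integral_add (integrable_const c0) ((hP k).int.const_mul c1), integral_const,
            integral_const_mul, smul_eq_mul, measureReal_restrict_apply_univ]
          have h1 := mul_le_mul_of_nonneg_left (hP k).energy hc1nn
          have h2 : (volume.real (G.B 0 1)) * c0 = c0 * (volume (G.B 0 1)).toReal := by
            rw [mul_comm]
            rfl
          linarith
  have hconv := l1conv G hr (Zk := fun k x => F k x - Γ x) (Z := Z')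
    (fun k => (hFmeas k).sub hΓ.aestronglyMeasurable) hE
    (by
      intro K hK hKD
      obtain ⟨M, _, hM⟩ := seq_bdd ha0 ha hb hW hc hP hK hKD
      refine ⟨M + MG, fun k => Eventually.of_forall fun x hx => ?_⟩
      exact (norm_sub_le _ _).trans (add_le_add (hM k x hx) (hMG x (hKD hx))))
    (Eventually.of_forall fun x hx => by
      rw [hZ'in x hx]
      exact (hl x hx).sub_const _)
  have hcongr : ∀ k, eLpNorm (fun x => Z k x - Z' x) 1 volume =
      eLpNorm (fun x => (F k x - Γ x) - Z' x) 1 (volume.restrict (G.B 0 1)) := by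
    intro k
    rw [← eLpNorm_indicator_eq_eLpNorm_restrict hDm]
    refine eLpNorm_congr_ae ?_
    filter_upwards [(hP k).ae, HW0.zero one_le_two hDo (hP k).hw0] with x h1 h2
    by_cases hx : x ∈ G.B 0 1
    · rw [indicator_of_mem hx, ← h1 hx]
      congr 1
      abel
    · rw [indicator_of_notMem hx, (h2 hx).2, hZ'out x hx, sub_zero]
  have hl1 : Tendsto (fun k => eLpNorm (fun x => Z k x - Z' x) 1 volume) atTop (𝓝 0) := by
    simp only [hcongr]
    exact hconv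
  have hZ'meas : AEStronglyMeasurable Z' volume :=
    (aestronglyMeasurable_indicator_iff hDm).2 (hF'meas.sub hΓ.aestronglyMeasurable)
  obtain ⟨z', hz', h0'⟩ := limit1 G hN
    (fun k => (HW0.hw one_le_two (hP k).hw0).mono_exp one_le_two)
    (fun k => HW0.zero one_le_two hDo (hP k).hw0) hZ'meas hl1
  refine ⟨z', Z', hz', h0', fun x hx => ?_⟩
  rw [hZ'in x hx]
  abel

end Pool.Agent.CG
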