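import Pool.Agent.CG.B.Lq
import Pool.Agent.CG.M.SeqC
import Pool.Agent.CG.M.SeqD

/-!
# CG-M-DirS: the Dirichlet problem with smooth boundary values for the degenerate operator (assembly)
-/

set_option autoImplicit false

namespace Pool.Agent.CG

open MeasureTheory Set Filter Topology
open scoped ContDiff ENNReal

variable {N m : ℕ}

private theorem B01_subset (G : Carnot N m) : G.B 0 1 ⊆ {y | G.di 0 y ≤ 1} :=
  fun y hy => le_of_lt (show G.di 0 y < 1 from hy)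

private theorem bdd_on_B (G : Carnot N m) {E : Type*} [SeminormedAddCommGroup E] {f : Pt N → E}
    (hf : Continuous f) : ∃ T : ℝ, ∀ x ∈ G.B 0 1, ‖f x‖ ≤ T := by
  obtain ⟨T, hT⟩ := (G.isCompact_cB 0 1).exists_bound_of_continuousOn hf.continuousOn
  exact ⟨T, fun x hx => hT x (B01_subset G hx)⟩

private theorem int_on_B (G : Carnot N m) {f : Pt N → ℝ} (hf : Continuous f) :
    IntegrableOn f (G.B 0 1) :=
  (hf.continuousOn.integrableOn_compact (G.isCompact_cB 0 1)).mono_set (B01_subset G)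

theorem dirichlet_smooth (G : Carnot N m) (hN : 0 < N) {a b L : ℝ} (ha0 : 0 ≤ a) (ha : a < 1)
    (hb : 0 ≤ b) (hL : 1 ≤ L) :
    ∃ α : ℝ, 0 < α ∧ α < 1 ∧ ∀ (W : ℝ → ℝ) (A : Hv m → Hv m), Wt a b W → AA W L A →
    ∀ E : ℝ, ∃ C : ℝ, ∀ φ : Pt N → ℝ, ContDiff ℝ ∞ φ →
    ∫ x in G.B 0 1, gg W ‖G.grad φ x‖ ≤ E →
    ∃ (z : Pt N → ℝ) (Z : Pt N → Hv m), HW G 1 univ z Z ∧
      (∀ᵐ x, x ∉ G.B 0 1 → z x = 0 ∧ Z x = 0) ∧
      (∀ ψ : Pt N → ℝ, Test (G.B 0 1) ψ →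
        ∫ x, inner ℝ (A (G.grad φ x + Z x)) (G.grad ψ x) = 0) ∧
      IntegrableOn (fun x => gg W ‖G.grad φ x + Z x‖) (G.B 0 1) ∧
      ∫ x in G.B 0 1, gg W ‖G.grad φ x + Z x‖ ≤ C ∧
      ∃ F' : Pt N → Hv m, (∀ x ∈ G.B 0 (1 / 8), G.grad φ x + Z x = F' x) ∧
        ∀ y ∈ G.B 0 (1 / 8), ∀ z ∈ G.B 0 (1 / 8), ‖F' y - F' z‖ ≤ C * G.di y z ^ α := by
  obtain ⟨c, hc, L', hL', hreg⟩ := exists_reg (m := m) ha0 ha hb hL
  obtain ⟨α, hα, hα1, C0, hC0, hpack⟩ := pack_exists G ha0 ha hb hL'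
  refine ⟨α, hα, hα1, fun W A hW hA E => ?_⟩
  obtain ⟨Ak, hAk, hUk, hunif⟩ := hreg W A hW hA
  set E0 : ℝ := c * (|E| + 1) with hE0
  have hE0p : 0 ≤ E0 := by positivity
  set M : ℝ := max 1 ((C0 * (C0 * E0) / (c * W 1)) ^ (1 / (2 - a))) with hM
  refine ⟨max (C0 * E0 / c) (C0 * M), fun φ hφ hE => ?_⟩
  have hΓc : Continuous (G.grad φ) := (G.smooth_grad hφ).continuous
  obtain ⟨T, hT⟩ := bdd_on_B G hΓc
  have hvol : 0 ≤ volume.real (G.B 0 1) := measureReal_nonneg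
  have hev : ∀ᶠ k : ℕ in atTop, gg W ((k : ℝ) + 1)⁻¹ * volume.real (G.B 0 1) ≤ 1 := by
    have h1 := (gg_inv_tendsto ha0 ha hb hW).mul_const (volume.real (G.B 0 1))
    rw [zero_mul] at h1
    exact h1.eventually (Iic_mem_nhds one_pos)
  have hev2 : ∀ᶠ k : ℕ in atTop, T ≤ (k : ℝ) + 1 := by
    have h1 : Tendsto (fun k : ℕ => (k : ℝ) + 1) atTop atTop :=
      tendsto_atTop_add_const_right _ _ tendsto_natCast_atTop_atTop
    exact h1.eventually (eventually_ge_atTop T)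
  obtain ⟨k0, hk0⟩ := eventually_atTop.1 (hev.and hev2)
  have hEk : ∀ k, k0 ≤ k → ∫ x in G.B 0 1, gg (Wk c W k) ‖G.grad φ x‖ ≤ E0 := by
    intro k hk
    obtain ⟨h1, h2⟩ := hk0 k hk
    have hi1 : IntegrableOn (fun x => gg (Wk c W k) ‖G.grad φ x‖) (G.B 0 1) :=
      int_on_B G ((gg_norm_continuous ha0 ha hb (wk_wt ha0 hb hW hc k)).comp hΓc)
    have hi2 : IntegrableOn (fun x => gg W ‖G.grad φ x‖) (G.B 0 1) :=
      int_on_B G ((gg_norm_continuous ha0 ha hb hW).comp hΓc)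
    have hfin : volume (G.B 0 1) ≠ ⊤ := (G.vol_B_lt_top 0 1).ne
    have hi3 : IntegrableOn (fun _ : Pt N => gg W ((k : ℝ) + 1)⁻¹) (G.B 0 1) :=
      integrableOn_const hfin
    calc ∫ x in G.B 0 1, gg (Wk c W k) ‖G.grad φ x‖
        ≤ ∫ x in G.B 0 1, c * (gg W ‖G.grad φ x‖ + gg W ((k : ℝ) + 1)⁻¹) := by
          refine setIntegral_mono_on hi1 ((hi2.add hi3).const_mul c) (G.isOpen_B 0 1).measurableSet
            fun x hx => ?_
          exact gg_wk_le ha0 ha hb hW hc k (norm_nonneg _) ((hT x hx).trans h2)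
      _ = c * (∫ x in G.B 0 1, gg W ‖G.grad φ x‖ + gg W ((k : ℝ) + 1)⁻¹) := by
          rw [integral_const_mul]
      _ = c * ((∫ x in G.B 0 1, gg W ‖G.grad φ x‖) +
            gg W ((k : ℝ) + 1)⁻¹ * volume.real (G.B 0 1)) := by
          rw [integral_add hi2 hi3, setIntegral_const, smul_eq_mul, mul_comm (volume.real _)]
      _ ≤ E0 := by
          rw [hE0]
          have h3 := le_abs_self E
          gcongr
          exact hE.trans h3
  have hkap : ∀ k : ℕ, k0 ≤ k0 + k := fun k => Nat.le_add_right _ _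
  have hPk : ∀ k : ℕ, ∃ (z : Pt N → ℝ) (Z F : Pt N → Hv m),
      Pack G (Wk c W (k0 + k)) (Ak (k0 + k)) (G.grad φ) C0 α (C0 * E0) z Z F := by
    intro k
    obtain ⟨lam, Lam, hlam, hU⟩ := hUk (k0 + k)
    exact hpack (Wk c W (k0 + k)) (Ak (k0 + k)) lam Lam (wk_wt ha0 hb hW hc _) (hAk (k0 + k)) hlam hU
      φ hφ E0 (hEk _ (hkap k))
  choose zk Zk Fk hP using hPk
  obtain ⟨s, hs, F', hF'⟩ := seq_diag (κ := fun k => k0 + k) ha0 ha hb hW hc hα hC0 hP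
  have hP' : ∀ k, Pack G (Wk c W (k0 + s k)) (Ak (k0 + s k)) (G.grad φ) C0 α (C0 * E0)
      (zk (s k)) (Zk (s k)) (Fk (s k)) := fun k => hP (s k)
  have hκ : Tendsto (fun k => k0 + s k) atTop atTop :=
    tendsto_atTop_mono (fun k => Nat.le_add_left (s k) k0) hs.tendsto_atTop
  obtain ⟨z, Z, hzZ, hz0, hFZ⟩ := seq_lim1 (κ := fun k => k0 + s k) hN ha0 ha hb hW hc hΓc hP' hF'
  have hAc : Continuous A := AA.continuous ha hb (by linarith) hW hA
  have hAkc : ∀ k, Continuous (Ak k) := fun k =>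
    AA.continuous ha hb (by linarith) (wk_wt ha0 hb hW hc k) (hAk k)
  have heq := seq_eqn (G := G) (A := fun k => Ak (k0 + s k)) (A' := A) (F := fun k => Fk (s k))
    (F' := F') (fun k => hAkc _) hAc
    (fun M u hu => hκ.eventually (hunif M u hu)) (fun k => (hP (s k)).cont)
    (fun K hK hKD => by
      obtain ⟨M', hM', h1⟩ := seq_bdd (κ := fun k => k0 + k) ha0 ha hb hW hc hP hK hKD
      exact ⟨M', hM', fun k => h1 (s k)⟩)
    (fun k => (hP (s k)).eqn) hF'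
  obtain ⟨hI, hEn⟩ := seq_energy (G := G) ha0 ha hb hW hc (by positivity : 0 ≤ C0 * E0) hκ
    (fun k => (hP (s k)).cont) (fun k => (hP (s k)).int) (fun k => (hP (s k)).energy) hF'
  have hmeas : MeasurableSet (G.B 0 1) := (G.isOpen_B 0 1).measurableSet
  have hsub : G.B 0 (1 / 8) ⊆ G.B 0 1 := by
    intro y hy
    exact lt_trans (show G.di 0 y < 1 / 8 from hy) (by norm_num)
  refine ⟨z, Z, hzZ, hz0, fun ψ hψ => ?_, ?_, ?_, F', fun x hx => hFZ x (hsub hx), ?_⟩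
  · rw [← heq ψ hψ]
    refine integral_congr_ae (Eventually.of_forall fun x => ?_)
    by_cases hx : x ∈ G.B 0 1
    · change inner ℝ (A (G.grad φ x + Z x)) (G.grad ψ x) = _
      rw [hFZ x hx]
    · change inner ℝ (A (G.grad φ x + Z x)) (G.grad ψ x) = inner ℝ (A (F' x)) (G.grad ψ x)
      rw [hψ.grad_eq_zero hx, inner_zero_right, inner_zero_right]
  · refine hI.congr_fun (fun x hx => ?_) hmeas
    change gg W ‖F' x‖ = gg W ‖G.grad φ x + Z x‖
    rw [hFZ x hx]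
  · refine le_trans (le_of_eq ?_) (hEn.trans (le_max_left _ _))
    refine setIntegral_congr_fun hmeas fun x hx => ?_
    change gg W ‖G.grad φ x + Z x‖ = gg W ‖F' x‖
    rw [hFZ x hx]
  · have hhol := seq_hol (κ := fun k => k0 + k) ha0 ha hb hW hc hP
    intro y hy x hx
    have h1 : Tendsto (fun k => ‖Fk (s k) y - Fk (s k) x‖) atTop (𝓝 ‖F' y - F' x‖) :=
      ((hF' y (hsub hy)).sub (hF' x (hsub hx))).norm
    have h2 : ‖F' y - F' x‖ ≤ C0 * M * G.di y x ^ α :=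
      le_of_tendsto h1 (Eventually.of_forall fun k => hhol (s k) y hy x hx)
    refine h2.trans ?_
    have h3 : 0 ≤ G.di y x ^ α := Real.rpow_nonneg (G.di_nonneg _ _) _
    exact mul_le_mul_of_nonneg_right (le_max_right _ _) h3

end Pool.Agent.CG
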