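import Pool.Agent.CG.M.Energy0

/-!
# CG-M-Energy: the energy estimate for the regularised Dirichlet problem

PLAN.  Put `D = B x R`, `Fx = Γ + Z`, `H y = A (Fx y) - A 0`.  `‖H‖ ≤ Lam ‖Fx‖` (`UU.lip`), so `H ∈ L^2(D)` (measurability: `A` is
continuous: Lipschitz).  The equation for `H`: `∫ ⟨A 0, grad φ⟩ = 0` for test functions (component by component, `G.integral_X`,
`EuclideanSpace` inner product as a finite sum; `grad φ` is continuous with compact support), so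
`∫ ⟨H, grad φ⟩ = 0` (the function `y ↦ ⟨A (Fx y), grad φ y⟩` is supported in `tsupport φ ⊆ D`, where it is integrable).
`HW0.test` with `p = p' = 2` gives `∫_D ⟨H, Z⟩ = 0`, hence `∫_D ⟨H, Fx⟩ = ∫_D ⟨H, Γ⟩`.
Left side: `gg W ‖Fx y‖ ≤ ⟨H y, Fx y⟩` (`AA.mono` with `ζ = 0`).  Right side: `‖H y‖ ≤ L W(‖Fx‖) ‖Fx‖` (`AA.lip`), and
`gg_young` with `θ = 1/(2L)`: `⟨H, Γ⟩ ≤ L W(‖Fx‖)‖Fx‖‖Γ‖ ≤ (1/2) gg W ‖Fx‖ + L C gg W ‖Γ‖`.
Integrability: `gg W ‖ξ‖ ≤ ⟨A ξ - A 0, ξ⟩ ≤ Lam ‖ξ‖^2`, so `gg W ‖Fx‖`, `gg W ‖Γ‖` are integrable on `D`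
(measurability from `gg_norm_continuous`).  Constant `2 L C`.
-/

set_option autoImplicit false

namespace Pool.Agent.CG

open MeasureTheory Set Filter Topology
open scoped ContDiff ENNReal

variable {N m : ℕ}

private theorem en_cont {lam Lam : ℝ} {B : Hv m → Hv m} (hB : UU lam Lam B) : Continuous B := by
  have h : LipschitzWith (Real.toNNReal Lam) B := by
    refine LipschitzWith.of_dist_le_mul fun x y => ?_
    rw [dist_eq_norm, dist_eq_norm]
    refine (hB.lip x y).trans ?_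
    exact mul_le_mul_of_nonneg_right (Real.le_coe_toNNReal Lam) (norm_nonneg _)
  exact h.continuous

private theorem en_inner {μ : Measure (Pt N)} {f g : Pt N → Hv m} (hf : MemLp f 2 μ)
    (hg : MemLp g 2 μ) : Integrable (fun y => inner ℝ (f y) (g y)) μ := by
  have h1 : Integrable (fun y => ‖f y‖ * ‖g y‖) μ := hf.norm.integrable_mul hg.norm
  refine h1.mono' (hf.1.inner hg.1) (Filter.Eventually.of_forall fun y => ?_)
  exact norm_inner_le_norm _ _

theorem energy (G : Carnot N m) {a b L : ℝ} (ha0 : 0 ≤ a) (ha : a < 1) (hb : 0 ≤ b) (hL : 1 ≤ L) :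
    ∃ C : ℝ, 0 < C ∧ ∀ (W : ℝ → ℝ) (A : Hv m → Hv m) (lam Lam : ℝ), Wt a b W → AA W L A →
    0 < lam → UU lam Lam A → ∀ (x : Pt N) (R : ℝ), 0 < R → ∀ (z : Pt N → ℝ) (Γ Z : Pt N → Hv m),
    MemLp Γ 2 (volume.restrict (G.B x R)) → HW0 G 2 (G.B x R) z Z →
    (∀ φ : Pt N → ℝ, Test (G.B x R) φ → ∫ y, inner ℝ (A (Γ y + Z y)) (G.grad φ y) = 0) →
    IntegrableOn (fun y => gg W ‖Γ y + Z y‖) (G.B x R) ∧
      ∫ y in G.B x R, gg W ‖Γ y + Z y‖ ≤ C * ∫ y in G.B x R, gg W ‖Γ y‖ := by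
  have hL0 : 0 < L := by linarith
  obtain ⟨C, hC, hy⟩ := gg_young ha0 ha hb (θ := 1 / (2 * L)) (by positivity)
  refine ⟨2 * L * C, by positivity, ?_⟩
  intro W A lam Lam hW hA hlam hU x R hR z Γ Z hΓ hZ heq
  set μ := volume.restrict (G.B x R) with hμ
  set Fx : Pt N → Hv m := fun y => Γ y + Z y with hFx
  set H : Pt N → Hv m := fun y => A (Fx y) - A 0 with hH
  have hAc := en_cont hU
  have hZm : MemLp Z 2 μ := hZ.memZ.restrict _
  have hF : MemLp Fx 2 μ := hΓ.add hZm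
  have hHm : MemLp H 2 μ := by
    refine MemLp.of_le_mul (g := Fx) (c := Lam) hF ?_ (Filter.Eventually.of_forall fun y => ?_)
    · exact (hAc.comp_aestronglyMeasurable hF.1).sub aestronglyMeasurable_const
    · have h := hU.lip (Fx y) 0
      rwa [sub_zero] at h
  have hgZ : ∫ y in G.B x R, inner ℝ (H y) (Z y) = 0 := by
    refine HW0.test (p := 2) (p' := 2) (by norm_num) inferInstance (G.isOpen_B x R) hZ hHm ?_
    intro φ hφ
    have hgc : Continuous (G.grad φ) := (G.smooth_grad hφ.smooth).continuous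
    have hgs : HasCompactSupport (G.grad φ) :=
      HasCompactSupport.intro hφ.cpt fun _ hx => (grad_zero_of_notMem hx).2
    have hg : MemLp (G.grad φ) 2 μ := (hgc.memLp_of_hasCompactSupport hgs).restrict _
    have i1 : Integrable (fun y => inner ℝ (H y) (G.grad φ y)) := by
      refine (integrableOn_iff_integrable_of_support_subset (s := G.B x R) ?_).1
        (en_inner hHm hg)
      intro y hy
      by_contra hy'
      apply hy
      have h1 : G.grad φ y = 0 := (grad_zero_of_notMem fun h => hy' (hφ.sub h)).2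
      simp only [h1, inner_zero_right]
    have i2 : Integrable (fun y => inner ℝ (A 0) (G.grad φ y)) := by
      refine Continuous.integrable_of_hasCompactSupport (by fun_prop) ?_
      exact HasCompactSupport.intro hφ.cpt fun y hx => by
        rw [(grad_zero_of_notMem hx).2, inner_zero_right]
    have e1 : ∀ y, inner ℝ (A (Γ y + Z y)) (G.grad φ y) =
        inner ℝ (H y) (G.grad φ y) + inner ℝ (A 0) (G.grad φ y) := by
      intro y
      rw [← inner_add_left]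
      simp only [hH, hFx, sub_add_cancel]
    have e2 := heq φ hφ
    simp only [e1] at e2
    rw [integral_add i1 i2, int_const_grad G (A 0) hφ.smooth hφ.cpt, add_zero] at e2
    exact e2
  have jF : Integrable (fun y => inner ℝ (H y) (Fx y)) μ := en_inner hHm hF
  have jG : Integrable (fun y => inner ℝ (H y) (Γ y)) μ := en_inner hHm hΓ
  have jZ : Integrable (fun y => inner ℝ (H y) (Z y)) μ := en_inner hHm hZm
  have e3 : ∫ y, inner ℝ (H y) (Fx y) ∂μ = ∫ y, inner ℝ (H y) (Γ y) ∂μ := by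
    have h1 : ∀ y, inner ℝ (H y) (Fx y) = inner ℝ (H y) (Γ y) + inner ℝ (H y) (Z y) :=
      fun y => inner_add_right _ _ _
    simp only [h1]
    rw [integral_add jG jZ]
    have h2 : ∫ y, inner ℝ (H y) (Z y) ∂μ = 0 := hgZ
    rw [h2, add_zero]
  have hgi : ∀ f : Pt N → Hv m, MemLp f 2 μ → Integrable (fun y => gg W ‖f y‖) μ := by
    intro f hf
    have h1 : Integrable (fun y => Lam * ‖f y‖ ^ 2) μ :=
      (hf.integrable_norm_pow (by norm_num)).const_mul Lam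
    refine h1.mono' ?_ (Filter.Eventually.of_forall fun y => ?_)
    · exact (gg_norm_continuous ha0 ha hb hW).comp_aestronglyMeasurable hf.1
    · rw [Real.norm_of_nonneg (gg_nonneg hW (norm_nonneg _))]
      exact gg_le_sq hA hU (f y)
  have k1 := hgi Fx hF
  have k2 := hgi Γ hΓ
  refine ⟨k1, ?_⟩
  have p1 : ∀ y, gg W ‖Fx y‖ ≤ inner ℝ (H y) (Fx y) := by
    intro y
    have h := hA.mono (Fx y) 0
    rw [norm_zero, max_eq_left (norm_nonneg _), sub_zero] at h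
    rw [gg, mul_comm]
    exact h
  have p2 : ∀ y, inner ℝ (H y) (Γ y) ≤ 1 / 2 * gg W ‖Fx y‖ + L * C * gg W ‖Γ y‖ := by
    intro y
    have h := hA.lip (Fx y) 0
    rw [norm_zero, max_eq_left (norm_nonneg _), sub_zero] at h
    have h1 : inner ℝ (H y) (Γ y) ≤ ‖H y‖ * ‖Γ y‖ := real_inner_le_norm _ _
    have h2 : ‖H y‖ * ‖Γ y‖ ≤ L * W ‖Fx y‖ * ‖Fx y‖ * ‖Γ y‖ :=
      mul_le_mul_of_nonneg_right h (norm_nonneg _)
    have h3 := hy W hW ‖Γ y‖ ‖Fx y‖ (norm_nonneg _) (norm_nonneg _)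
    have h4 := mul_le_mul_of_nonneg_left h3 hL0.le
    have h5 : L * (1 / (2 * L) * gg W ‖Fx y‖ + C * gg W ‖Γ y‖) =
        1 / 2 * gg W ‖Fx y‖ + L * C * gg W ‖Γ y‖ := by
      field_simp
    rw [h5] at h4
    calc inner ℝ (H y) (Γ y) ≤ L * W ‖Fx y‖ * ‖Fx y‖ * ‖Γ y‖ := h1.trans h2
      _ = L * (W ‖Fx y‖ * ‖Fx y‖ * ‖Γ y‖) := by ring
      _ ≤ _ := h4
  have q1 : ∫ y, gg W ‖Fx y‖ ∂μ ≤ ∫ y, inner ℝ (H y) (Fx y) ∂μ := integral_mono k1 jF p1
  have q2 : ∫ y, inner ℝ (H y) (Γ y) ∂μ ≤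
      ∫ y, (1 / 2 * gg W ‖Fx y‖ + L * C * gg W ‖Γ y‖) ∂μ :=
    integral_mono jG ((k1.const_mul _).add (k2.const_mul _)) p2
  rw [integral_add (k1.const_mul _) (k2.const_mul _), integral_const_mul,
    integral_const_mul] at q2
  rw [e3] at q1
  have q3 := q1.trans q2
  change ∫ y, gg W ‖Fx y‖ ∂μ ≤ 2 * L * C * ∫ y, gg W ‖Γ y‖ ∂μ
  nlinarith [q3]

end Pool.Agent.CG
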