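import Pool.Agent.CG.M.Gg
import Pool.Agent.CG.A.IntX

/-!
# CG-M-Energy0: two small facts

PLAN.  `gg_le_sq`: `AA.mono` with `ζ = 0` gives `gg W ‖ξ‖ ≤ ⟨A ξ - A 0, ξ⟩ ≤ ‖A ξ - A 0‖ ‖ξ‖ ≤ Lam ‖ξ‖^2` (`UU.lip`).
`int_const_grad`: the inner product in `EuclideanSpace ℝ (Fin m)` is `∑ k, v k * X k φ y` (up to order of the factors); `integral_finset_sum`
(each `X k φ` is continuous with compact support: `G.smooth_X`, `G.test_X` with `Ω = univ`, so integrable), `integral_const_mul`, `G.integral_X`.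
-/

set_option autoImplicit false

namespace Pool.Agent.CG

open MeasureTheory Set Filter Topology
open scoped ContDiff ENNReal

variable {N m : ℕ}

/-- `gg W ‖ξ‖ ≤ Lam ‖ξ‖^2` for structure functions which are `Lam`-Lipschitz. -/
theorem gg_le_sq {L lam Lam : ℝ} {W : ℝ → ℝ} {A : Hv m → Hv m} (hA : AA W L A) (hU : UU lam Lam A)
    (ξ : Hv m) : gg W ‖ξ‖ ≤ Lam * ‖ξ‖ ^ 2 := by
  have h1 := hA.mono ξ 0
  have h2 := hU.lip ξ 0
  rw [norm_zero, sub_zero, max_eq_left (norm_nonneg ξ)] at h1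
  rw [sub_zero] at h2
  have h3 : inner ℝ (A ξ - A 0) ξ ≤ ‖A ξ - A 0‖ * ‖ξ‖ := real_inner_le_norm _ _
  have h4 : ‖A ξ - A 0‖ * ‖ξ‖ ≤ Lam * ‖ξ‖ * ‖ξ‖ := mul_le_mul_of_nonneg_right h2 (norm_nonneg ξ)
  unfold gg
  nlinarith

/-- Constants integrate to zero against horizontal gradients. -/
theorem int_const_grad (G : Carnot N m) (v : Hv m) {φ : Pt N → ℝ} (h : ContDiff ℝ ∞ φ)
    (hc : HasCompactSupport φ) : ∫ y, inner ℝ v (G.grad φ y) = 0 := by
  have h1 : ∀ y, inner ℝ v (G.grad φ y) = ∑ k, v k * G.X k φ y := by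
    intro y
    rw [PiLp.inner_apply]
    refine Finset.sum_congr rfl fun k _ => ?_
    simp [Carnot.grad, mul_comm]
  have ht : Test (univ : Set (Pt N)) φ := ⟨h, hc, subset_univ _⟩
  simp_rw [h1]
  rw [integral_finset_sum]
  · refine Finset.sum_eq_zero fun k _ => ?_
    rw [integral_const_mul, G.integral_X (h.of_le (by norm_cast)) hc k, mul_zero]
  · intro k _
    have h2 := G.test_X ht k
    exact (h2.smooth.continuous.integrable_of_hasCompactSupport h2.cpt).const_mul _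

end Pool.Agent.CG
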