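import Pool.Agent.CG.Cls

/-!
# CG-M-Gg: the energy density `gg W`

PLAN.  `gg_norm_continuous`: at `t > 0`: for `s ≤ t`: `(t/s)^(-a) W s ≤ W t ≤ (t/s)^b W s` (`Wt.lo`, `Wt.hi`), so
`W s → W t` as `s → t` from both sides (the factors tend to 1); at `0`: `gg W t ≤ t^(2-a) * gg W 1` for
`0 < t ≤ 1` (`gg_mono` with `s = t`, `t = 1`), `gg W 0 = 0`.  Compose with the norm.
-/

set_option autoImplicit false

namespace Pool.Agent.CG

open MeasureTheory Set Filter Topology
open scoped ContDiff ENNReal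

variable {m : ℕ} {a b : ℝ} {W : ℝ → ℝ}

theorem gg_zero (W : ℝ → ℝ) : gg W 0 = 0 := by
  simp [gg]

theorem gg_nonneg (hW : Wt a b W) {t : ℝ} (ht : 0 ≤ t) : 0 ≤ gg W t := by
  rcases ht.eq_or_lt with h | h
  · rw [← h, gg_zero]
  · have := hW.pos t h
    unfold gg
    positivity

private theorem wt_continuousAt (hW : Wt a b W) {t : ℝ} (ht : 0 < t) : ContinuousAt W t := by
  have hWt := hW.pos t ht
  have hb1 : ∀ s, 0 < s → min ((t / s) ^ (-b)) ((s / t) ^ (-a)) * W t ≤ W s := by
    intro s hs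
    rcases le_total s t with h | h
    · have h1 := hW.hi s t hs h
      have hts : 0 < t / s := by positivity
      have h2 : (t / s) ^ (-b) * W t ≤ W s := by
        rw [Real.rpow_neg hts.le, inv_mul_le_iff₀ (Real.rpow_pos_of_pos hts b)]
        exact h1
      exact (mul_le_mul_of_nonneg_right (min_le_left _ _) hWt.le).trans h2
    · have h1 := hW.lo t s ht h
      exact (mul_le_mul_of_nonneg_right (min_le_right _ _) hWt.le).trans h1
  have hb2 : ∀ s, 0 < s → W s ≤ max ((t / s) ^ a) ((s / t) ^ b) * W t := by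
    intro s hs
    rcases le_total s t with h | h
    · have h1 := hW.lo s t hs h
      have hts : 0 < t / s := by positivity
      have h2 : W s ≤ (t / s) ^ a * W t := by
        rw [Real.rpow_neg hts.le, inv_mul_le_iff₀ (Real.rpow_pos_of_pos hts a)] at h1
        exact h1
      exact h2.trans (mul_le_mul_of_nonneg_right (le_max_left _ _) hWt.le)
    · have h1 := hW.hi t s ht h
      exact h1.trans (mul_le_mul_of_nonneg_right (le_max_right _ _) hWt.le)
  have hd1 : ContinuousAt (fun s : ℝ => t / s) t := continuousAt_const.div continuousAt_id ht.ne'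
  have hd2 : ContinuousAt (fun s : ℝ => s / t) t := continuousAt_id.div_const t
  have hr : ∀ c : ℝ, ContinuousAt (fun s : ℝ => (t / s) ^ c) t := fun c =>
    hd1.rpow_const (Or.inl (by simp [ht.ne']))
  have hr' : ∀ c : ℝ, ContinuousAt (fun s : ℝ => (s / t) ^ c) t := fun c =>
    hd2.rpow_const (Or.inl (by simp [ht.ne']))
  have hl : Tendsto (fun s => min ((t / s) ^ (-b)) ((s / t) ^ (-a)) * W t) (𝓝 t) (𝓝 (W t)) := by
    have h1 := Tendsto.mul_const (W t) (Tendsto.min (hr (-b)) (hr' (-a)))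
    simpa [div_self ht.ne'] using h1
  have hu : Tendsto (fun s => max ((t / s) ^ a) ((s / t) ^ b) * W t) (𝓝 t) (𝓝 (W t)) := by
    have h1 := Tendsto.mul_const (W t) (Tendsto.max (hr a) (hr' b))
    simpa [div_self ht.ne'] using h1
  refine tendsto_of_tendsto_of_tendsto_of_le_of_le' hl hu ?_ ?_
  · filter_upwards [lt_mem_nhds ht] with s hs using hb1 s hs
  · filter_upwards [lt_mem_nhds ht] with s hs using hb2 s hs

theorem gg_continuousOn (ha0 : 0 ≤ a) (ha : a < 1) (hb : 0 ≤ b) (hW : Wt a b W) :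
    ContinuousOn (gg W) (Ici 0) := by
  intro t ht
  rcases (show (0 : ℝ) ≤ t from ht).eq_or_lt with h | h
  · subst h
    have h2a : 0 < 2 - a := by linarith
    rw [ContinuousWithinAt, gg_zero]
    have hu : Tendsto (fun s : ℝ => s ^ (2 - a) * gg W 1) (𝓝[Ici 0] 0) (𝓝 0) := by
      have h1 : Continuous (fun s : ℝ => s ^ (2 - a) * gg W 1) :=
        (Real.continuous_rpow_const h2a.le).mul continuous_const
      have h3 := (h1.tendsto 0).mono_left (nhdsWithin_le_nhds (s := Ici (0 : ℝ)))
      simpa [Real.zero_rpow h2a.ne'] using h3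
    refine tendsto_of_tendsto_of_tendsto_of_le_of_le' tendsto_const_nhds hu ?_ ?_
    · filter_upwards [self_mem_nhdsWithin] with s hs using gg_nonneg hW hs
    · have h1 : Iio (1 : ℝ) ∈ 𝓝[Ici (0 : ℝ)] 0 := mem_nhdsWithin_of_mem_nhds (Iio_mem_nhds one_pos)
      filter_upwards [self_mem_nhdsWithin, h1] with s hs hs1
      rcases (show (0 : ℝ) ≤ s from hs).eq_or_lt with h0 | h0
      · rw [← h0, gg_zero, Real.zero_rpow h2a.ne', zero_mul]
      · have h4 := gg_mono ha hW h0 (show s ≤ 1 from (show s < 1 from hs1).le)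
        rw [one_div, Real.inv_rpow h0.le, inv_mul_le_iff₀ (Real.rpow_pos_of_pos h0 _)] at h4
        exact h4
  · refine ContinuousAt.continuousWithinAt ?_
    exact (continuousAt_id.pow 2).mul (wt_continuousAt hW h)

theorem gg_norm_continuous (ha0 : 0 ≤ a) (ha : a < 1) (hb : 0 ≤ b) (hW : Wt a b W) :
    Continuous (fun ξ : Hv m => gg W ‖ξ‖) :=
  (gg_continuousOn ha0 ha hb hW).comp_continuous continuous_norm (fun ξ => norm_nonneg ξ)

end Pool.Agent.CG
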