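import Pool.Agent.CG.Geo

/-!
# CG-M-GlueR: gluing of continuous representatives

PLAN.  `eq_of_ae_open`: `Measure.eqOn_open_of_ae_eq` (turn the hypothesis into `ae (volume.restrict U)` with `ae_restrict_iff'`).
`glue_rep`: for `y ∈ D` let `f y`, `U y` be as in the hypothesis (choose), `F' y := f y y`.  For `z ∈ U y`: `f z` and `f y` are continuous on the open
set `U z ∩ U y ∋ z` and a.e. equal there, so `f z z = f y z` (`eq_of_ae_open`); hence `F' = f y` on `U y` and `F'` is continuous on `D`.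
A.e. equality: countably many `U y` cover `D` (`TopologicalSpace.isOpen_iUnion_countable`, or `countable_cover_nhdsWithin`).
-/

set_option autoImplicit false

namespace Pool.Agent.CG

open MeasureTheory Set Filter Topology
open scoped ContDiff ENNReal

variable {N m : ℕ}

theorem eq_of_ae_open {U : Set (Pt N)} (hU : IsOpen U) {f g : Pt N → Hv m} (hf : ContinuousOn f U)
    (hg : ContinuousOn g U) (h : ∀ᵐ x, x ∈ U → f x = g x) : ∀ x ∈ U, f x = g x := by
  have h2 : f =ᵐ[volume.restrict U] g := by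
    rw [Filter.EventuallyEq, ae_restrict_iff' hU.measurableSet]
    exact h
  exact Measure.eqOn_open_of_ae_eq h2 hU hf hg

theorem glue_rep {D : Set (Pt N)} (F : Pt N → Hv m)
    (h : ∀ y ∈ D, ∃ U : Set (Pt N), IsOpen U ∧ y ∈ U ∧ U ⊆ D ∧ ∃ f : Pt N → Hv m,
      ContinuousOn f U ∧ ∀ᵐ x, x ∈ U → F x = f x) :
    ∃ F' : Pt N → Hv m, ContinuousOn F' D ∧ ∀ᵐ x, x ∈ D → F x = F' x := by
  classical
  choose U hUo hyU hUD f hfc hfe using h
  set F' : Pt N → Hv m := fun y => if hy : y ∈ D then f y hy y else 0 with hF'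
  have key : ∀ (y : Pt N) (hy : y ∈ D), ∀ z ∈ U y hy, F' z = f y hy z := by
    intro y hy z hz
    have hzD : z ∈ D := hUD y hy hz
    have e1 : F' z = f z hzD z := by
      simp only [hF']
      rw [dif_pos hzD]
    rw [e1]
    have hop : IsOpen (U z hzD ∩ U y hy) := (hUo z hzD).inter (hUo y hy)
    refine eq_of_ae_open hop ((hfc z hzD).mono inter_subset_left)
      ((hfc y hy).mono inter_subset_right) ?_ z ⟨hyU z hzD, hz⟩
    filter_upwards [hfe z hzD, hfe y hy] with x hx1 hx2 hx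
    rw [← hx1 hx.1, ← hx2 hx.2]
  refine ⟨F', ?_, ?_⟩
  · intro y hy
    have hc : ContinuousAt (f y hy) y := (hfc y hy).continuousAt ((hUo y hy).mem_nhds (hyU y hy))
    have hev : F' =ᶠ[𝓝 y] f y hy := by
      filter_upwards [(hUo y hy).mem_nhds (hyU y hy)] with z hz
      exact key y hy z hz
    exact (hc.congr hev.symm).continuousWithinAt
  · have hcov : ∃ T : Set {y // y ∈ D}, T.Countable ∧
        ⋃ i ∈ T, U i.1 i.2 = ⋃ i : {y // y ∈ D}, U i.1 i.2 :=
      TopologicalSpace.isOpen_iUnion_countable (fun i : {y // y ∈ D} => U i.1 i.2)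
        (fun i => hUo i.1 i.2)
    obtain ⟨T, hT, hTe⟩ := hcov
    have hall : ∀ᵐ x, ∀ i ∈ T, x ∈ U i.1 i.2 → F x = f i.1 i.2 x := by
      rw [ae_ball_iff hT]
      intro i _
      exact hfe i.1 i.2
    filter_upwards [hall] with x hx hxD
    have hmem : x ∈ ⋃ i : {y // y ∈ D}, U i.1 i.2 := mem_iUnion.2 ⟨⟨x, hxD⟩, hyU x hxD⟩
    rw [← hTe] at hmem
    obtain ⟨i, hi, hxi⟩ := mem_iUnion₂.1 hmem
    rw [hx i hi hxi]
    exact (key i.1 i.2 x hxi).symm

end Pool.Agent.CG
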