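import Pool.Agent.CG.M.Trunc
import Pool.Agent.CG.M.DilLp

/-!
# CG-M-Grad0: gradients of functions vanishing off the unit ball are limits of gradients of test functions

PLAN.  `grad0`: given `ε > 0`.  (1) `M` large: `‖1_{-M < z ≤ M} Z - Z‖_p ≤ ε` (dominated convergence: `tendsto` of `∫ ‖·‖^p`, or `eLpNorm` of the indicator of
`{|z| ≥ M}`, e.g. `MemLp.eLpNorm_indicator_le` / `tendsto_eLpNorm...`).  (2) with `zM`, `ZM` the truncation: for `r > 1` the pair
`(zM ∘ del r, r • ZM ∘ del r)` is in `HW G p univ` (`HW.del`; the preimage of `univ` is `univ`), vanishes a.e. off the compact set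
`K = {di 0 y ≤ 1/r} ⊆ B 0 1` (`del r x ∈ B 0 1 ↔ x ∈ B 0 (1/r)`: `G.preimage_del_B` or `G.ell_del`; preimages of null sets under `del r` are null) and
`‖r • ZM ∘ del r - ZM‖_p ≤ (r - 1) ‖ZM ∘ del r‖_p + ‖ZM ∘ del r - ZM‖_p → 0` as `r → 1` (`dil_lp`).  Choose `r`.
(3) redefine the pair to be `0` off `K` everywhere (`HW.congr` on `univ`), `HW.approx` with `Ω = B 0 1` (use `HW.mono` to `B 0 1`) gives test functions on
`B 0 1` with gradients converging in `L^p(volume)`; choose one.  Conclude with `ε = 1/(n+1)` and choice.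
-/

set_option autoImplicit false

namespace Pool.Agent.CG

open MeasureTheory Set Filter Topology
open scoped ContDiff ENNReal

variable {N m : ℕ}

private theorem g0_meas {F : Type} [NormedAddCommGroup F] {q : ℝ≥0∞} {f : Pt N → F}
    (h : LqLoc q univ f) : AEStronglyMeasurable f (volume : Measure (Pt N)) := by
  have h1 : AEStronglyMeasurable f
      ((volume : Measure (Pt N)).restrict (⋃ n, compactCovering (Pt N) n)) := by
    rw [aestronglyMeasurable_iUnion_iff]
    intro n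
    exact (h _ (isCompact_compactCovering _ n) (subset_univ _)).1
  rwa [iUnion_compactCovering, Measure.restrict_univ] at h1

private theorem g0_trunc {p : ℝ≥0∞} (hp : 1 ≤ p) (hp' : p ≠ ⊤)
    {Z : Pt N → Hv m} (hZ : MemLp Z p volume) {f : ℕ → Pt N → Hv m}
    (hm : ∀ n : ℕ, AEStronglyMeasurable (f n) (volume : Measure (Pt N)))
    (hf : ∀ n x, f n x = Z x ∨ f n x = 0)
    (hf2 : ∀ x, ∀ᶠ n in atTop, f n x = Z x) :
    Tendsto (fun n : ℕ => eLpNorm (fun x => f n x - Z x) p (volume : Measure (Pt N)))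
      atTop (𝓝 0) := by
  have hp0 : p ≠ 0 := (lt_of_lt_of_le zero_lt_one hp).ne'
  have hpr : 0 < p.toReal := ENNReal.toReal_pos hp0 hp'
  simp only [eLpNorm_eq_lintegral_rpow_enorm_toReal hp0 hp']
  have h1 : Tendsto (fun n : ℕ => ∫⁻ x, ‖f n x - Z x‖ₑ ^ p.toReal) atTop
      (𝓝 (∫⁻ x : Pt N, 0)) := by
    refine tendsto_lintegral_of_dominated_convergence' (fun x => ‖Z x‖ₑ ^ p.toReal) ?_ ?_ ?_ ?_
    · intro n
      exact ((hm n).sub hZ.1).enorm.pow_const _
    · intro n
      refine Eventually.of_forall fun x => ?_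
      refine ENNReal.rpow_le_rpow ?_ hpr.le
      rcases hf n x with h | h
      · simp [h]
      · simp [h]
    · exact (lintegral_rpow_enorm_lt_top_of_eLpNorm_lt_top hp0 hp' hZ.2).ne
    · refine Eventually.of_forall fun x => ?_
      refine tendsto_const_nhds.congr' ?_
      filter_upwards [hf2 x] with n hn
      simp [hn, hpr]
  rw [lintegral_zero] at h1
  have h2 := h1.ennrpow_const (1 / p.toReal)
  rwa [ENNReal.zero_rpow_of_pos (by positivity)] at h2

private theorem g0_del_ae (G : Carnot N m) {r : ℝ} (hr : 0 < r) {P : Pt N → Prop}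
    (h : ∀ᵐ x, P x) : ∀ᵐ x, P (G.del r x) := by
  have h1 := G.volume_del_preimage hr {x | ¬ P x}
  rw [ae_iff] at h ⊢
  rw [h, MulZeroClass.mul_zero] at h1
  exact h1

private theorem g0_key (G : Carnot N m) {p : ℝ≥0∞} (hp : 1 ≤ p) (hp' : p ≠ ⊤) {z : Pt N → ℝ}
    {Z : Pt N → Hv m} (h : HW G p univ z Z) (h0 : ∀ᵐ x, x ∉ G.B 0 1 → z x = 0 ∧ Z x = 0)
    (hZ : MemLp Z p volume) {ε : ℝ≥0∞} (hε : 0 < ε) :
    ∃ ψ : Pt N → ℝ, Test (G.B 0 1) ψ ∧
      AEStronglyMeasurable (G.grad ψ) (volume : Measure (Pt N)) ∧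
      eLpNorm (fun x => G.grad ψ x - Z x) p volume ≤ ε := by
  classical
  -- choice of the dilation
  have hlim : Tendsto (fun r : ℝ => ENNReal.ofReal r * eLpNorm (fun x => Z (G.del r x) - Z x) p volume
      + ENNReal.ofReal (r - 1) * eLpNorm Z p volume) (𝓝[>] 1) (𝓝 0) := by
    have h1 : Tendsto (fun r : ℝ => ENNReal.ofReal r) (𝓝[>] 1) (𝓝 (ENNReal.ofReal 1)) :=
      (ENNReal.continuous_ofReal.tendsto 1).mono_left nhdsWithin_le_nhds
    have h2 : Tendsto (fun r : ℝ => ENNReal.ofReal (r - 1)) (𝓝[>] 1) (𝓝 (ENNReal.ofReal (1 - 1))) :=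
      ((ENNReal.continuous_ofReal.comp (continuous_id.sub continuous_const)).tendsto 1).mono_left
        nhdsWithin_le_nhds
    have h3 := (dil_lp G hp hp' hZ).mono_left (nhdsWithin_le_nhds (s := Ioi (1 : ℝ)))
    have h4 := ENNReal.Tendsto.mul h1 (Or.inr ENNReal.zero_ne_top) h3
      (Or.inr ENNReal.ofReal_ne_top)
    have h5 := ENNReal.Tendsto.mul_const h2 (b := eLpNorm Z p volume) (Or.inr hZ.2.ne)
    have h6 := h4.add h5
    simpa using h6
  have hε2 : 0 < ε / 2 := ENNReal.half_pos hε.ne'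
  have hev : ∀ᶠ r : ℝ in 𝓝[>] 1, 1 < r := self_mem_nhdsWithin
  obtain ⟨r, hr1, hrε⟩ := (hev.and (hlim.eventually (ge_mem_nhds hε2))).exists
  have hr0 : 0 < r := by linarith
  have hdel := h.del hr0
  have hdel1 : HW G p univ (fun x => z (G.del r x)) (fun x => r • Z (G.del r x)) :=
    hdel.mono (fun x _ => mem_univ _)
  set K : Set (Pt N) := {y | G.di 0 y ≤ 1 / r} with hKdef
  have hK : IsCompact K := G.isCompact_cB 0 (1 / r)
  have hKB : K ⊆ G.B 0 1 := by
    intro y hy
    have h1 : G.di 0 y ≤ 1 / r := hy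
    have h2 : 1 / r < 1 := by
      rw [div_lt_one hr0]
      exact hr1
    exact lt_of_le_of_lt h1 h2
  have hoff : ∀ᵐ x, x ∉ K → z (G.del r x) = 0 ∧ Z (G.del r x) = 0 := by
    filter_upwards [g0_del_ae G hr0 h0] with x hx hxK
    refine hx fun hB => hxK ?_
    have h1 : G.di 0 (G.del r x) < 1 := hB
    have h2 := G.di_del hr0 0 x
    rw [G.del_zero] at h2
    rw [h2] at h1
    show G.di 0 x ≤ 1 / r
    rw [le_div_iff₀ hr0]
    linarith
  have hcon : HW G p univ (fun x => if x ∈ K then z (G.del r x) else 0)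
      (fun x => if x ∈ K then r • Z (G.del r x) else 0) := by
    refine hdel1.congr isOpen_univ ?_ ?_
    · filter_upwards [hoff] with x hx _
      by_cases hxK : x ∈ K
      · rw [if_pos hxK]
      · rw [if_neg hxK, (hx hxK).1]
    · filter_upwards [hoff] with x hx _
      by_cases hxK : x ∈ K
      · rw [if_pos hxK]
      · rw [if_neg hxK, (hx hxK).2, smul_zero]
  obtain ⟨φ, hφ, -, hlimφ⟩ := (hcon.mono (subset_univ (G.B 0 1))).approx (G.isOpen_B 0 1) hp hp' hK hKB
    (fun x hx => if_neg hx) (fun x hx => if_neg hx)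
  obtain ⟨n, hn⟩ := (hlimφ.eventually (ge_mem_nhds hε2)).exists
  have hgm : AEStronglyMeasurable (G.grad (φ n)) (volume : Measure (Pt N)) :=
    g0_meas (HW.smooth (G := G) (q := p) (Ω := univ) (hφ n).smooth).lqg
  refine ⟨φ n, hφ n, hgm, ?_⟩
  have hZm : AEStronglyMeasurable (fun x => r • Z (G.del r x)) (volume : Measure (Pt N)) :=
    g0_meas hdel1.lqg
  have hZcm : AEStronglyMeasurable (fun x => if x ∈ K then r • Z (G.del r x) else 0)
    (volume : Measure (Pt N)) := g0_meas hcon.lqg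
  have hae : ∀ᵐ x, (if x ∈ K then r • Z (G.del r x) else 0) = r • Z (G.del r x) := by
    filter_upwards [hoff] with x hx
    by_cases hxK : x ∈ K
    · rw [if_pos hxK]
    · rw [if_neg hxK, (hx hxK).2, smul_zero]
  have hZd : AEStronglyMeasurable (fun x => Z (G.del r x)) (volume : Measure (Pt N)) := by
    have h1 := hZm.const_smul r⁻¹
    refine h1.congr (Eventually.of_forall fun x => ?_)
    show r⁻¹ • (r • Z (G.del r x)) = Z (G.del r x)
    rw [smul_smul, inv_mul_cancel₀ hr0.ne', one_smul]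
  have e1 : eLpNorm (fun x => r • Z (G.del r x) - Z x) p volume ≤
      ENNReal.ofReal r * eLpNorm (fun x => Z (G.del r x) - Z x) p volume
      + ENNReal.ofReal (r - 1) * eLpNorm Z p volume := by
    have h1 : (fun x => r • Z (G.del r x) - Z x) =
        (fun x => r • (Z (G.del r x) - Z x)) + fun x => (r - 1) • Z x := by
      funext x
      show r • Z (G.del r x) - Z x = r • (Z (G.del r x) - Z x) + (r - 1) • Z x
      rw [smul_sub, sub_smul, one_smul]
      abel
    rw [h1]
    refine (eLpNorm_add_le ((hZd.sub hZ.1).const_smul r) (hZ.1.const_smul (r - 1)) hp).trans ?_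
    refine add_le_add ?_ ?_
    · refine (eLpNorm_const_smul_le (c := r) (f := fun x => Z (G.del r x) - Z x)).trans ?_
      rw [Real.enorm_eq_ofReal hr0.le]
    · refine (eLpNorm_const_smul_le (c := r - 1) (f := Z)).trans ?_
      rw [Real.enorm_eq_ofReal (by linarith)]
  have e2 : eLpNorm (fun x => (if x ∈ K then r • Z (G.del r x) else 0) - Z x) p volume ≤ ε / 2 := by
    refine le_trans (le_of_eq (eLpNorm_congr_ae ?_)) (e1.trans hrε)
    filter_upwards [hae] with x hx
    rw [hx]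
  have h1 : (fun x => G.grad (φ n) x - Z x) =
      (fun x => G.grad (φ n) x - if x ∈ K then r • Z (G.del r x) else 0) +
      fun x => (if x ∈ K then r • Z (G.del r x) else 0) - Z x := by
    funext x
    show G.grad (φ n) x - Z x = (G.grad (φ n) x - if x ∈ K then r • Z (G.del r x) else 0) +
      ((if x ∈ K then r • Z (G.del r x) else 0) - Z x)
    abel
  rw [h1]
  refine (eLpNorm_add_le (hgm.sub hZcm) (hZcm.sub hZ.1) hp).trans ?_
  calc _ ≤ ε / 2 + ε / 2 := add_le_add hn e2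
    _ = ε := ENNReal.add_halves ε

theorem grad0 (G : Carnot N m) {p : ℝ≥0∞} (hp : 1 ≤ p) (hp' : p ≠ ⊤) {z : Pt N → ℝ}
    {Z : Pt N → Hv m} (h : HW G 1 univ z Z) (h0 : ∀ᵐ x, x ∉ G.B 0 1 → z x = 0 ∧ Z x = 0)
    (hZ : MemLp Z p volume) :
    ∃ ψ : ℕ → Pt N → ℝ, (∀ n, Test (G.B 0 1) (ψ n)) ∧
      Tendsto (fun n => eLpNorm (fun x => G.grad (ψ n) x - Z x) p volume) atTop (𝓝 0) := by
  have key : ∀ ε : ℝ≥0∞, 0 < ε → ∃ ψ : Pt N → ℝ, Test (G.B 0 1) ψ ∧
      eLpNorm (fun x => G.grad ψ x - Z x) p volume ≤ ε := by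
    intro ε hε
    have hε2 : 0 < ε / 2 := ENNReal.half_pos hε.ne'
    let f : ℕ → Pt N → Hv m := fun n x =>
      if -((n : ℝ) + 1) < z x ∧ z x ≤ (n : ℝ) + 1 then Z x else 0
    have hT : ∀ n : ℕ, HW G p univ
        (fun x => max (z x + ((n : ℝ) + 1)) 0 - max (z x - ((n : ℝ) + 1)) 0 - ((n : ℝ) + 1))
        (f n) := fun n =>
      trunc_hw G hp h hZ (M := (n : ℝ) + 1) (by positivity)
    have hfm : ∀ n, AEStronglyMeasurable (f n) (volume : Measure (Pt N)) :=
      fun n => g0_meas (hT n).lqg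
    have hfor : ∀ n x, f n x = Z x ∨ f n x = 0 := by
      intro n x
      by_cases hc : -((n : ℝ) + 1) < z x ∧ z x ≤ (n : ℝ) + 1
      · exact Or.inl (if_pos hc)
      · exact Or.inr (if_neg hc)
    have hfev : ∀ x, ∀ᶠ n in atTop, f n x = Z x := by
      intro x
      obtain ⟨n0, hn0⟩ := exists_nat_gt |z x|
      filter_upwards [eventually_ge_atTop n0] with n hn
      have h2 : (n0 : ℝ) ≤ n := by exact_mod_cast hn
      have h3 := (abs_le.1 hn0.le)
      exact if_pos ⟨by linarith [h3.1], by linarith [h3.2]⟩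
    have hlim := g0_trunc hp hp' hZ hfm hfor hfev
    obtain ⟨n, hn⟩ := (hlim.eventually (ge_mem_nhds hε2)).exists
    have hfL : MemLp (f n) p volume := by
      refine hZ.mono (hfm n) (Eventually.of_forall fun x => ?_)
      rcases hfor n x with hx | hx
      · rw [hx]
      · rw [hx, norm_zero]
        exact norm_nonneg _
    have hf0 : ∀ᵐ x, x ∉ G.B 0 1 →
        max (z x + ((n : ℝ) + 1)) 0 - max (z x - ((n : ℝ) + 1)) 0 - ((n : ℝ) + 1) = 0 ∧
        f n x = 0 := by
      filter_upwards [h0] with x hx hxB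
      obtain ⟨hx1, hx2⟩ := hx hxB
      have hn0 : (0 : ℝ) ≤ n := Nat.cast_nonneg n
      refine ⟨?_, ?_⟩
      · rw [hx1, max_eq_left (by linarith), max_eq_right (by linarith)]
        ring
      · rcases hfor n x with hc | hc
        · rw [hc, hx2]
        · exact hc
    obtain ⟨ψ, hψ, hψm, hψε⟩ := g0_key G hp hp' (hT n) hf0 hfL hε2
    refine ⟨ψ, hψ, ?_⟩
    have h1 : (fun x => G.grad ψ x - Z x) =
        (fun x => G.grad ψ x - f n x) + fun x => f n x - Z x := by
      funext x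
      show G.grad ψ x - Z x = (G.grad ψ x - f n x) + (f n x - Z x)
      abel
    rw [h1]
    refine (eLpNorm_add_le (hψm.sub (hfm n)) ((hfm n).sub hZ.1) hp).trans ?_
    calc _ ≤ ε / 2 + ε / 2 := add_le_add hψε hn
      _ = ε := ENNReal.add_halves ε
  choose ψ hψ hψε using fun n : ℕ => key ((n : ℝ≥0∞)⁻¹) (by simp)
  refine ⟨ψ, hψ, ?_⟩
  exact tendsto_of_tendsto_of_tendsto_of_le_of_le tendsto_const_nhds
    ENNReal.tendsto_inv_nat_nhds_zero (fun n => zero_le) hψε

end Pool.Agent.CG
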