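import Pool.Agent.CG.Geo

/-!
# CG-M-HolLim: limits of equi-Hölder sequences converging almost everywhere

PLAN.  `S = {x ∈ U | convergence}` is dense in `U` (its complement in `U` is null, nonempty open sets have positive
measure).  For `y ∈ U` and `ε` choose `s ∈ S` with `2 C (di y s)^α < ε/2` (continuity of `G.di`; `C ≥ 0` may be assumed when `U` has two points, or
use `|C|`); so `Fj j y` is Cauchy.  `F' y` = the limit (for `y ∈ U`); pass to the limit in the inequality; `F = F'` on `S` by uniqueness of limits.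
-/

set_option autoImplicit false

namespace Pool.Agent.CG

open MeasureTheory Set Filter Topology
open scoped ContDiff ENNReal

variable {N m : ℕ}

theorem hol_lim (G : Carnot N m) {U : Set (Pt N)} (hU : IsOpen U) {α C : ℝ} (hα : 0 < α)
    {Fj : ℕ → Pt N → Hv m} {F : Pt N → Hv m}
    (hH : ∀ j, ∀ y ∈ U, ∀ z ∈ U, ‖Fj j y - Fj j z‖ ≤ C * G.di y z ^ α)
    (hl : ∀ᵐ x, x ∈ U → Tendsto (fun j => Fj j x) atTop (𝓝 (F x))) :
    ∃ F' : Pt N → Hv m, (∀ᵐ x, x ∈ U → F x = F' x) ∧
      ∀ y ∈ U, ∀ z ∈ U, ‖F' y - F' z‖ ≤ C * G.di y z ^ α := by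
  have hcau : ∀ y ∈ U, CauchySeq fun j => Fj j y := by
    intro y hy
    rw [Metric.cauchySeq_iff]
    intro ε hε
    have hcont : Continuous fun s => |C| * G.di y s ^ α :=
      continuous_const.mul ((G.continuous_di.comp (continuous_const.prodMk continuous_id)).rpow_const
        fun _ => Or.inr hα.le)
    have hopen : IsOpen (U ∩ {s | |C| * G.di y s ^ α < ε / 3}) :=
      hU.inter (isOpen_lt hcont continuous_const)
    have hne : (U ∩ {s | |C| * G.di y s ^ α < ε / 3}).Nonempty := by
      refine ⟨y, hy, ?_⟩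
      show |C| * G.di y y ^ α < ε / 3
      rw [G.di_self, Real.zero_rpow hα.ne', mul_zero]
      positivity
    obtain ⟨s, ⟨hsU, hs⟩, hsl⟩ :=
      (Measure.dense_of_ae hl).inter_open_nonempty _ hopen hne
    have hs' : |C| * G.di y s ^ α < ε / 3 := hs
    have hd : 0 ≤ G.di y s ^ α := Real.rpow_nonneg (G.di_nonneg y s) α
    have hb : C * G.di y s ^ α < ε / 3 :=
      lt_of_le_of_lt (mul_le_mul_of_nonneg_right (le_abs_self C) hd) hs'
    have hc : CauchySeq fun j => Fj j s := (hsl hsU).cauchySeq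
    obtain ⟨n, hn⟩ := Metric.cauchySeq_iff.1 hc (ε / 3) (by positivity)
    refine ⟨n, fun j hj k hk => ?_⟩
    have h1 := hH j y hy s hsU
    have h2 := hH k y hy s hsU
    have h3 := hn j hj k hk
    rw [dist_eq_norm] at h3 ⊢
    have h4 : Fj j y - Fj k y = (Fj j y - Fj j s) + (Fj j s - Fj k s) - (Fj k y - Fj k s) := by
      abel
    rw [h4]
    refine lt_of_le_of_lt ((norm_sub_le _ _).trans (add_le_add (norm_add_le _ _) le_rfl)) ?_
    linarith
  have hlim : ∀ y ∈ U, Tendsto (fun j => Fj j y) atTop (𝓝 (limUnder atTop fun j => Fj j y)) :=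
    fun y hy => tendsto_nhds_limUnder (cauchySeq_tendsto_of_complete (hcau y hy))
  refine ⟨fun y => limUnder atTop fun j => Fj j y, ?_, fun y hy z hz => ?_⟩
  · filter_upwards [hl] with x hx hxU
    exact tendsto_nhds_unique (hx hxU) (hlim x hxU)
  · exact le_of_tendsto ((hlim y hy).sub (hlim z hz)).norm
      (Eventually.of_forall fun j => hH j y hy z hz)

end Pool.Agent.CG
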