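import Pool.Agent.CG.Flat
import Pool.Agent.CG.M.Energy

/-!
# CG-M-Inner: interior estimates for the regularised equation

PLAN.  `uu_reg` on `B x R` gives a representative `F1` on `B x (R/2)`, bounded and Hölder there, so continuous on the open ball
(`G.di` is continuous and vanishes on the diagonal).  `Sol G 2 (B x (R/2)) A u F1` by `HW.mono`, `HW.congr` and congruence in the equation.
`supB` on `B x (R/2)` (radius `R/2`): for `y ∈ B x (R/4)`: `gg W ‖F1 y‖ ≤ C av G x (R/2) (gg W ‖F1‖)`, and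
`av G x (R/2) f = (vol B(R/2))⁻¹ ∫_{B(R/2)} f ≤ (vol B(R/2))⁻¹ ∫_{B(R)} gg W ‖F‖`, `vol.real (B(R/2)) = (R/2)^Q vol.real(B 0 1)`
(`G.vol_B`; the volume of the unit ball is positive and finite; the constant may depend on it).  Integrability of `gg W ‖F‖`
on `B x R`: `gg_le_sq`.
Hölder bound: for `M > 0` with `‖F1‖ ≤ M` on `B x (R/4)` scale the slopes: `A' ξ = (M W M)⁻¹ • A (M • ξ)` is `Nrm a b L`
(`Wt.scale`, `AA.scale`, value at 1 is `W M / W M = 1`), `(M⁻¹ u, M⁻¹ F1)` is a solution for `A'` on `B x (R/4)`, continuous,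
`‖·‖ ≤ 1`; `holB` on `B x (R/4)`; `(di y z / (R/4))^α = 4^α (di y z / R)^α`.
-/

set_option autoImplicit false

namespace Pool.Agent.CG

open MeasureTheory Set Filter Topology
open scoped ContDiff ENNReal

variable {N m : ℕ}

private theorem inn_congr {G : Carnot N m} {q : ℝ≥0∞} {Ω : Set (Pt N)} (hΩ : IsOpen Ω)
    {A : Hv m → Hv m} {u : Pt N → ℝ} {F F1 : Pt N → Hv m} (h : Sol G q Ω A u F)
    (h1 : ∀ᵐ y, y ∈ Ω → F y = F1 y) : Sol G q Ω A u F1 := by
  refine ⟨h.toHW.congr hΩ (Eventually.of_forall fun _ _ => rfl) h1, fun φ hφ => ?_⟩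
  rw [← h.eqn φ hφ]
  refine integral_congr_ae ?_
  filter_upwards [h1] with y hy
  by_cases hyΩ : y ∈ Ω
  · rw [hy hyΩ]
  · have h0 : G.grad φ y = 0 := by
      ext k
      have := image_eq_zero_of_notMem_tsupport (fun hc => hyΩ ((G.test_X hφ k).sub hc))
      exact this
    rw [h0, inner_zero_right, inner_zero_right]

private theorem inn_cont {G : Carnot N m} {x : Pt N} {r R β K E : ℝ} (hβ : 0 < β) {F : Pt N → Hv m}
    (h : ∀ y ∈ G.B x r, ∀ z ∈ G.B x r, ‖F y - F z‖ ^ 2 ≤ K * (G.di y z / R) ^ (2 * β) * E) :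
    ContinuousOn F (G.B x r) := by
  intro p hp
  rw [ContinuousWithinAt, tendsto_iff_norm_sub_tendsto_zero]
  have h3 : Tendsto (fun w => Real.sqrt (K * (G.di w p / R) ^ (2 * β) * E)) (𝓝[G.B x r] p) (𝓝 0) := by
    have h4 : Continuous fun w => Real.sqrt (K * (G.di w p / R) ^ (2 * β) * E) := by
      have h5 : Continuous fun w : Pt N => G.di w p :=
        G.continuous_di.comp (continuous_id.prodMk continuous_const)
      exact Real.continuous_sqrt.comp ((continuous_const.mul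
        ((h5.div_const R).rpow_const fun _ => Or.inr (by positivity))).mul continuous_const)
    have h6 := h4.tendsto p
    rw [G.di_self, zero_div, Real.zero_rpow (by positivity), mul_zero, zero_mul,
      Real.sqrt_zero] at h6
    exact h6.mono_left nhdsWithin_le_nhds
  refine squeeze_zero' (Eventually.of_forall fun _ => norm_nonneg _) ?_ h3
  filter_upwards [self_mem_nhdsWithin] with w hw
  exact Real.le_sqrt_of_sq_le (h w hw p hp)

theorem inner_est (G : Carnot N m) {a b L : ℝ} (ha0 : 0 ≤ a) (ha : a < 1) (hb : 0 ≤ b) (hL : 1 ≤ L) :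
    ∃ α : ℝ, 0 < α ∧ α < 1 ∧ ∃ C : ℝ, 0 < C ∧ ∀ (W : ℝ → ℝ) (A : Hv m → Hv m) (lam Lam : ℝ),
    Wt a b W → AA W L A → 0 < lam → UU lam Lam A →
    ∀ (x : Pt N) (R : ℝ), 0 < R → ∀ (u : Pt N → ℝ) (F : Pt N → Hv m), Sol G 2 (G.B x R) A u F →
    IntegrableOn (fun y => ‖F y‖ ^ 2) (G.B x R) →
    ∃ F' : Pt N → Hv m, (∀ᵐ y, y ∈ G.B x (R / 4) → F y = F' y) ∧ ContinuousOn F' (G.B x (R / 4)) ∧
      (∀ y ∈ G.B x (R / 4), gg W ‖F' y‖ ≤ C * (R⁻¹ ^ G.Q * ∫ z in G.B x R, gg W ‖F z‖)) ∧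
      ∀ M : ℝ, 0 < M → (∀ y ∈ G.B x (R / 4), ‖F' y‖ ≤ M) →
        ∀ y ∈ G.B x (R / 8), ∀ z ∈ G.B x (R / 8), ‖F' y - F' z‖ ≤ C * M * (G.di y z / R) ^ α := by
  obtain ⟨α, hα0, hα1, C2, hC2, hhol⟩ := holB G ha0 ha hb hL
  obtain ⟨C1, hC1, hsup⟩ := supB G ha0 ha hb hL
  have hV := Pool.Agent.CG.L.volr_B_pos G (0 : Pt N) one_pos
  set V : ℝ := volume.real (G.B 0 1) with hVdef
  have h4α : (0 : ℝ) < 4 ^ α := Real.rpow_pos_of_pos (by norm_num) α
  refine ⟨α, hα0, hα1, C1 * (2 ^ G.Q * V⁻¹) + C2 * 4 ^ α, by positivity, ?_⟩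
  intro W A lam Lam hW hA hlam hU x R hR u F hS hint
  obtain ⟨β, hβ0, hβ1, C3, hC3, huu⟩ := uu_reg G (lam := lam) (Lam := Lam) hlam
  obtain ⟨F1, h1, h2, h3⟩ := huu x R hR A hU u F hS hint
  have hR2 : 0 < R / 2 := half_pos hR
  have hsub : G.B x (R / 2) ⊆ G.B x R := Pool.Agent.CG.L.B_mono G (by linarith)
  have hsub4 : G.B x (R / 4) ⊆ G.B x (R / 2) := Pool.Agent.CG.L.B_mono G (by linarith)
  have hc : ContinuousOn F1 (G.B x (R / 2)) := inn_cont hβ0 h3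
  have hS1 : Sol G 2 (G.B x (R / 2)) A u F1 :=
    inn_congr (G.isOpen_B x _) (Pool.Agent.CG.L.sol_mono hS hsub) h1
  have hbd : ∃ M : ℝ, ∀ y ∈ G.B x (R / 2), ‖F1 y‖ ≤ M :=
    ⟨_, fun y hy => Real.le_sqrt_of_sq_le (h2 y hy)⟩
  have hgg0 : ∀ y, 0 ≤ gg W ‖F y‖ := fun y => gg_nonneg hW (norm_nonneg _)
  have hgint : IntegrableOn (fun y => gg W ‖F y‖) (G.B x R) := by
    have haesm : AEStronglyMeasurable (fun y => gg W ‖F y‖) (volume.restrict (G.B x R)) :=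
      (gg_norm_continuous ha0 ha hb hW).comp_aestronglyMeasurable (Pool.Agent.CG.L.aesm_of_lqLoc G hS.lqg)
    refine Integrable.mono' (hint.const_mul Lam) haesm (Eventually.of_forall fun y => ?_)
    rw [Real.norm_of_nonneg (hgg0 y)]
    exact gg_le_sq hA hU (F y)
  refine ⟨F1, ?_, hc.mono hsub4, ?_, ?_⟩
  · filter_upwards [h1] with y hy hy4
    exact hy (hsub4 hy4)
  · intro y hy
    have h4 := hsup W A hW hA x (R / 2) hR2 u F1 hS1 hc hbd y
      (by have : R / 2 / 2 = R / 4 := by ring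
          rw [this]; exact hy)
    refine h4.trans ?_
    have h5 : ∫ z in G.B x (R / 2), gg W ‖F1 z‖ = ∫ z in G.B x (R / 2), gg W ‖F z‖ := by
      refine setIntegral_congr_ae (Pool.Agent.CG.L.meas_B G x _) ?_
      filter_upwards [h1] with z hz hzB
      rw [hz hzB]
    have h6 : ∫ z in G.B x (R / 2), gg W ‖F z‖ ≤ ∫ z in G.B x R, gg W ‖F z‖ := by
      refine setIntegral_mono_set hgint ?_ (Eventually.of_forall hsub)
      exact Eventually.of_forall fun z => hgg0 z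
    have h7 : 0 ≤ ∫ z in G.B x R, gg W ‖F z‖ := integral_nonneg fun z => hgg0 z
    unfold av
    rw [h5, Pool.Agent.CG.L.volr_B G x hR2]
    have h8 : ((R / 2) ^ G.Q * V)⁻¹ = 2 ^ G.Q * V⁻¹ * R⁻¹ ^ G.Q := by
      rw [div_pow, mul_inv, inv_div, inv_pow]
      field_simp
    rw [← hVdef, h8]
    have h9 : 0 < R⁻¹ ^ G.Q := by positivity
    calc C1 * (2 ^ G.Q * V⁻¹ * R⁻¹ ^ G.Q * ∫ z in G.B x (R / 2), gg W ‖F z‖)
        ≤ C1 * (2 ^ G.Q * V⁻¹ * R⁻¹ ^ G.Q * ∫ z in G.B x R, gg W ‖F z‖) := by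
          refine mul_le_mul_of_nonneg_left (mul_le_mul_of_nonneg_left h6 ?_) hC1.le
          positivity
      _ = C1 * (2 ^ G.Q * V⁻¹) * (R⁻¹ ^ G.Q * ∫ z in G.B x R, gg W ‖F z‖) := by ring
      _ ≤ (C1 * (2 ^ G.Q * V⁻¹) + C2 * 4 ^ α) * (R⁻¹ ^ G.Q * ∫ z in G.B x R, gg W ‖F z‖) := by
          refine mul_le_mul_of_nonneg_right ?_ (by positivity)
          have : 0 < C2 * 4 ^ α := by positivity
          linarith
  · intro M hM hFM y hy z hz
    have hA' := Pool.Agent.CG.L.nrm_slope_W hW hA hM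
    have hS' := Pool.Agent.CG.L.sol_slope (Pool.Agent.CG.L.sol_mono hS1 hsub4) hM (M * W M)⁻¹
    have hcc : ContinuousOn (fun w => M⁻¹ • F1 w) (G.B x (R / 4)) := (hc.mono hsub4).const_smul M⁻¹
    have hF1 : ∀ w ∈ G.B x (R / 4), ‖M⁻¹ • F1 w‖ ≤ 1 := by
      intro w hw
      rw [norm_smul, Real.norm_of_nonneg (inv_nonneg.2 hM.le), inv_mul_le_iff₀ hM, mul_one]
      exact hFM w hw
    have e8 : R / 4 / 2 = R / 8 := by ring
    have h4 := hhol _ hA' x (R / 4) (by positivity) _ _ hS' hcc hF1 y (by rw [e8]; exact hy) z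
      (by rw [e8]; exact hz)
    have h5 : G.di y z / (R / 4) = 4 * (G.di y z / R) := by field_simp
    have h6 : 0 ≤ G.di y z / R := div_nonneg (G.di_nonneg y z) hR.le
    rw [h5, Real.mul_rpow (by norm_num) h6, ← smul_sub, norm_smul,
      Real.norm_of_nonneg (inv_nonneg.2 hM.le), inv_mul_le_iff₀ hM] at h4
    have h7 : 0 ≤ (G.di y z / R) ^ α := Real.rpow_nonneg h6 α
    calc ‖F1 y - F1 z‖ ≤ M * (C2 * (4 ^ α * (G.di y z / R) ^ α)) := h4
      _ = C2 * 4 ^ α * M * (G.di y z / R) ^ α := by ring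
      _ ≤ (C1 * (2 ^ G.Q * V⁻¹) + C2 * 4 ^ α) * M * (G.di y z / R) ^ α := by
          refine mul_le_mul_of_nonneg_right (mul_le_mul_of_nonneg_right ?_ hM.le) h7
          have : 0 < C1 * (2 ^ G.Q * V⁻¹) := by positivity
          linarith

end Pool.Agent.CG
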