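import Pool.Agent.CG.M.DirS
import Pool.Agent.CG.M.Comp
import Pool.Agent.CG.M.Grad0
import Pool.Agent.CG.M.Appr
import Pool.Agent.CG.M.HolLim

/-!
# CG-M-Loc: interior regularity of weak solutions (assembly of section 8)
-/

set_option autoImplicit false

namespace Pool.Agent.CG

open MeasureTheory Set Filter Topology
open scoped ContDiff ENNReal

variable {N m : ℕ}

private theorem cB_subset (G : Carnot N m) : {y | G.di 0 y ≤ 1} ⊆ G.B 0 2 := by
  intro y hy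
  exact lt_of_le_of_lt (show G.di 0 y ≤ 1 from hy) (by norm_num)

private theorem B_subset_cB (G : Carnot N m) : G.B 0 1 ⊆ {y | G.di 0 y ≤ 1} :=
  fun y hy => le_of_lt (show G.di 0 y < 1 from hy)

/-- A function of class `L^p` on `B 0 1`, vanishing outside, is of class `L^p`. -/
private theorem memLp_glob (G : Carnot N m) {p : ℝ≥0∞} {Z : Pt N → Hv m}
    (h : MemLp Z p (volume.restrict (G.B 0 1))) (h0 : ∀ᵐ x, x ∉ G.B 0 1 → Z x = 0) :
    MemLp Z p volume := by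
  have h1 : MemLp ((G.B 0 1).indicator Z) p volume :=
    (memLp_indicator_iff_restrict (G.isOpen_B 0 1).measurableSet).2 h
  refine h1.ae_eq ?_
  filter_upwards [h0] with x hx
  by_cases h2 : x ∈ G.B 0 1
  · exact indicator_of_mem h2 _
  · rw [indicator_of_notMem h2, hx h2]

theorem weak_local0 (G : Carnot N m) (hN : 0 < N) {p c L : ℝ} (hp : 1 < p) (hc : 0 < c)
    (hL : 1 ≤ L) :
    ∃ α : ℝ, 0 < α ∧ α < 1 ∧ ∀ (δ : ℝ), 0 ≤ δ → ∀ A : Hv m → Hv m,
    AA (pw p c δ) L A → ∀ (u : Pt N → ℝ) (F : Pt N → Hv m),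
    Sol G (ENNReal.ofReal p) (G.B 0 2) A u F →
    ∃ F' : Pt N → Hv m, (∀ᵐ y, y ∈ G.B 0 (1 / 8) → F y = F' y) ∧
      ∃ C : ℝ, ∀ y ∈ G.B 0 (1 / 8), ∀ z ∈ G.B 0 (1 / 8), ‖F' y - F' z‖ ≤ C * G.di y z ^ α := by
  have ha0 : 0 ≤ max (2 - p) 0 := le_max_right _ _
  have ha : max (2 - p) 0 < 1 := max_lt (by linarith) one_pos
  have hb : 0 ≤ max (p - 2) 0 := le_max_right _ _
  obtain ⟨α, hα, hα1, hdir⟩ := dirichlet_smooth G hN ha0 ha hb hL
  refine ⟨α, hα, hα1, fun δ hδ A hA u F hS => ?_⟩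
  have hW : Wt (max (2 - p) 0) (max (p - 2) 0) (pw p c δ) := pw_wt hc hδ
  have hAc : Continuous A := AA.continuous ha hb (by linarith) hW hA
  have hp1 : 1 ≤ ENNReal.ofReal p := by
    rw [← ENNReal.ofReal_one]
    exact ENNReal.ofReal_le_ofReal hp.le
  have hpt : ENNReal.ofReal p ≠ ⊤ := ENNReal.ofReal_ne_top
  haveI : IsFiniteMeasure (volume.restrict (G.B 0 1)) :=
    ⟨by rw [Measure.restrict_apply_univ]; exact G.vol_B_lt_top 0 1⟩
  have hF : MemLp F (ENNReal.ofReal p) (volume.restrict (G.B 0 1)) :=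
    (hS.lqg _ (G.isCompact_cB 0 1) (cB_subset G)).mono_measure
      (Measure.restrict_mono (B_subset_cB G) le_rfl)
  obtain ⟨φ, hφ, hφl⟩ := appr G hp1 hpt hS.toHW
  have hΓm : ∀ j, MemLp (G.grad (φ j)) (ENNReal.ofReal p) (volume.restrict (G.B 0 1)) := by
    intro j
    obtain ⟨T, -, hT⟩ := (hφ j).bdd_grad G
    exact MemLp.of_bound (hφ j).continuous_grad.aestronglyMeasurable T
      (Eventually.of_forall hT)
  obtain ⟨E, hE⟩ := energy_bound hp hc hδ hF hΓm hφl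
  obtain ⟨C, hC⟩ := hdir (pw p c δ) A hW hA E
  choose z Z hzZ hz0 heq hI hEn F1 hF1 hH using fun j => hC (φ j) (hφ j).smooth (hE j)
  have hZm : ∀ j, AEStronglyMeasurable (Z j) (volume.restrict (G.B 0 1)) := fun j =>
    ((hzZ j).lqg _ (G.isCompact_cB 0 1) (subset_univ _)).1.mono_measure
      (Measure.restrict_mono (B_subset_cB G) le_rfl)
  have hZp : ∀ j, MemLp (Z j) (ENNReal.ofReal p) volume := by
    intro j
    refine memLp_glob G ?_ ((hz0 j).mono fun x hx h => (hx h).2)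
    have h1 : MemLp (fun x => G.grad (φ j) x + Z j x) (ENNReal.ofReal p)
        (volume.restrict (G.B 0 1)) :=
      memLp_of_gg hp hc hδ ((hΓm j).1.add (hZm j)) (hI j)
    refine (h1.sub (hΓm j)).ae_eq (Eventually.of_forall fun x => ?_)
    simp
  have hψ : ∀ j, ∃ ψ : ℕ → Pt N → ℝ, (∀ n, Test (G.B 0 1) (ψ n)) ∧
      Tendsto (fun n => eLpNorm (fun x => G.grad (ψ n) x - Z j x) (ENNReal.ofReal p)
        (volume.restrict (G.B 0 1))) atTop (𝓝 0) := by
    intro j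
    obtain ⟨ψ, h1, h2⟩ := grad0 G hp1 hpt (hzZ j) (hz0 j) (hZp j)
    refine ⟨ψ, h1, tendsto_of_tendsto_of_tendsto_of_le_of_le tendsto_const_nhds h2
      (fun n => zero_le) fun n => eLpNorm_mono_measure _ Measure.restrict_le_self⟩
  have heqF : ∀ ψ : Pt N → ℝ, Test (G.B 0 1) ψ → ∫ x, inner ℝ (A (F x)) (G.grad ψ x) = 0 :=
    fun ψ h => hS.eqn ψ (h.mono ((B_subset_cB G).trans (cB_subset G)))
  obtain ⟨s, hs, hlim⟩ := comparison G hp hc hδ hL hW hA hAc hF heqF hφl hΓm hZm hI hEn heq hψ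
  have hsub : G.B 0 (1 / 8) ⊆ G.B 0 1 := by
    intro y hy
    exact lt_trans (show G.di 0 y < 1 / 8 from hy) (by norm_num)
  obtain ⟨F', h1, h2⟩ := hol_lim G (G.isOpen_B 0 (1 / 8)) (C := C) hα (Fj := fun j => F1 (s j))
    (F := F) (fun j => hH (s j)) (by
      filter_upwards [hlim] with x hx hx8
      refine (hx (hsub hx8)).congr fun j => ?_
      exact hF1 (s j) x hx8)
  exact ⟨F', h1, C, h2⟩

theorem weak_local (G : Carnot N m) {p c L : ℝ} (hp : 1 < p) (hc : 0 < c) (hL : 1 ≤ L) :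
    ∃ α : ℝ, 0 < α ∧ α < 1 ∧ ∃ κ : ℝ, 0 < κ ∧ κ < 1 ∧ ∀ (δ : ℝ), 0 ≤ δ → ∀ A : Hv m → Hv m,
    AA (pw p c δ) L A → ∀ (x : Pt N) (R : ℝ), 0 < R → ∀ (u : Pt N → ℝ) (F : Pt N → Hv m),
    Sol G (ENNReal.ofReal p) (G.B x R) A u F →
    ∃ F' : Pt N → Hv m, (∀ᵐ y, y ∈ G.B x (κ * R) → F y = F' y) ∧
      ∃ C : ℝ, ∀ y ∈ G.B x (κ * R), ∀ z ∈ G.B x (κ * R), ‖F' y - F' z‖ ≤ C * G.di y z ^ α := by
  rcases Nat.eq_zero_or_pos N with hN | hN
  · have hm : m = 0 := by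
      rcases Nat.eq_zero_or_pos m with h | h
      · exact h
      · have h1 := (G.hor ⟨0, h⟩).2
        omega
    subst hm
    refine ⟨1 / 2, by norm_num, by norm_num, 1 / 2, by norm_num, by norm_num,
      fun δ hδ A hA x R hR u F hS => ⟨F, Eventually.of_forall fun _ _ => rfl, 0,
        fun y _ z _ => ?_⟩⟩
    have h1 : F y - F z = 0 := Subsingleton.elim _ _
    rw [h1, norm_zero, zero_mul]
  obtain ⟨α, hα, hα1, hloc⟩ := weak_local0 G hN hp hc hL
  refine ⟨α, hα, hα1, 1 / 16, by norm_num, by norm_num, fun δ hδ A hA x R hR u F hS => ?_⟩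
  have hr : 0 < R / 2 := by positivity
  have hri : 0 < (R / 2)⁻¹ := inv_pos.2 hr
  have h1 := hS.left x
  have h2 : {y | G.mul x y ∈ G.B x R} = G.B 0 R := by
    have h := G.preimage_left_B x 0 R
    rwa [G.mul_zero] at h
  rw [h2] at h1
  have h3 := h1.scale hr
  have h4 : {y | G.del (R / 2) y ∈ G.B 0 R} = G.B 0 2 := by
    have h := G.preimage_del_B hr 0 2
    rwa [G.del_zero, div_mul_cancel₀ R two_ne_zero] at h
  rw [h4] at h3
  obtain ⟨F1, hF1, C, hC⟩ := hloc δ hδ A hA _ _ h3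
  have hdi : ∀ y z : Pt N, G.di (G.del (R / 2)⁻¹ (G.mul (-x) y)) (G.del (R / 2)⁻¹ (G.mul (-x) z)) =
      (R / 2)⁻¹ * G.di y z := by
    intro y z
    rw [G.di_del hri, G.di_left]
  have hmem : ∀ y ∈ G.B x (1 / 16 * R), G.del (R / 2)⁻¹ (G.mul (-x) y) ∈ G.B 0 (1 / 8) := by
    intro y hy
    have hy1 : G.di x y < 1 / 16 * R := hy
    have h5 := hdi x y
    rw [G.neg_mul, G.del_zero] at h5
    change G.di 0 _ < 1 / 8
    rw [h5]
    calc (R / 2)⁻¹ * G.di x y < (R / 2)⁻¹ * (1 / 16 * R) := mul_lt_mul_of_pos_left hy1 hri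
      _ = 1 / 8 := by field_simp; norm_num
  have hq : Measure.QuasiMeasurePreserving (fun y => G.del (R / 2)⁻¹ (G.mul (-x) y))
      (volume : Measure (Pt N)) volume := by
    have hq1 : Measure.QuasiMeasurePreserving (G.del (R / 2)⁻¹) (volume : Measure (Pt N)) volume := by
      refine ⟨(G.continuous_del _).measurable, ?_⟩
      rw [G.map_del hri]
      exact Measure.smul_absolutelyContinuous
    exact hq1.comp (G.mp_left (-x)).quasiMeasurePreserving
  refine ⟨fun y => F1 (G.del (R / 2)⁻¹ (G.mul (-x) y)), ?_, C * (R / 2)⁻¹ ^ α, ?_⟩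
  · filter_upwards [hq.ae hF1] with y hy hyB
    have h5 := hy (hmem y hyB)
    rw [G.del_del_inv hr.ne', G.mul_neg_mul] at h5
    exact h5
  · intro y hy z hz
    have h5 := hC _ (hmem y hy) _ (hmem z hz)
    rw [hdi, Real.mul_rpow hri.le (G.di_nonneg _ _), ← mul_assoc] at h5
    exact h5

end Pool.Agent.CG
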