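import Pool.Agent.CG.M.Inner
import Pool.Agent.CG.M.GlueR

/-!
# CG-M-Pack: the regularised Dirichlet problem with smooth boundary values, all estimates

PLAN.  Constants: `α`, `C2` from `inner_est`, `C1` from `energy`; `C = max C1 C2` (all estimates are monotone in the constant as the right-hand
sides are nonnegative; for `bdd`: `C2 * (r⁻¹^Q * ∫_{B y r} gg W ‖F‖) ≤ C * (r⁻¹^Q * E1)` since `∫_{B y r} ≤ ∫_{B 0 1} ≤ E1`).
`Γ = grad φ` is continuous (`G.smooth_grad`), hence bounded on the compact set `{di 0 y ≤ 1}` and `MemLp Γ 2 (restrict B 0 1)`.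
`exists_dirichlet` gives `z`, `Z`.  `Sol G 2 (B 0 1) A (φ + z) (Γ + Z)`: `HW.smooth`, `HW0.hw`, `HW.add`, `HW.mono`.
For every ball `B y r ⊆ B 0 1`, `r > 0`: `Sol` on `B y r` (test functions on the smaller ball are test functions on `B 0 1`), `inner_est` gives a continuous representative
on `B y (r/4)`.  `glue_rep` (with `U = B y (r/4)`, `B y r ⊆ B 0 1`: `G.exists_B_subset`) gives `F` continuous on `B 0 1` with `Γ + Z = F` a.e. there; by `eq_of_ae_open` it
coincides with every local representative on `B y (r/4)`, so the estimates `bdd`, `hol` follow from `inner_est`.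
`‖Γ + Z‖^2` is integrable on `B 0 1` (`HW0.memZ`).
Equation for `F`: `A (F x) = A (Γ x + Z x)` for a.e. `x ∈ B 0 1` and `grad ψ = 0` off `B 0 1`.
-/

set_option autoImplicit false

namespace Pool.Agent.CG

open MeasureTheory Set Filter Topology
open scoped ContDiff ENNReal

variable {N m : ℕ}

/-- A solution of the regularised Dirichlet problem in the unit ball, with its estimates.
`F` is the continuous representative of `Γ + Z`. -/
structure Pack (G : Carnot N m) (W : ℝ → ℝ) (A : Hv m → Hv m) (Γ : Pt N → Hv m) (C α E1 : ℝ)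
    (z : Pt N → ℝ) (Z F : Pt N → Hv m) : Prop where
  hw0 : HW0 G 2 (G.B 0 1) z Z
  cont : ContinuousOn F (G.B 0 1)
  ae : ∀ᵐ x, x ∈ G.B 0 1 → Γ x + Z x = F x
  eqn : ∀ ψ : Pt N → ℝ, Test (G.B 0 1) ψ → ∫ x, inner ℝ (A (F x)) (G.grad ψ x) = 0
  int : IntegrableOn (fun x => gg W ‖F x‖) (G.B 0 1)
  energy : ∫ x in G.B 0 1, gg W ‖F x‖ ≤ E1
  bdd : ∀ (y : Pt N) (r : ℝ), 0 < r → G.B y r ⊆ G.B 0 1 → ∀ x ∈ G.B y (r / 4),
    gg W ‖F x‖ ≤ C * (r⁻¹ ^ G.Q * E1)
  hol : ∀ (y : Pt N) (r : ℝ), 0 < r → G.B y r ⊆ G.B 0 1 → ∀ M : ℝ, 0 < M →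
    (∀ x ∈ G.B y (r / 4), ‖F x‖ ≤ M) → ∀ x ∈ G.B y (r / 8), ∀ x' ∈ G.B y (r / 8),
      ‖F x - F x'‖ ≤ C * M * (G.di x x' / r) ^ α

private theorem pk_subB (G : Carnot N m) (y : Pt N) {r s : ℝ} (h : r ≤ s) : G.B y r ⊆ G.B y s := by
  intro x hx
  exact lt_of_lt_of_le hx h

private theorem pk_test_mono {D D' : Set (Pt N)} {φ : Pt N → ℝ} (h : Test D φ) (hs : D ⊆ D') :
    Test D' φ := ⟨h.smooth, h.cpt, h.sub.trans hs⟩

private theorem pk_grad_zero (G : Carnot N m) {D : Set (Pt N)} {φ : Pt N → ℝ} (h : Test D φ)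
    {x : Pt N} (hx : x ∉ D) : G.grad φ x = 0 := by
  unfold Carnot.grad
  ext k
  have h1 := (G.test_X h k).sub
  have h2 : x ∉ tsupport (G.X k φ) := fun h3 => hx (h1 h3)
  simpa using image_eq_zero_of_notMem_tsupport h2

private theorem pk_memLp (G : Carnot N m) {Γ : Pt N → Hv m} (hΓ : Continuous Γ) :
    MemLp Γ 2 (volume.restrict (G.B 0 1)) := by
  have : IsFiniteMeasure (volume.restrict (G.B 0 1)) :=
    ⟨by rw [Measure.restrict_apply_univ]; exact G.vol_B_lt_top 0 1⟩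
  obtain ⟨M, hM⟩ := (G.isCompact_cB 0 1).exists_bound_of_continuousOn hΓ.continuousOn
  refine MemLp.of_bound hΓ.aestronglyMeasurable M ?_
  rw [ae_restrict_iff' (G.isOpen_B 0 1).measurableSet]
  refine Filter.Eventually.of_forall fun x hx => hM x ?_
  have hx' : G.di 0 x < 1 := hx
  exact hx'.le

theorem pack_exists (G : Carnot N m) {a b L : ℝ} (ha0 : 0 ≤ a) (ha : a < 1) (hb : 0 ≤ b)
    (hL : 1 ≤ L) :
    ∃ α : ℝ, 0 < α ∧ α < 1 ∧ ∃ C : ℝ, 0 < C ∧ ∀ (W : ℝ → ℝ) (A : Hv m → Hv m) (lam Lam : ℝ),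
    Wt a b W → AA W L A → 0 < lam → UU lam Lam A → ∀ φ : Pt N → ℝ, ContDiff ℝ ∞ φ →
    ∀ E : ℝ, ∫ x in G.B 0 1, gg W ‖G.grad φ x‖ ≤ E →
    ∃ (z : Pt N → ℝ) (Z F : Pt N → Hv m), Pack G W A (G.grad φ) C α (C * E) z Z F := by
  obtain ⟨α, hα0, hα1, C2, hC2, hin⟩ := inner_est (m := m) G ha0 ha hb hL
  obtain ⟨C1, hC1, hen⟩ := energy (m := m) G ha0 ha hb hL
  refine ⟨α, hα0, hα1, max C1 C2, lt_max_of_lt_left hC1,
    fun W A lam Lam hW hA hlam hU φ hφ E hE => ?_⟩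
  have hCpos : 0 < max C1 C2 := lt_max_of_lt_left hC1
  have hgn : ∀ v : Hv m, 0 ≤ gg W ‖v‖ := fun v => gg_nonneg hW (norm_nonneg _)
  have hE0 : 0 ≤ E := le_trans (integral_nonneg fun x => hgn _) hE
  have hΓc : Continuous (G.grad φ) := (G.smooth_grad hφ).continuous
  have hΓ := pk_memLp G hΓc
  have hBm : MeasurableSet (G.B 0 1) := (G.isOpen_B 0 1).measurableSet
  obtain ⟨z, Z, hw0, heq⟩ := exists_dirichlet G hlam hU 0 1 one_pos hΓ
  obtain ⟨hint, hener⟩ := hen W A lam Lam hW hA hlam hU 0 1 one_pos z (G.grad φ) Z hΓ hw0 heq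
  have hsol : Sol G 2 (G.B 0 1) A (fun x => φ x + z x) (fun x => G.grad φ x + Z x) :=
    { toHW := HW.add (by norm_num) (HW.smooth hφ)
        ((HW0.hw (by norm_num) hw0).mono (subset_univ _))
      eqn := heq }
  have hsq : IntegrableOn (fun x => ‖G.grad φ x + Z x‖ ^ 2) (G.B 0 1) := by
    have h1 : MemLp (fun x => G.grad φ x + Z x) 2 (volume.restrict (G.B 0 1)) :=
      hΓ.add (hw0.memZ.restrict _)
    exact (memLp_two_iff_integrable_sq_norm h1.1).1 h1
  have hloc : ∀ (y : Pt N) (r : ℝ), 0 < r → G.B y r ⊆ G.B 0 1 →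
      ∃ F' : Pt N → Hv m, (∀ᵐ x, x ∈ G.B y (r / 4) → G.grad φ x + Z x = F' x) ∧
        ContinuousOn F' (G.B y (r / 4)) ∧
        (∀ x ∈ G.B y (r / 4), gg W ‖F' x‖ ≤
          C2 * (r⁻¹ ^ G.Q * ∫ x in G.B y r, gg W ‖G.grad φ x + Z x‖)) ∧
        ∀ M : ℝ, 0 < M → (∀ x ∈ G.B y (r / 4), ‖F' x‖ ≤ M) →
          ∀ x ∈ G.B y (r / 8), ∀ x' ∈ G.B y (r / 8),
            ‖F' x - F' x'‖ ≤ C2 * M * (G.di x x' / r) ^ α := by
    intro y r hr hs
    refine hin W A lam Lam hW hA hlam hU y r hr (fun x => φ x + z x)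
      (fun x => G.grad φ x + Z x) ?_ (hsq.mono_set hs)
    exact { toHW := hsol.toHW.mono hs
            eqn := fun ψ hψ => hsol.eqn ψ (pk_test_mono hψ hs) }
  obtain ⟨F, hFc, hFae⟩ := glue_rep (D := G.B 0 1) (fun x => G.grad φ x + Z x) (by
    intro y hy
    obtain ⟨r, hr, hrs⟩ := G.exists_B_subset (G.isOpen_B 0 1) hy
    have hs : G.B y r ⊆ G.B 0 1 := by
      intro x hx
      have hx' : G.di y x < r := hx
      exact hrs hx'.le
    obtain ⟨F', h1, h2, -, -⟩ := hloc y r hr hs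
    refine ⟨G.B y (r / 4), G.isOpen_B _ _, ?_, (pk_subB G y (by linarith)).trans hs, F', h2, h1⟩
    show G.di y y < r / 4
    rw [G.di_self]
    linarith)
  have hcoin : ∀ (y : Pt N) (r : ℝ), 0 < r → G.B y r ⊆ G.B 0 1 → ∀ F' : Pt N → Hv m,
      (∀ᵐ x, x ∈ G.B y (r / 4) → G.grad φ x + Z x = F' x) → ContinuousOn F' (G.B y (r / 4)) →
      ∀ x ∈ G.B y (r / 4), F x = F' x := by
    intro y r hr hs F' h1 h2
    have hs' : G.B y (r / 4) ⊆ G.B 0 1 := (pk_subB G y (by linarith)).trans hs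
    refine eq_of_ae_open (G.isOpen_B _ _) (hFc.mono hs') h2 ?_
    filter_upwards [h1, hFae] with x h3 h4 hx
    rw [← h3 hx, ← h4 (hs' hx)]
  have hen2 : ∫ x in G.B 0 1, gg W ‖G.grad φ x + Z x‖ ≤ max C1 C2 * E := by
    refine hener.trans ?_
    exact (mul_le_mul_of_nonneg_left hE hC1.le).trans
      (mul_le_mul_of_nonneg_right (le_max_left _ _) hE0)
  refine ⟨z, Z, F, ?_⟩
  refine
    { hw0 := hw0
      cont := hFc
      ae := hFae
      eqn := ?_
      int := ?_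
      energy := ?_
      bdd := ?_
      hol := ?_ }
  · intro ψ hψ
    rw [← heq ψ hψ]
    refine integral_congr_ae ?_
    filter_upwards [hFae] with x hx
    by_cases hxB : x ∈ G.B 0 1
    · simp only [← hx hxB]
    · simp only [pk_grad_zero G hψ hxB, inner_zero_right]
  · refine hint.congr ?_
    rw [Filter.EventuallyEq, ae_restrict_iff' hBm]
    filter_upwards [hFae] with x hx hxB
    rw [hx hxB]
  · refine le_trans (le_of_eq ?_) hen2
    refine setIntegral_congr_ae hBm ?_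
    filter_upwards [hFae] with x hx hxB
    rw [hx hxB]
  · intro y r hr hs x hx
    obtain ⟨F', h1, h2, h3, -⟩ := hloc y r hr hs
    rw [hcoin y r hr hs F' h1 h2 x hx]
    refine (h3 x hx).trans ?_
    have h4 : ∫ x in G.B y r, gg W ‖G.grad φ x + Z x‖ ≤ max C1 C2 * E := by
      refine le_trans (setIntegral_mono_set hint ?_ hs.eventuallyLE) hen2
      exact Filter.Eventually.of_forall fun x => hgn _
    have h5 : (0 : ℝ) ≤ r⁻¹ ^ G.Q := by positivity
    have h6 : r⁻¹ ^ G.Q * ∫ x in G.B y r, gg W ‖G.grad φ x + Z x‖ ≤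
        r⁻¹ ^ G.Q * (max C1 C2 * E) := mul_le_mul_of_nonneg_left h4 h5
    exact (mul_le_mul_of_nonneg_left h6 hC2.le).trans
      (mul_le_mul_of_nonneg_right (le_max_right _ _) (by positivity))
  · intro y r hr hs M hM hbd x hx x' hx'
    obtain ⟨F', h1, h2, -, h3⟩ := hloc y r hr hs
    have hco := hcoin y r hr hs F' h1 h2
    have h8 : G.B y (r / 8) ⊆ G.B y (r / 4) := pk_subB G y (by linarith)
    rw [hco x (h8 hx), hco x' (h8 hx')]
    refine (h3 M hM (fun w hw => by rw [← hco w hw]; exact hbd w hw) x hx x' hx').trans ?_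
    have h9 : 0 ≤ (G.di x x' / r) ^ α :=
      Real.rpow_nonneg (div_nonneg (G.di_nonneg _ _) hr.le) _
    refine mul_le_mul_of_nonneg_right ?_ h9
    exact mul_le_mul_of_nonneg_right (le_max_right _ _) hM.le

end Pool.Agent.CG
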