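import Pool.Agent.CG.Cls

/-!
# CG, PART M: the weight `c (δ + t^2)^{(p-2)/2}` belongs to the class `Wt`
-/

set_option autoImplicit false

namespace Pool.Agent.CG

/-- The weight `c (δ + t^2)^{(p-2)/2}`. -/
noncomputable def pw (p c δ : ℝ) (t : ℝ) : ℝ := c * (δ + t ^ 2) ^ ((p - 2) / 2)

theorem pw_wt {p c δ : ℝ} (hc : 0 < c) (hδ : 0 ≤ δ) :
    Wt (max (2 - p) 0) (max (p - 2) 0) (pw p c δ) := by
  have hpos : ∀ t : ℝ, 0 < t → 0 < δ + t ^ 2 := fun t ht => by positivity
  have key : ∀ s t : ℝ, 0 < s → s ≤ t → 1 ≤ (δ + t ^ 2) / (δ + s ^ 2) ∧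
      (δ + t ^ 2) / (δ + s ^ 2) ≤ (t / s) ^ (2 : ℝ) := by
    intro s t hs hst
    have h1 := hpos s hs
    have h2 : s ^ 2 ≤ t ^ 2 := pow_le_pow_left₀ hs.le hst 2
    constructor
    · rw [le_div_iff₀ h1]
      linarith
    · rw [Real.rpow_two, div_pow, div_le_div_iff₀ h1 (by positivity)]
      nlinarith
  have hW : ∀ s t : ℝ, 0 < s → s ≤ t →
      pw p c δ t = ((δ + t ^ 2) / (δ + s ^ 2)) ^ ((p - 2) / 2) * pw p c δ s := by
    intro s t hs hst
    have h1 := hpos s hs
    have h2 := hpos t (lt_of_lt_of_le hs hst)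
    unfold pw
    rw [Real.div_rpow h2.le h1.le]
    have h3 : (δ + s ^ 2) ^ ((p - 2) / 2) ≠ 0 := (Real.rpow_pos_of_pos h1 _).ne'
    field_simp
  have hsq : ∀ s t : ℝ, 0 < s → s ≤ t → ((t / s) ^ (2 : ℝ)) ^ ((p - 2) / 2) = (t / s) ^ (p - 2) := by
    intro s t hs hst
    have ht : 0 < t := lt_of_lt_of_le hs hst
    rw [← Real.rpow_mul (by positivity)]
    congr 1
    ring
  refine ⟨fun t ht => mul_pos hc (Real.rpow_pos_of_pos (hpos t ht) _), fun s t hs hst => ?_,
    fun s t hs hst => ?_⟩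
  · obtain ⟨h1, h2⟩ := key s t hs hst
    rw [hW s t hs hst]
    have hps : 0 < pw p c δ s := mul_pos hc (Real.rpow_pos_of_pos (hpos s hs) _)
    refine mul_le_mul_of_nonneg_right ?_ hps.le
    rcases le_total 2 p with hp | hp
    · rw [max_eq_right (by linarith), neg_zero, Real.rpow_zero]
      exact Real.one_le_rpow h1 (by linarith)
    · rw [max_eq_left (by linarith), neg_sub, ← hsq s t hs hst]
      exact Real.rpow_le_rpow_of_nonpos (by linarith) h2 (by linarith)
  · obtain ⟨h1, h2⟩ := key s t hs hst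
    rw [hW s t hs hst]
    have hps : 0 < pw p c δ s := mul_pos hc (Real.rpow_pos_of_pos (hpos s hs) _)
    refine mul_le_mul_of_nonneg_right ?_ hps.le
    rcases le_total 2 p with hp | hp
    · rw [max_eq_left (by linarith), ← hsq s t hs hst]
      exact Real.rpow_le_rpow (by linarith) h2 (by linarith)
    · rw [max_eq_right (by linarith), Real.rpow_zero]
      exact Real.rpow_le_one_of_one_le_of_nonpos h1 (by linarith)

end Pool.Agent.CG
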