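import Pool.Agent.CG.M.Gg
import Pool.Agent.CG.M.Pw

/-!
# CG-M-Pg: growth of the weight `pw p c δ t = c (δ + t^2)^((p-2)/2)`

PLAN.  `pw_lower`: `p ≥ 2`: `gg = c (δ+t^2)^((p-2)/2) t^2 ≥ c t^p`.  `p < 2`: if `t^2 ≥ δ`, `t > 0`: `δ + t^2 ≤ 2 t^2`, negative exponent, so
`gg ≥ c 2^((p-2)/2) t^p`; if `t^2 < δ`: `t^p ≤ δ^(p/2)`.
`pw_upper`: `p ≥ 2`: `gg ≤ c (δ + t^2)^(p/2) ≤ c (2 max(δ,t^2))^(p/2) ≤ C (1 + t^p)`; `p < 2`: `(δ+t^2)^((p-2)/2) ≤ (t^2)^((p-2)/2)` for `t > 0`, so `gg ≤ c t^p`.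
`pw_growth`: `‖A ξ‖ ≤ ‖A 0‖ + L W(‖ξ‖)‖ξ‖` (`AA.lip` with `ζ = 0`), and `W(t) t ≤ C (1 + t^(p-1))` in the same way.
`conj_p`: `ENNReal.HolderConjugate (ofReal p) (ofReal (p/(p-1)))` from `Real.HolderConjugate` (`Real.HolderConjugate.ennrealOfReal` or similar; `1/p + (p-1)/p = 1`).
-/

set_option autoImplicit false

namespace Pool.Agent.CG

open MeasureTheory Set Filter Topology
open scoped ContDiff ENNReal

variable {N m : ℕ}

/-- `(δ + t^2)^((p-2)/2) t ≤ K (t^(p-1) + 1)`. -/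
private theorem pg_aux {p δ : ℝ} (hδ : 0 ≤ δ) :
    ∃ K : ℝ, 0 < K ∧ ∀ t : ℝ, 0 ≤ t → (δ + t ^ 2) ^ ((p - 2) / 2) * t ≤ K * (t ^ (p - 1) + 1) := by
  rcases le_total 2 p with h2 | h2
  · have hK : 0 < (δ + 1) ^ ((p - 2) / 2) := Real.rpow_pos_of_pos (by linarith) _
    refine ⟨(δ + 1) ^ ((p - 2) / 2), hK, fun t ht => ?_⟩
    have hk0 : 0 ≤ t ^ (p - 1) := Real.rpow_nonneg ht _
    rcases le_total t 1 with h1 | h1
    · have e1 : (δ + t ^ 2) ^ ((p - 2) / 2) ≤ (δ + 1) ^ ((p - 2) / 2) :=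
        Real.rpow_le_rpow (by positivity) (by nlinarith) (by linarith)
      calc (δ + t ^ 2) ^ ((p - 2) / 2) * t ≤ (δ + 1) ^ ((p - 2) / 2) * 1 :=
            mul_le_mul e1 h1 ht hK.le
        _ ≤ (δ + 1) ^ ((p - 2) / 2) * (t ^ (p - 1) + 1) :=
            mul_le_mul_of_nonneg_left (by linarith) hK.le
    · have e0 : 0 ≤ δ * (t ^ 2 - 1) := mul_nonneg hδ (by nlinarith)
      have e1 : (δ + t ^ 2) ^ ((p - 2) / 2) ≤ ((δ + 1) * t ^ 2) ^ ((p - 2) / 2) :=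
        Real.rpow_le_rpow (by positivity) (by linarith) (by linarith)
      have e2 : ((δ + 1) * t ^ 2) ^ ((p - 2) / 2) = (δ + 1) ^ ((p - 2) / 2) * t ^ (p - 2) := by
        rw [Real.mul_rpow (by linarith) (by positivity), ← Real.rpow_two, ← Real.rpow_mul ht]
        congr 2
        ring
      have e3 : t ^ (p - 1) = t ^ (p - 2) * t := by
        have : p - 1 = (p - 2) + 1 := by ring
        rw [this, Real.rpow_add_one (by linarith)]
      calc (δ + t ^ 2) ^ ((p - 2) / 2) * t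
          ≤ ((δ + 1) ^ ((p - 2) / 2) * t ^ (p - 2)) * t :=
            mul_le_mul_of_nonneg_right (e1.trans e2.le) ht
        _ = (δ + 1) ^ ((p - 2) / 2) * t ^ (p - 1) := by rw [e3]; ring
        _ ≤ (δ + 1) ^ ((p - 2) / 2) * (t ^ (p - 1) + 1) :=
            mul_le_mul_of_nonneg_left (by linarith) hK.le
  · refine ⟨1, one_pos, fun t ht => ?_⟩
    have hk0 : 0 ≤ t ^ (p - 1) := Real.rpow_nonneg ht _
    rcases ht.eq_or_lt with h0 | h0
    · subst h0
      rw [mul_zero]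
      positivity
    · have e1 : (δ + t ^ 2) ^ ((p - 2) / 2) ≤ (t ^ 2) ^ ((p - 2) / 2) :=
        Real.rpow_le_rpow_of_nonpos (by positivity) (by linarith) (by linarith)
      have e2 : (t ^ 2) ^ ((p - 2) / 2) = t ^ (p - 2) := by
        rw [← Real.rpow_two, ← Real.rpow_mul ht]
        congr 1
        ring
      have e3 : t ^ (p - 1) = t ^ (p - 2) * t := by
        have : p - 1 = (p - 2) + 1 := by ring
        rw [this, Real.rpow_add_one h0.ne']
      calc (δ + t ^ 2) ^ ((p - 2) / 2) * t ≤ t ^ (p - 2) * t :=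
            mul_le_mul_of_nonneg_right (e1.trans e2.le) ht
        _ = t ^ (p - 1) := e3.symm
        _ ≤ 1 * (t ^ (p - 1) + 1) := by linarith

theorem pw_lower {p c δ : ℝ} (hp : 1 < p) (hc : 0 < c) (hδ : 0 ≤ δ) :
    ∃ C : ℝ, 0 < C ∧ ∀ t : ℝ, 0 ≤ t → t ^ p ≤ C * (gg (pw p c δ) t + 1) := by
  have hsq : ∀ t : ℝ, 0 ≤ t → ∀ r : ℝ, (t ^ 2) ^ (r / 2) = t ^ r := by
    intro t ht r
    rw [← Real.rpow_two, ← Real.rpow_mul ht]
    congr 1
    ring
  have hg0 : ∀ t : ℝ, 0 ≤ gg (pw p c δ) t := by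
    intro t
    unfold gg pw
    have := Real.rpow_nonneg (by positivity : 0 ≤ δ + t ^ 2) ((p - 2) / 2)
    positivity
  have hadd : ∀ t : ℝ, 0 < t → t ^ 2 * t ^ (p - 2) = t ^ p := by
    intro t ht
    rw [← Real.rpow_two, ← Real.rpow_add ht]
    congr 1
    ring
  rcases le_total 2 p with h2 | h2
  · refine ⟨1 / c, by positivity, fun t ht => ?_⟩
    rcases ht.eq_or_lt with h0 | h0
    · subst h0
      rw [Real.zero_rpow (by linarith)]
      have := hg0 0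
      positivity
    · have e1 : t ^ (p - 2) ≤ (δ + t ^ 2) ^ ((p - 2) / 2) := by
        rw [← hsq t ht (p - 2)]
        exact Real.rpow_le_rpow (by positivity) (by linarith) (by linarith)
      have e2 : c * t ^ p ≤ gg (pw p c δ) t := by
        unfold gg pw
        rw [← hadd t h0]
        have := mul_le_mul_of_nonneg_left e1 (by positivity : 0 ≤ c * t ^ 2)
        nlinarith
      rw [one_div, ← div_eq_inv_mul, le_div_iff₀ hc]
      linarith
  · have hk : (0 : ℝ) < 2 ^ ((p - 2) / 2) := Real.rpow_pos_of_pos two_pos _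
    have hd0 : 0 ≤ δ ^ (p / 2) := Real.rpow_nonneg hδ _
    refine ⟨1 / (c * 2 ^ ((p - 2) / 2)) + δ ^ (p / 2), by positivity, fun t ht => ?_⟩
    have hc2 : 0 < c * 2 ^ ((p - 2) / 2) := by positivity
    have hgt := hg0 t
    rcases ht.eq_or_lt with h0 | h0
    · subst h0
      rw [Real.zero_rpow (by linarith)]
      positivity
    · rcases le_total δ (t ^ 2) with h3 | h3
      · have e1 : 2 ^ ((p - 2) / 2) * t ^ (p - 2) ≤ (δ + t ^ 2) ^ ((p - 2) / 2) := by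
          rw [← hsq t ht (p - 2), ← Real.mul_rpow (by norm_num) (by positivity)]
          exact Real.rpow_le_rpow_of_nonpos (by positivity) (by linarith) (by linarith)
        have e2 : c * 2 ^ ((p - 2) / 2) * t ^ p ≤ gg (pw p c δ) t := by
          unfold gg pw
          rw [← hadd t h0]
          have := mul_le_mul_of_nonneg_left e1 (by positivity : 0 ≤ c * t ^ 2)
          nlinarith
        have e3 : t ^ p ≤ 1 / (c * 2 ^ ((p - 2) / 2)) * gg (pw p c δ) t := by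
          rw [one_div, ← div_eq_inv_mul, le_div_iff₀ hc2]
          linarith
        have e4 : 0 ≤ 1 / (c * 2 ^ ((p - 2) / 2)) := by positivity
        nlinarith [mul_nonneg hd0 hgt]
      · have e1 : t ^ p ≤ δ ^ (p / 2) := by
          rw [← hsq t ht p]
          exact Real.rpow_le_rpow (by positivity) h3 (by linarith)
        have e4 : 0 ≤ 1 / (c * 2 ^ ((p - 2) / 2)) := by positivity
        nlinarith [mul_nonneg hd0 hgt, mul_nonneg e4 hgt]

theorem pw_upper {p c δ : ℝ} (hp : 1 < p) (hc : 0 < c) (hδ : 0 ≤ δ) :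
    ∃ C : ℝ, 0 < C ∧ ∀ t : ℝ, 0 ≤ t → gg (pw p c δ) t ≤ C * (t ^ p + 1) := by
  obtain ⟨K, hK, h⟩ := pg_aux (p := p) hδ
  refine ⟨c * (2 * K), by positivity, fun t ht => ?_⟩
  have e1 := mul_le_mul_of_nonneg_left (h t ht) ht
  have e2 : t * t ^ (p - 1) ≤ t ^ p := by
    rcases ht.eq_or_lt with h0 | h0
    · subst h0
      rw [zero_mul]
      exact Real.rpow_nonneg le_rfl _
    · rw [mul_comm, ← Real.rpow_add_one h0.ne', sub_add_cancel]
  have e3 : t ≤ t ^ p + 1 := by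
    rcases le_total t 1 with h1 | h1
    · have := Real.rpow_nonneg ht p
      linarith
    · have : t ^ (1 : ℝ) ≤ t ^ p := Real.rpow_le_rpow_of_exponent_le h1 hp.le
      rw [Real.rpow_one] at this
      linarith
  have e4 : gg (pw p c δ) t = c * (t * ((δ + t ^ 2) ^ ((p - 2) / 2) * t)) := by
    unfold gg pw
    ring
  rw [e4, mul_assoc]
  refine mul_le_mul_of_nonneg_left ?_ hc.le
  calc t * ((δ + t ^ 2) ^ ((p - 2) / 2) * t) ≤ t * (K * (t ^ (p - 1) + 1)) := e1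
    _ = K * (t * t ^ (p - 1) + t) := by ring
    _ ≤ K * (t ^ p + (t ^ p + 1)) := mul_le_mul_of_nonneg_left (by linarith) hK.le
    _ ≤ 2 * K * (t ^ p + 1) := by nlinarith

theorem pw_growth {p c δ L : ℝ} (hp : 1 < p) (hc : 0 < c) (hδ : 0 ≤ δ) (hL : 1 ≤ L)
    {A : Hv m → Hv m} (hA : AA (pw p c δ) L A) :
    ∃ C : ℝ, 0 < C ∧ ∀ ξ : Hv m, ‖A ξ‖ ≤ C * (‖ξ‖ ^ (p - 1) + 1) := by
  obtain ⟨K, hK, h⟩ := pg_aux (p := p) hδ
  refine ⟨L * c * K + ‖A 0‖, by positivity, fun ξ => ?_⟩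
  have e1 := hA.lip ξ 0
  rw [norm_zero, sub_zero, max_eq_left (norm_nonneg _)] at e1
  have e2 : ‖A ξ‖ ≤ ‖A ξ - A 0‖ + ‖A 0‖ := by
    calc ‖A ξ‖ = ‖(A ξ - A 0) + A 0‖ := by rw [sub_add_cancel]
      _ ≤ _ := norm_add_le _ _
  have e3 := h ‖ξ‖ (norm_nonneg _)
  have e4 : 0 ≤ ‖ξ‖ ^ (p - 1) := Real.rpow_nonneg (norm_nonneg _) _
  have e5 : L * pw p c δ ‖ξ‖ * ‖ξ‖ = L * c * ((δ + ‖ξ‖ ^ 2) ^ ((p - 2) / 2) * ‖ξ‖) := by
    unfold pw
    ring
  have e6 := mul_le_mul_of_nonneg_left e3 (by positivity : 0 ≤ L * c)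
  have e7 := mul_nonneg (norm_nonneg (A 0)) e4
  nlinarith

theorem conj_p {p : ℝ} (hp : 1 < p) :
    ENNReal.HolderConjugate (ENNReal.ofReal p) (ENNReal.ofReal (p / (p - 1))) :=
  Real.HolderConjugate.ennrealOfReal (Real.HolderConjugate.conjExponent hp)

end Pool.Agent.CG
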