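import Pool.Agent.CG.M.Pg

/-!
# CG-M-Pi: integrability for the weight `pw p c δ`

PLAN.  `memLp_A`: `MemLp.norm_rpow_div` with `q = ENNReal.ofReal (p-1)` gives `‖F‖^(p-1) ∈ L^(p/(p-1))`; constants are in `L^q` of a finite measure; `A` is continuous
(hypothesis `hAc`).
`memLp_of_gg`: `‖F‖^p ≤ C (gg ‖F‖ + 1)` integrable; `memLp_iff`/`integrable_norm_rpow_iff`.
`A_norm_bound`: `‖A (F x)‖^{p/(p-1)} ≤ C (‖F x‖^p + 1) ≤ C' (gg + 1)`, integrate; the bound depends only on `E` and the measure.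
`energy_bound`: `gg ‖Γj‖ ≤ C (‖Γj‖^p + 1)` (`pw_upper`), `∫ ‖Γj‖^p = (eLpNorm (Γj))^p` and `eLpNorm (Γj j) ≤ eLpNorm (Γj j - F) + eLpNorm F` is bounded (a convergent sequence of
finite extended reals: bounded for large `j`, finitely many `j` remain).
-/

set_option autoImplicit false

namespace Pool.Agent.CG

open MeasureTheory Set Filter Topology
open scoped ContDiff ENNReal

variable {N m : ℕ}

private theorem gg_nn {p c δ : ℝ} (hc : 0 < c) (hδ : 0 ≤ δ) (t : ℝ) : 0 ≤ gg (pw p c δ) t := by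
  unfold gg pw
  exact mul_nonneg (sq_nonneg t) (mul_nonneg hc.le (Real.rpow_nonneg (by positivity) _))

theorem memLp_A {p c δ L : ℝ} (hp : 1 < p) (hc : 0 < c) (hδ : 0 ≤ δ) (hL : 1 ≤ L)
    {A : Hv m → Hv m} (hA : AA (pw p c δ) L A) (hAc : Continuous A) {μ : Measure (Pt N)}
    [IsFiniteMeasure μ] {F : Pt N → Hv m} (hF : MemLp F (ENNReal.ofReal p) μ) :
    MemLp (fun x => A (F x)) (ENNReal.ofReal (p / (p - 1))) μ := by
  obtain ⟨C, hC, hAb⟩ := pw_growth hp hc hδ hL hA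
  have hp1 : 0 < p - 1 := by linarith
  have h1 : MemLp (fun x => ‖F x‖ ^ (p - 1)) (ENNReal.ofReal (p / (p - 1))) μ := by
    have h := hF.norm_rpow_div (ENNReal.ofReal (p - 1))
    rw [ENNReal.toReal_ofReal hp1.le, ← ENNReal.ofReal_div_of_pos hp1] at h
    exact h
  have h2 : MemLp (fun _ : Pt N => (1 : ℝ)) (ENNReal.ofReal (p / (p - 1))) μ := memLp_const 1
  have h3 := (h1.add h2).const_mul C
  refine h3.mono' (hAc.comp_aestronglyMeasurable hF.1) (Eventually.of_forall fun x => ?_)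
  exact hAb (F x)

theorem memLp_of_gg {p c δ : ℝ} (hp : 1 < p) (hc : 0 < c) (hδ : 0 ≤ δ) {μ : Measure (Pt N)}
    [IsFiniteMeasure μ] {F : Pt N → Hv m} (hFm : AEStronglyMeasurable F μ)
    (hF : Integrable (fun x => gg (pw p c δ) ‖F x‖) μ) : MemLp F (ENNReal.ofReal p) μ := by
  obtain ⟨C, hC, hlow⟩ := pw_lower hp hc hδ
  have hp0 : 0 < p := by linarith
  rw [← integrable_norm_rpow_iff hFm (ENNReal.ofReal_pos.mpr hp0).ne' ENNReal.ofReal_ne_top,
    ENNReal.toReal_ofReal hp0.le]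
  have h1 : Integrable (fun x => C * (gg (pw p c δ) ‖F x‖ + 1)) μ :=
    (hF.add (integrable_const 1)).const_mul C
  refine h1.mono' ((hFm.norm.aemeasurable.pow_const p).aestronglyMeasurable)
    (Eventually.of_forall fun x => ?_)
  rw [Real.norm_of_nonneg (Real.rpow_nonneg (norm_nonneg _) _)]
  exact hlow _ (norm_nonneg _)

private theorem add_rpow_le {q : ℝ} (hq : 0 ≤ q) {a b : ℝ} (ha : 0 ≤ a) (hb : 0 ≤ b) :
    (a + b) ^ q ≤ 2 ^ q * (a ^ q + b ^ q) := by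
  have h1 : a + b ≤ 2 * max a b := by
    have h2 := le_max_left a b
    have h3 := le_max_right a b
    linarith
  have h0 : 0 ≤ max a b := ha.trans (le_max_left _ _)
  calc (a + b) ^ q ≤ (2 * max a b) ^ q := Real.rpow_le_rpow (by positivity) h1 hq
    _ = 2 ^ q * (max a b) ^ q := Real.mul_rpow (by norm_num) h0
    _ ≤ 2 ^ q * (a ^ q + b ^ q) := by
        refine mul_le_mul_of_nonneg_left ?_ (Real.rpow_nonneg (by norm_num) _)
        have ha' := Real.rpow_nonneg ha q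
        have hb' := Real.rpow_nonneg hb q
        rcases max_choice a b with h | h
        · rw [h]; linarith
        · rw [h]; linarith

/-- The `L^{p'}` norm of `A ∘ F` is bounded in terms of the energy. -/
theorem A_norm_bound {p c δ L : ℝ} (hp : 1 < p) (hc : 0 < c) (hδ : 0 ≤ δ) (hL : 1 ≤ L)
    {A : Hv m → Hv m} (hA : AA (pw p c δ) L A) (hAc : Continuous A) (μ : Measure (Pt N))
    [IsFiniteMeasure μ] (E : ℝ) : ∃ C : ℝ, ∀ F : Pt N → Hv m, AEStronglyMeasurable F μ →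
      Integrable (fun x => gg (pw p c δ) ‖F x‖) μ → ∫ x, gg (pw p c δ) ‖F x‖ ∂μ ≤ E →
      eLpNorm (fun x => A (F x)) (ENNReal.ofReal (p / (p - 1))) μ ≤ ENNReal.ofReal C := by
  obtain ⟨C1, hC1, hAb⟩ := pw_growth hp hc hδ hL hA
  obtain ⟨C2, hC2, hlow⟩ := pw_lower hp hc hδ
  have hp0 : 0 < p := by linarith
  have hp1 : 0 < p - 1 := by linarith
  set q : ℝ := p / (p - 1) with hq
  have hq0 : 0 < q := div_pos hp0 hp1
  set K : ℝ := C1 ^ q * (2 ^ q * (C2 + 1)) with hK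
  have hK0 : 0 ≤ K := by positivity
  have hpt : ∀ ξ : Hv m, ‖A ξ‖ ^ q ≤ K * (gg (pw p c δ) ‖ξ‖ + 1) := by
    intro ξ
    have hn : 0 ≤ ‖ξ‖ := norm_nonneg ξ
    have h1 : ‖A ξ‖ ^ q ≤ (C1 * (‖ξ‖ ^ (p - 1) + 1)) ^ q :=
      Real.rpow_le_rpow (norm_nonneg _) (hAb ξ) hq0.le
    have h2 : (C1 * (‖ξ‖ ^ (p - 1) + 1)) ^ q = C1 ^ q * (‖ξ‖ ^ (p - 1) + 1) ^ q :=
      Real.mul_rpow hC1.le (by positivity)
    have h3 : (‖ξ‖ ^ (p - 1) + 1) ^ q ≤ 2 ^ q * ((‖ξ‖ ^ (p - 1)) ^ q + 1 ^ q) :=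
      add_rpow_le hq0.le (by positivity) (by norm_num)
    have h4 : (‖ξ‖ ^ (p - 1)) ^ q = ‖ξ‖ ^ p := by
      rw [← Real.rpow_mul hn, hq, mul_div_cancel₀ _ hp1.ne']
    rw [h4, Real.one_rpow] at h3
    have h5 := hlow _ hn
    have hg : 0 ≤ gg (pw p c δ) ‖ξ‖ := gg_nn hc hδ _
    have h6 : ‖ξ‖ ^ p + 1 ≤ (C2 + 1) * (gg (pw p c δ) ‖ξ‖ + 1) := by nlinarith
    calc ‖A ξ‖ ^ q ≤ C1 ^ q * (‖ξ‖ ^ (p - 1) + 1) ^ q := by rw [← h2]; exact h1
      _ ≤ C1 ^ q * (2 ^ q * ((C2 + 1) * (gg (pw p c δ) ‖ξ‖ + 1))) := by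
          refine mul_le_mul_of_nonneg_left (h3.trans ?_) (Real.rpow_nonneg hC1.le _)
          exact mul_le_mul_of_nonneg_left h6 (Real.rpow_nonneg (by norm_num) _)
      _ = K * (gg (pw p c δ) ‖ξ‖ + 1) := by rw [hK]; ring
  refine ⟨(K * (E + μ.real univ)) ^ q⁻¹, fun F hFm hFi hFE => ?_⟩
  have hF := memLp_of_gg hp hc hδ hFm hFi
  have hAF := memLp_A hp hc hδ hL hA hAc hF
  rw [hAF.eLpNorm_eq_integral_rpow_norm (ENNReal.ofReal_pos.mpr hq0).ne' ENNReal.ofReal_ne_top,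
    ENNReal.toReal_ofReal hq0.le]
  refine ENNReal.ofReal_le_ofReal (Real.rpow_le_rpow ?_ ?_ (inv_nonneg.mpr hq0.le))
  · exact integral_nonneg fun x => Real.rpow_nonneg (norm_nonneg _) _
  · have hi : Integrable (fun x => K * (gg (pw p c δ) ‖F x‖ + 1)) μ :=
      (hFi.add (integrable_const 1)).const_mul K
    calc ∫ x, ‖A (F x)‖ ^ q ∂μ ≤ ∫ x, K * (gg (pw p c δ) ‖F x‖ + 1) ∂μ := by
          refine integral_mono_of_nonneg (Eventually.of_forall fun x =>
            Real.rpow_nonneg (norm_nonneg _) _) hi (Eventually.of_forall fun x => hpt (F x))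
      _ = K * (∫ x, gg (pw p c δ) ‖F x‖ ∂μ + μ.real univ) := by
          rw [integral_const_mul, integral_add hFi (integrable_const 1), integral_const]
          simp
      _ ≤ K * (E + μ.real univ) := by
          refine mul_le_mul_of_nonneg_left ?_ hK0
          linarith

/-- Convergence in `L^p` bounds the energies. -/
theorem energy_bound {p c δ : ℝ} (hp : 1 < p) (hc : 0 < c) (hδ : 0 ≤ δ) {μ : Measure (Pt N)}
    [IsFiniteMeasure μ] {F : Pt N → Hv m} (hF : MemLp F (ENNReal.ofReal p) μ)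
    {Γj : ℕ → Pt N → Hv m} (hm : ∀ j, MemLp (Γj j) (ENNReal.ofReal p) μ)
    (hl : Tendsto (fun j => eLpNorm (fun x => Γj j x - F x) (ENNReal.ofReal p) μ) atTop (𝓝 0)) :
    ∃ E : ℝ, ∀ j, ∫ x, gg (pw p c δ) ‖Γj j x‖ ∂μ ≤ E := by
  obtain ⟨C, hC, hup⟩ := pw_upper hp hc hδ
  have hp0 : 0 < p := by linarith
  have hP0 : ENNReal.ofReal p ≠ 0 := (ENNReal.ofReal_pos.mpr hp0).ne'
  have hP1 : 1 ≤ ENNReal.ofReal p := by
    rw [← ENNReal.ofReal_one]
    exact ENNReal.ofReal_le_ofReal hp.le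
  have hl2 : Tendsto (fun j => (eLpNorm (fun x => Γj j x - F x) (ENNReal.ofReal p) μ).toReal)
      atTop (𝓝 0) := by
    have h := (ENNReal.tendsto_toReal ENNReal.zero_ne_top).comp hl
    rw [ENNReal.toReal_zero] at h
    exact h
  obtain ⟨B, hB⟩ := hl2.bddAbove_range
  set R : ℝ := B + (eLpNorm F (ENNReal.ofReal p) μ).toReal with hR
  refine ⟨C * (R ^ p + μ.real univ), fun j => ?_⟩
  have hBj : (eLpNorm (fun x => Γj j x - F x) (ENNReal.ofReal p) μ).toReal ≤ B :=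
    hB ⟨j, rfl⟩
  have hsub : MemLp (fun x => Γj j x - F x) (ENNReal.ofReal p) μ := (hm j).sub hF
  have hle : (eLpNorm (Γj j) (ENNReal.ofReal p) μ).toReal ≤ R := by
    have h1 : eLpNorm (Γj j) (ENNReal.ofReal p) μ ≤
        eLpNorm (fun x => Γj j x - F x) (ENNReal.ofReal p) μ + eLpNorm F (ENNReal.ofReal p) μ := by
      have h2 := eLpNorm_add_le hsub.1 hF.1 hP1
      have h3 : ((fun x => Γj j x - F x) + F) = Γj j := by
        funext x
        simp
      rw [h3] at h2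
      exact h2
    have h2 := ENNReal.toReal_mono (ENNReal.add_ne_top.mpr ⟨hsub.2.ne, hF.2.ne⟩) h1
    rw [ENNReal.toReal_add hsub.2.ne hF.2.ne] at h2
    linarith
  have hint : Integrable (fun x => ‖Γj j x‖ ^ p) μ := by
    have h := (hm j).integrable_norm_rpow hP0 ENNReal.ofReal_ne_top
    rw [ENNReal.toReal_ofReal hp0.le] at h
    exact h
  have hI0 : 0 ≤ ∫ x, ‖Γj j x‖ ^ p ∂μ := integral_nonneg fun x => Real.rpow_nonneg (norm_nonneg _) _
  have hI : ∫ x, ‖Γj j x‖ ^ p ∂μ ≤ R ^ p := by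
    have h1 := (hm j).eLpNorm_eq_integral_rpow_norm hP0 ENNReal.ofReal_ne_top
    rw [ENNReal.toReal_ofReal hp0.le] at h1
    rw [h1, ENNReal.toReal_ofReal (Real.rpow_nonneg hI0 _)] at hle
    have h2 := Real.rpow_le_rpow (Real.rpow_nonneg hI0 _) hle hp0.le
    rwa [← Real.rpow_mul hI0, inv_mul_cancel₀ hp0.ne', Real.rpow_one] at h2
  have hi : Integrable (fun x => C * (‖Γj j x‖ ^ p + 1)) μ :=
    (hint.add (integrable_const 1)).const_mul C
  calc ∫ x, gg (pw p c δ) ‖Γj j x‖ ∂μ ≤ ∫ x, C * (‖Γj j x‖ ^ p + 1) ∂μ := by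
        refine integral_mono_of_nonneg (Eventually.of_forall fun x => gg_nn hc hδ _) hi
          (Eventually.of_forall fun x => hup _ (norm_nonneg _))
    _ = C * (∫ x, ‖Γj j x‖ ^ p ∂μ + μ.real univ) := by
        rw [integral_const_mul, integral_add hint (integrable_const 1), integral_const]
        simp
    _ ≤ C * (R ^ p + μ.real univ) := by
        refine mul_le_mul_of_nonneg_left ?_ hC.le
        linarith

end Pool.Agent.CG
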