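import Pool.Agent.CG.Sob

/-!
# CG-M-Poin1: Poincaré inequality in `L^1` for functions vanishing off the unit ball

PLAN.  There is `g` with `G.ell g ≥ 2` (`0 < N`: some coordinate; take `g0 ≠ 0`, `G.ell_pos`, and dilate: `G.ell_del`); put
`l = G.ell g + 1`.  For `x ∈ B 0 1`: `x g ∉ B 0 1` (`2 ≤ ell g ≤ ell(-x) + ell(x g) < 1 + ell (x g)`, `G.ell_mul_le`, `G.ell_neg`,
`G.neg_mul_cancel`; note `G.di 0 y = G.ell y`).  So a.e. `z (x g) = 0` for `x ∈ B 0 1` (right translations preserve null sets: `G.mp_right`) and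
`|z x| = |z (x g) - z x|` there; `HW.trans` (`q = 1`, `x = 0`, `R = 1`) gives `‖z‖_{L^1(B 0 1)} ≤ l ‖Z‖_{L^1(B 0 (1+l))} ≤ l ‖Z‖_{L^1}`, and `z = 0` off
`B 0 1`.
-/

set_option autoImplicit false

namespace Pool.Agent.CG

open MeasureTheory Set Filter Topology
open scoped ContDiff ENNReal

variable {N m : ℕ}

theorem poin1 (G : Carnot N m) (hN : 0 < N) : ∃ C : ℝ, 0 < C ∧ ∀ (z : Pt N → ℝ) (Z : Pt N → Hv m),
    HW G 1 univ z Z → (∀ᵐ x, x ∉ G.B 0 1 → z x = 0 ∧ Z x = 0) →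
    eLpNorm z 1 volume ≤ ENNReal.ofReal C * eLpNorm Z 1 volume := by
  obtain ⟨g, hg⟩ : ∃ g : Pt N, G.ell g = 2 := by
    have h0 : (Pi.single (⟨0, hN⟩ : Fin N) (1 : ℝ) : Pt N) ≠ 0 := by
      intro h
      have h1 := congrFun h ⟨0, hN⟩
      simp at h1
    have h1 := G.ell_pos h0
    refine ⟨G.del (2 / G.ell (Pi.single (⟨0, hN⟩ : Fin N) (1 : ℝ) : Pt N))
      (Pi.single (⟨0, hN⟩ : Fin N) (1 : ℝ)), ?_⟩
    rw [G.ell_del (by positivity)]
    field_simp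
  refine ⟨3, by norm_num, fun z Z hz h0 => ?_⟩
  have hB : MeasurableSet (G.B 0 1) := (G.isOpen_B 0 1).measurableSet
  have hmem : ∀ y : Pt N, y ∈ G.B 0 1 ↔ G.ell y < 1 := by
    intro y
    show G.ell (G.mul (-0) y) < 1 ↔ _
    rw [neg_zero, G.zero_mul]
  have hout : ∀ y ∈ G.B 0 1, G.mul y g ∉ G.B 0 1 := by
    intro y hy hy'
    rw [hmem] at hy hy'
    have h1 := G.ell_mul_le (-y) (G.mul y g)
    rw [G.neg_mul_cancel, G.ell_neg] at h1
    linarith
  have h1 : ∀ᵐ y, G.mul y g ∉ G.B 0 1 → z (G.mul y g) = 0 ∧ Z (G.mul y g) = 0 :=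
    (G.mp_right g).quasiMeasurePreserving.ae h0
  have h2 : eLpNorm z 1 volume = eLpNorm z 1 (volume.restrict (G.B 0 1)) := by
    rw [← eLpNorm_indicator_eq_eLpNorm_restrict hB]
    apply eLpNorm_congr_ae
    filter_upwards [h0] with x hx
    by_cases hxB : x ∈ G.B 0 1
    · rw [Set.indicator_of_mem hxB]
    · rw [Set.indicator_of_notMem hxB, (hx hxB).1]
  have h3 : eLpNorm z 1 (volume.restrict (G.B 0 1)) =
      eLpNorm (fun y => z (G.mul y g) - z y) 1 (volume.restrict (G.B 0 1)) := by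
    apply eLpNorm_congr_norm_ae
    rw [ae_restrict_iff' hB]
    filter_upwards [h1] with y hy hyB
    rw [(hy (hout y hyB)).1, zero_sub, norm_neg]
  rw [h2, h3]
  refine (HW.trans le_rfl ENNReal.one_ne_top hz 0 g (R := 1) (l := 3) (by rw [hg]; norm_num)).trans ?_
  exact mul_le_mul_right (eLpNorm_mono_measure _ Measure.restrict_le_self) _

end Pool.Agent.CG
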