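import Pool.Agent.CG.Geo

/-!
# CG, PART M: from local Hölder representatives to a global one
-/

set_option autoImplicit false

namespace Pool.Agent.CG

open MeasureTheory Set Filter Topology
open scoped ContDiff ENNReal

variable {N m : ℕ}

/-- A function which is Hölder for `di` on an open set is continuous there. -/
private theorem cont_of_hol (G : Carnot N m) {α C : ℝ} (hα : 0 < α) {V : Set (Pt N)}
    {F : Pt N → Hv m} (h : ∀ y ∈ V, ∀ z ∈ V, ‖F y - F z‖ ≤ C * G.di y z ^ α) :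
    ContinuousOn F V := by
  intro y hy
  rw [ContinuousWithinAt, tendsto_iff_norm_sub_tendsto_zero]
  have h1 : Tendsto (fun z => C * G.di z y ^ α) (𝓝[V] y) (𝓝 0) := by
    have h2 : Continuous fun z => C * G.di z y ^ α := by
      have h3 : Continuous fun z => G.di z y :=
        G.continuous_di.comp (continuous_id.prodMk continuous_const)
      exact continuous_const.mul (h3.rpow_const fun _ => Or.inr hα.le)
    have h4 := h2.tendsto y
    rw [G.di_self, Real.zero_rpow hα.ne', mul_zero] at h4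
    exact h4.mono_left nhdsWithin_le_nhds
  refine squeeze_zero' (Eventually.of_forall fun z => norm_nonneg _) ?_ h1
  filter_upwards [self_mem_nhdsWithin] with z hz
  exact h z hz y hy

theorem reg_of_local (G : Carnot N m) {α κ : ℝ} (hα : 0 < α) (hκ : 0 < κ) (hκ1 : κ < 1)
    {Ω : Set (Pt N)} (hΩ : IsOpen Ω) {F : Pt N → Hv m}
    (h : ∀ (x : Pt N) (R : ℝ), 0 < R → G.B x R ⊆ Ω →
      ∃ F' : Pt N → Hv m, (∀ᵐ y, y ∈ G.B x (κ * R) → F y = F' y) ∧
        ∃ C : ℝ, ∀ y ∈ G.B x (κ * R), ∀ z ∈ G.B x (κ * R), ‖F' y - F' z‖ ≤ C * G.di y z ^ α) :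
    ∃ F' : Pt N → Hv m, (∀ᵐ y, y ∈ Ω → F y = F' y) ∧
      ∀ K : Set (Pt N), IsCompact K → K ⊆ Ω →
        ∃ C : ℝ, ∀ y ∈ K, ∀ z ∈ K, ‖F' y - F' z‖ ≤ C * ‖y - z‖ ^ (α / G.st) := by
  classical
  have hex : ∀ x : Pt N, x ∈ Ω → ∃ (V : Set (Pt N)) (F' : Pt N → Hv m) (C : ℝ), IsOpen V ∧ x ∈ V ∧
      V ⊆ Ω ∧ (∀ᵐ y, y ∈ V → F y = F' y) ∧
      ∀ y ∈ V, ∀ z ∈ V, ‖F' y - F' z‖ ≤ C * G.di y z ^ α := by
    intro x hx
    obtain ⟨R, hR, hsub⟩ := G.exists_B_subset hΩ hx
    have hBs : G.B x R ⊆ Ω := fun y hy => hsub (show G.di x y ≤ R from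
      le_of_lt (show G.di x y < R from hy))
    obtain ⟨F', h1, C, h2⟩ := h x R hR hBs
    refine ⟨G.B x (κ * R), F', C, G.isOpen_B _ _, ?_, ?_, h1, h2⟩
    · change G.di x x < κ * R
      rw [G.di_self]
      positivity
    · intro y hy
      refine hBs (lt_trans (show G.di x y < κ * R from hy) ?_)
      nlinarith
  choose! V F' C hVo hxV hVΩ hae hhol using hex
  have hcont : ∀ x ∈ Ω, ContinuousOn (F' x) (V x) := fun x hx => cont_of_hol G hα (hhol x hx)
  have hglue : ∀ x ∈ Ω, ∀ y ∈ V x, F' y y = F' x y := by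
    intro x hx y hy
    have hyΩ := hVΩ x hx hy
    have hU : IsOpen (V x ∩ V y) := (hVo x hx).inter (hVo y hyΩ)
    have h1 : F' y =ᵐ[volume.restrict (V x ∩ V y)] F' x := by
      rw [EventuallyEq, ae_restrict_iff' hU.measurableSet]
      filter_upwards [hae x hx, hae y hyΩ] with z h2 h3 hz
      rw [← h2 hz.1, ← h3 hz.2]
    exact Measure.eqOn_open_of_ae_eq h1 hU ((hcont y hyΩ).mono inter_subset_right)
      ((hcont x hx).mono inter_subset_left) ⟨hy, hxV y hyΩ⟩
  set H : Pt N → Hv m := fun y => F' y y with hH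
  have hHV : ∀ x ∈ Ω, ∀ y ∈ V x, H y = F' x y := hglue
  refine ⟨H, ?_, fun K hK hKΩ => ?_⟩
  · have h0 : volume {y | ¬ (y ∈ Ω → F y = H y)} = 0 := by
      refine measure_null_of_locally_null _ fun x hx => ?_
      have hxΩ : x ∈ Ω := by
        by_contra h1
        exact hx fun h2 => absurd h2 h1
      refine ⟨{y | ¬ (y ∈ Ω → F y = H y)} ∩ V x, ?_, ?_⟩
      · exact inter_mem self_mem_nhdsWithin
          (mem_nhdsWithin_of_mem_nhds ((hVo x hxΩ).mem_nhds (hxV x hxΩ)))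
      · refine measure_mono_null ?_ (ae_iff.1 (hae x hxΩ))
        rintro y ⟨h1, h2⟩ h3
        exact h1 fun _ => (h3 h2).trans (hHV x hxΩ y h2).symm
    exact h0
  · -- continuity of `H` on `Ω`
    have hHc : ∀ x ∈ Ω, ContinuousAt H x := by
      intro x hx
      have h1 : ContinuousAt (F' x) x := (hcont x hx).continuousAt ((hVo x hx).mem_nhds (hxV x hx))
      refine h1.congr ?_
      filter_upwards [(hVo x hx).mem_nhds (hxV x hx)] with y hy
      exact (hHV x hx y hy).symm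
    obtain ⟨CK, hCK, hdi⟩ := G.di_le_norm hK
    have hst : (0 : ℝ) < G.st := by
      have := G.one_le_st
      positivity
    have key : ∃ C : ℝ, 0 ≤ C ∧ ∀ q ∈ K ×ˢ K, ‖H q.1 - H q.2‖ ≤ C * ‖q.1 - q.2‖ ^ (α / G.st) := by
      refine (hK.prod hK).induction_on
        (p := fun S => ∃ C : ℝ, 0 ≤ C ∧ ∀ q ∈ S ∩ K ×ˢ K,
          ‖H q.1 - H q.2‖ ≤ C * ‖q.1 - q.2‖ ^ (α / G.st)) ?_ ?_ ?_ ?_ |>.imp ?_
      · exact ⟨0, le_rfl, fun q hq => absurd hq.1 (notMem_empty _)⟩
      · rintro S T hST ⟨C, hC, h1⟩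
        exact ⟨C, hC, fun q hq => h1 q ⟨hST hq.1, hq.2⟩⟩
      · rintro S T ⟨C, hC, h1⟩ ⟨D, hD, h2⟩
        refine ⟨max C D, le_max_of_le_left hC, fun q hq => ?_⟩
        have h3 : 0 ≤ ‖q.1 - q.2‖ ^ (α / G.st) := Real.rpow_nonneg (norm_nonneg _) _
        rcases hq.1 with h4 | h4
        · exact le_trans (h1 q ⟨h4, hq.2⟩) (mul_le_mul_of_nonneg_right (le_max_left _ _) h3)
        · exact le_trans (h2 q ⟨h4, hq.2⟩) (mul_le_mul_of_nonneg_right (le_max_right _ _) h3)
      · rintro ⟨y, z⟩ ⟨hy, hz⟩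
        have hyΩ : y ∈ Ω := hKΩ hy
        have hzΩ : z ∈ Ω := hKΩ hz
        by_cases hyz : y = z
        · subst hyz
          refine ⟨V y ×ˢ V y, mem_nhdsWithin_of_mem_nhds
            (prod_mem_nhds ((hVo y hyΩ).mem_nhds (hxV y hyΩ))
              ((hVo y hyΩ).mem_nhds (hxV y hyΩ))), |C y| * CK ^ α, by positivity, ?_⟩
          rintro ⟨a, b⟩ ⟨⟨ha, hb⟩, haK, hbK⟩
          simp only at ha hb haK hbK ⊢
          rw [hHV y hyΩ a ha, hHV y hyΩ b hb]
          have hd0 := G.di_nonneg a b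
          have h1 : G.di a b ^ α ≤ CK ^ α * ‖a - b‖ ^ (α / G.st) := by
            refine le_trans (Real.rpow_le_rpow hd0 (hdi a haK b hbK) hα.le) (le_of_eq ?_)
            rw [Real.mul_rpow hCK.le (Real.rpow_nonneg (norm_nonneg _) _),
              ← Real.rpow_mul (norm_nonneg _)]
            congr 2
            ring
          calc ‖F' y a - F' y b‖ ≤ C y * G.di a b ^ α := hhol y hyΩ a ha b hb
            _ ≤ |C y| * G.di a b ^ α :=
              mul_le_mul_of_nonneg_right (le_abs_self _) (Real.rpow_nonneg hd0 _)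
            _ ≤ |C y| * (CK ^ α * ‖a - b‖ ^ (α / G.st)) :=
              mul_le_mul_of_nonneg_left h1 (abs_nonneg _)
            _ = |C y| * CK ^ α * ‖a - b‖ ^ (α / G.st) := by ring
        · have hd : 0 < ‖y - z‖ := norm_pos_iff.2 (sub_ne_zero.2 hyz)
          have hc1 : ContinuousAt (fun q : Pt N × Pt N => ‖H q.1 - H q.2‖) (y, z) := by
            have e1 : ContinuousAt (fun q : Pt N × Pt N => H q.1) (y, z) :=
              ContinuousAt.comp (f := Prod.fst) (g := H) (x := (y, z)) (hHc y hyΩ)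
                continuousAt_fst
            have e2 : ContinuousAt (fun q : Pt N × Pt N => H q.2) (y, z) :=
              ContinuousAt.comp (f := Prod.snd) (g := H) (x := (y, z)) (hHc z hzΩ)
                continuousAt_snd
            exact (e1.sub e2).norm
          have hc2 : ContinuousAt (fun q : Pt N × Pt N => ‖q.1 - q.2‖) (y, z) := by fun_prop
          have hb1 : ∀ᶠ q in 𝓝 (y, z), ‖H q.1 - H q.2‖ < ‖H y - H z‖ + 1 :=
            hc1.eventually (gt_mem_nhds (by simp))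
          have hb2 : ∀ᶠ q : Pt N × Pt N in 𝓝 (y, z), ‖y - z‖ / 2 < ‖q.1 - q.2‖ :=
            hc2.eventually (lt_mem_nhds (show ‖y - z‖ / 2 < ‖y - z‖ by linarith))
          refine ⟨{q | ‖H q.1 - H q.2‖ < ‖H y - H z‖ + 1 ∧ ‖y - z‖ / 2 < ‖q.1 - q.2‖},
            mem_nhdsWithin_of_mem_nhds (hb1.and hb2),
            (‖H y - H z‖ + 1) / (‖y - z‖ / 2) ^ (α / G.st), by positivity, ?_⟩
          rintro q ⟨⟨h1, h2⟩, -⟩
          have hp : 0 < (‖y - z‖ / 2) ^ (α / G.st) := Real.rpow_pos_of_pos (by linarith) _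
          have h3 : (‖y - z‖ / 2) ^ (α / G.st) ≤ ‖q.1 - q.2‖ ^ (α / G.st) :=
            Real.rpow_le_rpow (by linarith) h2.le (by positivity)
          rw [div_mul_eq_mul_div, le_div_iff₀ hp]
          have h4 : 0 ≤ ‖H q.1 - H q.2‖ := norm_nonneg _
          have h5 : 0 ≤ ‖H y - H z‖ := norm_nonneg _
          exact mul_le_mul h1.le h3 hp.le (by linarith)
      · rintro C ⟨hC, h1⟩
        exact ⟨hC, fun q hq => h1 q ⟨hq, hq⟩⟩
    obtain ⟨C, -, h1⟩ := key
    exact ⟨C, fun y hy z hz => h1 (y, z) ⟨hy, hz⟩⟩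

end Pool.Agent.CG
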