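import Pool.Agent.CG.M.Pack
import Pool.Agent.CG.M.Wkk
import Pool.Agent.CG.M.Diag

/-!
# CG-M-SeqA: uniform bounds for a sequence of packages, diagonal subsequence

PLAN.  `seq_bdd`: for `y ∈ K` take `r > 0` with `{di y x ≤ r} ⊆ B 0 1` (`G.exists_B_subset`, so `B y r ⊆ B 0 1`); `Pack.bdd` and `gg_wk_bound` bound `‖F k x‖` on `B y (r/4)`
by `max 1 (..)` independently of `k`; finitely many balls `B y (r/4)` cover `K`.
`seq_local`: the same on one ball, with `Pack.hol`: on `B y (r/8)` the functions are `C M r^{-α}`-Hölder (`(di/r)^α = r^{-α} di^α`) and bounded by `M`; take radius `r/8` and the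
constant `max M (C M r^{-α})`.
`seq_diag`: `diag` with `seq_local`.
`seq_hol`: ball `y = 0`, `r = 1`.
-/

set_option autoImplicit false

namespace Pool.Agent.CG

open MeasureTheory Set Filter Topology
open scoped ContDiff ENNReal

variable {N m : ℕ} {G : Carnot N m} {a b : ℝ} {W : ℝ → ℝ} {c C α E1 : ℝ} {κ : ℕ → ℕ}
  {A : ℕ → Hv m → Hv m} {Γ : Pt N → Hv m} {z : ℕ → Pt N → ℝ} {Z F : ℕ → Pt N → Hv m}

private theorem seqA_loc (ha0 : 0 ≤ a) (ha : a < 1) (hb : 0 ≤ b) (hW : Wt a b W) (hc : 0 < c)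
    (hP : ∀ k, Pack G (Wk c W (κ k)) (A k) Γ C α E1 (z k) (Z k) (F k)) {y : Pt N}
    (hy : y ∈ G.B 0 1) : ∃ r : ℝ, 0 < r ∧ G.B y r ⊆ G.B 0 1 ∧ ∃ M : ℝ, 0 < M ∧
      ∀ k, ∀ x ∈ G.B y (r / 4), ‖F k x‖ ≤ M := by
  obtain ⟨r, hr, hrB⟩ := G.exists_B_subset (G.isOpen_B 0 1) hy
  have hsub : G.B y r ⊆ G.B 0 1 := fun x hx => hrB (show G.di y x ≤ r from le_of_lt (show G.di y x < r from hx))
  refine ⟨r, hr, hsub, max 1 ((C * (r⁻¹ ^ G.Q * E1) / (c * W 1)) ^ (1 / (2 - a))),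
    lt_max_of_lt_left one_pos, fun k x hx => ?_⟩
  exact gg_wk_bound ha0 ha hb hW hc (κ k) ((hP k).bdd y r hr hsub x hx)

private theorem seqA_B_mono {y : Pt N} {r r' : ℝ} (h : r ≤ r') : G.B y r ⊆ G.B y r' :=
  fun _ hx => lt_of_lt_of_le hx h

theorem seq_bdd (ha0 : 0 ≤ a) (ha : a < 1) (hb : 0 ≤ b) (hW : Wt a b W) (hc : 0 < c)
    (hP : ∀ k, Pack G (Wk c W (κ k)) (A k) Γ C α E1 (z k) (Z k) (F k)) {K : Set (Pt N)}
    (hK : IsCompact K) (hKD : K ⊆ G.B 0 1) : ∃ M : ℝ, 0 < M ∧ ∀ k, ∀ x ∈ K, ‖F k x‖ ≤ M := by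
  refine hK.induction_on (p := fun S => ∃ M : ℝ, 0 < M ∧ ∀ k, ∀ x ∈ S, ‖F k x‖ ≤ M) ?_ ?_ ?_ ?_
  · exact ⟨1, one_pos, fun k x hx => absurd hx (notMem_empty x)⟩
  · rintro S T hST ⟨M, hM, h⟩
    exact ⟨M, hM, fun k x hx => h k x (hST hx)⟩
  · rintro S T ⟨M, hM, h⟩ ⟨M', hM', h'⟩
    refine ⟨max M M', lt_max_of_lt_left hM, fun k x hx => ?_⟩
    rcases hx with hx | hx
    · exact (h k x hx).trans (le_max_left _ _)
    · exact (h' k x hx).trans (le_max_right _ _)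
  · intro y hy
    obtain ⟨r, hr, -, M, hM, h⟩ := seqA_loc ha0 ha hb hW hc hP (hKD hy)
    refine ⟨G.B y (r / 4), mem_nhdsWithin_of_mem_nhds ?_, M, hM, h⟩
    refine (G.isOpen_B y (r / 4)).mem_nhds ?_
    show G.di y y < r / 4
    rw [G.di_self]
    positivity

theorem seq_diag (ha0 : 0 ≤ a) (ha : a < 1) (hb : 0 ≤ b) (hW : Wt a b W) (hc : 0 < c) (hα : 0 < α)
    (hC : 0 < C) (hP : ∀ k, Pack G (Wk c W (κ k)) (A k) Γ C α E1 (z k) (Z k) (F k)) :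
    ∃ s : ℕ → ℕ, StrictMono s ∧ ∃ F' : Pt N → Hv m,
      ∀ y ∈ G.B 0 1, Tendsto (fun k => F (s k) y) atTop (𝓝 (F' y)) := by
  refine diag G (G.isOpen_B 0 1) F hα ?_
  intro y hy
  obtain ⟨r, hr, hsub, M, hM, h⟩ := seqA_loc ha0 ha hb hW hc hP hy
  have h84 : G.B y (r / 8) ⊆ G.B y (r / 4) := seqA_B_mono (by linarith)
  refine ⟨r / 8, by positivity, max M (C * M * (r⁻¹) ^ α), fun k => ⟨?_, ?_⟩⟩
  · intro x hx
    exact (h k x (h84 hx)).trans (le_max_left _ _)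
  · intro x hx x' hx'
    have h1 := (hP k).hol y r hr hsub M hM (h k) x hx x' hx'
    have h2 : 0 ≤ G.di x x' ^ α := Real.rpow_nonneg (G.di_nonneg _ _) _
    have h3 : (G.di x x' / r) ^ α = (r⁻¹) ^ α * G.di x x' ^ α := by
      rw [div_eq_inv_mul, Real.mul_rpow (by positivity) (G.di_nonneg _ _)]
    calc _ ≤ _ := h1
      _ = C * M * (r⁻¹) ^ α * G.di x x' ^ α := by rw [h3]; ring
      _ ≤ max M (C * M * (r⁻¹) ^ α) * G.di x x' ^ α :=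
        mul_le_mul_of_nonneg_right (le_max_right _ _) h2

theorem seq_hol (ha0 : 0 ≤ a) (ha : a < 1) (hb : 0 ≤ b) (hW : Wt a b W) (hc : 0 < c)
    (hP : ∀ k, Pack G (Wk c W (κ k)) (A k) Γ C α E1 (z k) (Z k) (F k)) :
    ∀ k, ∀ x ∈ G.B 0 (1 / 8), ∀ x' ∈ G.B 0 (1 / 8),
      ‖F k x - F k x'‖ ≤ C * max 1 ((C * E1 / (c * W 1)) ^ (1 / (2 - a))) * G.di x x' ^ α := by
  intro k x hx x' hx'
  have hb1 : ∀ y ∈ G.B 0 (1 / 4), ‖F k y‖ ≤ max 1 ((C * E1 / (c * W 1)) ^ (1 / (2 - a))) := by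
    intro y hy
    have h1 := (hP k).bdd 0 1 one_pos subset_rfl y hy
    rw [_root_.inv_one, one_pow, one_mul] at h1
    exact gg_wk_bound ha0 ha hb hW hc (κ k) h1
  have h2 := (hP k).hol 0 1 one_pos subset_rfl _ (lt_max_of_lt_left one_pos) hb1 x hx x' hx'
  rwa [div_one] at h2

end Pool.Agent.CG
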