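import Pool.Agent.CG.M.Pw

/-!
# CG, PART M: integration of the differential structure conditions
-/

set_option autoImplicit false

namespace Pool.Agent.CG

open MeasureTheory Set Filter Topology
open scoped ContDiff ENNReal

variable {m : ℕ}

/-- Structure conditions in differential form (`A` differentiable off the origin). -/
structure StructA (p δ lam Lam : ℝ) (A : Hv m → Hv m) : Prop where
  cont : Continuous A
  diff : ContDiffOn ℝ 1 A {0}ᶜ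
  lower : ∀ ξ : Hv m, ξ ≠ 0 → ∀ η : Hv m,
    lam * (δ + ‖ξ‖ ^ 2) ^ ((p - 2) / 2) * ‖η‖ ^ 2 ≤ inner ℝ (fderiv ℝ A ξ η) η
  upper : ∀ ξ : Hv m, ξ ≠ 0 → ∀ η : Hv m,
    ‖fderiv ℝ A ξ η‖ ≤ Lam * (δ + ‖ξ‖ ^ 2) ^ ((p - 2) / 2) * ‖η‖

private theorem StructA.hasF {p δ lam Lam : ℝ} {A : Hv m → Hv m} (h : StructA p δ lam Lam A)
    {ξ : Hv m} (hξ : ξ ≠ 0) : HasFDerivAt A (fderiv ℝ A ξ) ξ := by
  have h1 : ({0}ᶜ : Set (Hv m)) ∈ 𝓝 ξ := isOpen_compl_singleton.mem_nhds hξ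
  exact ((h.diff.differentiableOn (by norm_num)).differentiableAt h1).hasFDerivAt

/-- one dimensional mean value inequality, one exceptional point -/
private theorem mvt_off {f f' : ℝ → ℝ} {a b t₀ k : ℝ} (hab : a ≤ b) (hf : ContinuousOn f (Icc a b))
    (hd : ∀ t ∈ Ioo a b, t ≠ t₀ → HasDerivAt f (f' t) t ∧ k ≤ f' t) :
    k * (b - a) ≤ f b - f a := by
  have key : ∀ c d : ℝ, c ≤ d → Icc c d ⊆ Icc a b → t₀ ∉ Ioo c d → k * (d - c) ≤ f d - f c := by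
    intro c d hcd hsub ht
    have h1 : ∀ t ∈ Ioo c d, HasDerivAt f (f' t) t ∧ k ≤ f' t := by
      intro t ht'
      refine hd t ?_ ?_
      · have h2 := hsub (left_mem_Icc.2 hcd)
        have h3 := hsub (right_mem_Icc.2 hcd)
        exact ⟨lt_of_le_of_lt h2.1 ht'.1, lt_of_lt_of_le ht'.2 h3.2⟩
      · rintro rfl
        exact ht ht'
    refine Convex.mul_sub_le_image_sub_of_le_deriv (convex_Icc c d) (hf.mono hsub) ?_ ?_ c
      (left_mem_Icc.2 hcd) d (right_mem_Icc.2 hcd) hcd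
    · rw [interior_Icc]
      exact fun t ht' => (h1 t ht').1.differentiableAt.differentiableWithinAt
    · rw [interior_Icc]
      intro t ht'
      rw [(h1 t ht').1.deriv]
      exact (h1 t ht').2
  by_cases ht : t₀ ∈ Ioo a b
  · have h1 := key a t₀ ht.1.le (Icc_subset_Icc_right ht.2.le) (fun h => lt_irrefl _ h.2)
    have h2 := key t₀ b ht.2.le (Icc_subset_Icc_left ht.1.le) (fun h => lt_irrefl _ h.1)
    nlinarith
  · exact key a b hab le_rfl ht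

/-- comparison of the weight -/
private theorem wt_cmp_str (e : ℝ) {δ M s : ℝ} (hδ : 0 ≤ δ) (hM : 0 < M) (h1 : M / 2 ≤ s)
    (h2 : s ≤ 2 * M) : (4 : ℝ) ^ (-|e|) * (δ + M ^ 2) ^ e ≤ (δ + s ^ 2) ^ e ∧
      (δ + s ^ 2) ^ e ≤ (4 : ℝ) ^ |e| * (δ + M ^ 2) ^ e := by
  have hs : 0 < s := by linarith
  have hx : 0 < δ + M ^ 2 := by positivity
  have hy : 0 < δ + s ^ 2 := by positivity
  have h3 : (δ + M ^ 2) / 4 ≤ δ + s ^ 2 := by nlinarith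
  have h4 : δ + s ^ 2 ≤ 4 * (δ + M ^ 2) := by nlinarith
  have h4' : (0 : ℝ) < 4 := by norm_num
  have e1 : ((δ + M ^ 2) / 4) ^ e = (4 : ℝ) ^ (-e) * (δ + M ^ 2) ^ e := by
    rw [Real.div_rpow hx.le h4'.le, Real.rpow_neg h4'.le]
    field_simp
  have e2 : (4 * (δ + M ^ 2)) ^ e = (4 : ℝ) ^ e * (δ + M ^ 2) ^ e :=
    Real.mul_rpow h4'.le hx.le
  rcases le_total 0 e with he | he
  · rw [abs_of_nonneg he, ← e1, ← e2]
    exact ⟨Real.rpow_le_rpow (by positivity) h3 he, Real.rpow_le_rpow hy.le h4 he⟩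
  · rw [abs_of_nonpos he, neg_neg, ← e1, ← e2]
    exact ⟨Real.rpow_le_rpow_of_nonpos hy h4 he, Real.rpow_le_rpow_of_nonpos (by positivity) h3 he⟩

private theorem mono_aux {p lam Lam δ : ℝ} (hlam : 0 < lam) (hδ : 0 ≤ δ) {A : Hv m → Hv m}
    (h : StructA p δ lam Lam A) (ξ ζ : Hv m) (hM : ‖ζ‖ ≤ ‖ξ‖) :
    pw p (lam * (4 : ℝ) ^ (-|(p - 2) / 2|) / 4) δ ‖ξ‖ * ‖ξ - ζ‖ ^ 2 ≤
      inner ℝ (A ξ - A ζ) (ξ - ζ) := by
  by_cases hne : ξ = ζ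
  · subst hne
    simp
  have hd : ξ - ζ ≠ 0 := sub_ne_zero.2 hne
  have hξ : 0 < ‖ξ‖ := by
    rcases eq_or_lt_of_le (norm_nonneg ξ) with h1 | h1
    · exfalso
      have h2 : ξ = 0 := norm_eq_zero.1 h1.symm
      have h3 : ζ = 0 := norm_eq_zero.1 (le_antisymm (h1 ▸ hM) (norm_nonneg _))
      exact hne (h2.trans h3.symm)
    · exact h1
  set e := (p - 2) / 2 with he
  set γ : ℝ → Hv m := fun t => ζ + t • (ξ - ζ) with hγ
  set φ : ℝ → ℝ := fun t => inner ℝ (A (γ t)) (ξ - ζ) with hφ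
  have hγc : Continuous γ := by fun_prop
  have hφc : Continuous φ := (h.cont.comp hγc).inner continuous_const
  have hγd : ∀ t, HasDerivAt γ (ξ - ζ) t := by
    intro t
    have h1 := ((hasDerivAt_id t).smul_const (ξ - ζ)).const_add ζ
    rw [one_smul] at h1
    exact h1
  have hφd : ∀ t, γ t ≠ 0 → HasDerivAt φ (inner ℝ (fderiv ℝ A (γ t) (ξ - ζ)) (ξ - ζ)) t := by
    intro t ht
    have h1 : HasDerivAt (fun t => A (γ t)) (fderiv ℝ A (γ t) (ξ - ζ)) t :=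
      (h.hasF ht).comp_hasDerivAt t (hγd t)
    have h2 := h1.inner ℝ (hasDerivAt_const t (ξ - ζ))
    simpa using h2
  -- the zero of `γ`
  obtain ⟨t₀, ht₀⟩ : ∃ t₀ : ℝ, ∀ t, t ≠ t₀ → γ t ≠ 0 := by
    by_cases hz : ∃ t₀, γ t₀ = 0
    · obtain ⟨t₀, ht₀⟩ := hz
      refine ⟨t₀, fun t ht h0 => ?_⟩
      have h1 : (t - t₀) • (ξ - ζ) = 0 := by
        have h2 : (ζ + t • (ξ - ζ)) - (ζ + t₀ • (ξ - ζ)) = 0 := by
          change γ t - γ t₀ = 0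
          rw [h0, ht₀, sub_zero]
        rw [add_sub_add_left_eq_sub, ← sub_smul] at h2
        exact h2
      rcases smul_eq_zero.1 h1 with h2 | h2
      · exact ht (sub_eq_zero.1 h2)
      · exact hd h2
    · push Not at hz
      exact ⟨0, fun t _ => hz t⟩
  have hA1 : (0 : ℝ) * (3 / 4 - 0) ≤ φ (3 / 4) - φ 0 := by
    refine mvt_off (f' := fun t => inner ℝ (fderiv ℝ A (γ t) (ξ - ζ)) (ξ - ζ)) (t₀ := t₀)
      (by norm_num) hφc.continuousOn fun t _ ht => ⟨hφd t (ht₀ t ht), ?_⟩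
    refine le_trans ?_ (h.lower (γ t) (ht₀ t ht) (ξ - ζ))
    have h1 : 0 ≤ (δ + ‖γ t‖ ^ 2) ^ e := Real.rpow_nonneg (by positivity) _
    positivity
  have hA2 : lam * ((4 : ℝ) ^ (-|e|) * (δ + ‖ξ‖ ^ 2) ^ e) * ‖ξ - ζ‖ ^ 2 * (1 - 3 / 4) ≤
      φ 1 - φ (3 / 4) := by
    refine mvt_off (f' := fun t => inner ℝ (fderiv ℝ A (γ t) (ξ - ζ)) (ξ - ζ)) (t₀ := t₀)
      (by norm_num) hφc.continuousOn fun t ht ht' => ⟨hφd t (ht₀ t ht'), ?_⟩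
    refine le_trans ?_ (h.lower (γ t) (ht₀ t ht') (ξ - ζ))
    have hn : ‖ξ - ζ‖ ≤ 2 * ‖ξ‖ := by
      have := norm_sub_le ξ ζ
      linarith
    have hγt : γ t = ξ - (1 - t) • (ξ - ζ) := by
      change ζ + t • (ξ - ζ) = _
      rw [sub_smul, one_smul]
      abel
    have hns : ‖(1 - t) • (ξ - ζ)‖ ≤ ‖ξ‖ / 2 := by
      rw [norm_smul, Real.norm_of_nonneg (by linarith [ht.2])]
      nlinarith [ht.1, ht.2, norm_nonneg (ξ - ζ)]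
    have hlo : ‖ξ‖ / 2 ≤ ‖γ t‖ := by
      rw [hγt]
      have := norm_sub_norm_le ξ ((1 - t) • (ξ - ζ))
      linarith
    have hhi : ‖γ t‖ ≤ 2 * ‖ξ‖ := by
      rw [hγt]
      have := norm_sub_le ξ ((1 - t) • (ξ - ζ))
      linarith
    have := (wt_cmp_str e hδ hξ hlo hhi).1
    gcongr
  have h1 : φ 1 - φ 0 = inner ℝ (A ξ - A ζ) (ξ - ζ) := by
    have e1 : γ 1 = ξ := by simp [hγ]
    have e0 : γ 0 = ζ := by simp [hγ]
    simp only [hφ, e1, e0, inner_sub_left]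
  have h2 : pw p (lam * (4 : ℝ) ^ (-|e|) / 4) δ ‖ξ‖ * ‖ξ - ζ‖ ^ 2 =
      lam * ((4 : ℝ) ^ (-|e|) * (δ + ‖ξ‖ ^ 2) ^ e) * ‖ξ - ζ‖ ^ 2 * (1 - 3 / 4) := by
    unfold pw
    rw [← he]
    ring
  rw [h2, ← h1]
  linarith

private theorem lip_aux1 {p lam Lam δ : ℝ} (hδ : 0 ≤ δ) {A : Hv m → Hv m}
    (h : StructA p δ lam Lam A) (ξ ζ : Hv m) (hξ : ξ ≠ 0) (hM : ‖ξ - ζ‖ ≤ ‖ξ‖ / 2) :
    ‖A ξ - A ζ‖ ≤ |Lam| * (4 : ℝ) ^ |(p - 2) / 2| * pw p 1 δ ‖ξ‖ * ‖ξ - ζ‖ := by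
  have hξ' : 0 < ‖ξ‖ := norm_pos_iff.2 hξ
  have hb : ∀ x ∈ Metric.closedBall ξ (‖ξ‖ / 2), ‖ξ‖ / 2 ≤ ‖x‖ ∧ ‖x‖ ≤ 2 * ‖ξ‖ := by
    intro x hx
    rw [Metric.mem_closedBall, dist_eq_norm] at hx
    have h1 := norm_sub_norm_le ξ x
    rw [norm_sub_rev] at h1
    have h2 := norm_sub_norm_le x ξ
    constructor <;> linarith
  have hne : ∀ x ∈ Metric.closedBall ξ (‖ξ‖ / 2), x ≠ 0 := by
    intro x hx
    have := (hb x hx).1
    exact norm_pos_iff.1 (by linarith)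
  have key := Convex.norm_image_sub_le_of_norm_fderiv_le (𝕜 := ℝ) (f := A)
    (C := |Lam| * (4 : ℝ) ^ |(p - 2) / 2| * pw p 1 δ ‖ξ‖) (s := Metric.closedBall ξ (‖ξ‖ / 2))
    (x := ζ) (y := ξ) (fun x hx => (h.hasF (hne x hx)).differentiableAt) ?_
    (convex_closedBall ξ (‖ξ‖ / 2)) ?_ ?_
  · exact key
  · intro x hx
    have hx' := hb x hx
    have hw := (wt_cmp_str ((p - 2) / 2) hδ hξ' hx'.1 hx'.2).2
    have hxn : 0 ≤ (δ + ‖x‖ ^ 2) ^ ((p - 2) / 2) := Real.rpow_nonneg (by positivity) _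
    have hC : |Lam| * (δ + ‖x‖ ^ 2) ^ ((p - 2) / 2) ≤
        |Lam| * (4 : ℝ) ^ |(p - 2) / 2| * pw p 1 δ ‖ξ‖ := by
      unfold pw
      rw [one_mul, mul_assoc]
      gcongr
    refine ContinuousLinearMap.opNorm_le_bound _ (le_trans (by positivity) hC) fun η => ?_
    refine le_trans (h.upper x (hne x hx) η) ?_
    refine mul_le_mul_of_nonneg_right (le_trans ?_ hC) (norm_nonneg η)
    exact mul_le_mul_of_nonneg_right (le_abs_self Lam) hxn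
  · rw [Metric.mem_closedBall, dist_eq_norm, norm_sub_rev]
    exact hM
  · exact Metric.mem_closedBall_self (by positivity)

private theorem ray_aux {a b C : ℝ} {W : ℝ → ℝ} (ha : a < 1) (hC : 0 ≤ C) (hW : Wt a b W)
    {A : Hv m → Hv m} (hc : Continuous A)
    (h : ∀ ξ ζ : Hv m, ξ ≠ 0 → ‖ξ - ζ‖ ≤ ‖ξ‖ / 2 → ‖A ξ - A ζ‖ ≤ C * W ‖ξ‖ * ‖ξ - ζ‖)
    (ξ : Hv m) (hξ : ξ ≠ 0) :
    ‖A ξ - A 0‖ ≤ C / (1 - (2 : ℝ) ^ (a - 1)) * (W ‖ξ‖ * ‖ξ‖) := by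
  have hξ' : 0 < ‖ξ‖ := norm_pos_iff.2 hξ
  set r : ℝ := (2 : ℝ) ^ (a - 1) with hr
  have hr0 : 0 < r := Real.rpow_pos_of_pos (by norm_num) _
  have hr1 : r < 1 := Real.rpow_lt_one_of_one_lt_of_neg (by norm_num) (by linarith)
  have hWξ := hW.pos _ hξ'
  have hstep : ∀ n : ℕ, dist (A (((2 : ℝ)⁻¹ ^ n) • ξ)) (A (((2 : ℝ)⁻¹ ^ (n + 1)) • ξ)) ≤
      (C * (W ‖ξ‖ * ‖ξ‖)) * r ^ n := by
    intro n
    set s : ℝ := (2 : ℝ)⁻¹ ^ n with hs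
    have hs0 : 0 < s := by positivity
    have hs1 : s ≤ 1 := pow_le_one₀ (by norm_num) (by norm_num)
    have e1 : s • ξ - ((2 : ℝ)⁻¹ ^ (n + 1)) • ξ = (s / 2) • ξ := by
      rw [← sub_smul]
      congr 1
      rw [pow_succ, ← hs]
      ring
    have n1 : ‖s • ξ‖ = s * ‖ξ‖ := by rw [norm_smul, Real.norm_of_nonneg hs0.le]
    have n2 : ‖(s / 2) • ξ‖ = s / 2 * ‖ξ‖ := by rw [norm_smul, Real.norm_of_nonneg (by positivity)]
    rw [dist_eq_norm]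
    have h1 := h (s • ξ) (((2 : ℝ)⁻¹ ^ (n + 1)) • ξ) (smul_ne_zero hs0.ne' hξ) (by
      rw [e1, n1, n2]
      linarith)
    rw [e1, n1, n2] at h1
    refine le_trans h1 ?_
    -- W (s t) ≤ s^{-a} W t
    have hlo := hW.lo (s * ‖ξ‖) ‖ξ‖ (by positivity) (by nlinarith)
    have e2 : ‖ξ‖ / (s * ‖ξ‖) = s⁻¹ := by field_simp
    rw [e2, Real.inv_rpow hs0.le, Real.rpow_neg hs0.le, inv_inv] at hlo
    have hsa : 0 < s ^ a := Real.rpow_pos_of_pos hs0 _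
    have hsr : s = s ^ a * s ^ (1 - a) := by
      rw [← Real.rpow_add hs0]
      simp
    have hrn : s ^ (1 - a) = r ^ n := by
      rw [hs, hr, ← Real.rpow_natCast, ← Real.rpow_natCast, ← Real.rpow_mul (by norm_num),
        ← Real.rpow_mul (by norm_num), Real.inv_rpow (by norm_num), ← Real.rpow_neg (by norm_num)]
      congr 1
      ring
    have hWs := hW.pos (s * ‖ξ‖) (by positivity)
    calc C * W (s * ‖ξ‖) * (s / 2 * ‖ξ‖)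
        = C * (s ^ a * W (s * ‖ξ‖)) * (s ^ (1 - a) / 2 * ‖ξ‖) := by
          conv_lhs => rw [hsr]
          have : s ^ a * s ^ (1 - a) = s := hsr.symm
          rw [this]
          calc C * W (s * ‖ξ‖) * (s / 2 * ‖ξ‖) = C * W (s * ‖ξ‖) * (s ^ a * s ^ (1 - a) / 2 * ‖ξ‖) := by
                rw [this]
            _ = C * (s ^ a * W (s * ‖ξ‖)) * (s ^ (1 - a) / 2 * ‖ξ‖) := by ring
      _ ≤ C * W ‖ξ‖ * (s ^ (1 - a) / 2 * ‖ξ‖) := by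
          have : 0 < s ^ (1 - a) := Real.rpow_pos_of_pos hs0 _
          gcongr
      _ ≤ C * W ‖ξ‖ * (s ^ (1 - a) * ‖ξ‖) := by
          have : 0 < s ^ (1 - a) := Real.rpow_pos_of_pos hs0 _
          have h3 : s ^ (1 - a) / 2 ≤ s ^ (1 - a) := by linarith
          gcongr
      _ = (C * (W ‖ξ‖ * ‖ξ‖)) * r ^ n := by
          rw [hrn]
          ring
  have hlim : Tendsto (fun n : ℕ => A (((2 : ℝ)⁻¹ ^ n) • ξ)) atTop (𝓝 (A 0)) := by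
    have h1 : Tendsto (fun n : ℕ => ((2 : ℝ)⁻¹ ^ n) • ξ) atTop (𝓝 0) := by
      have h2 : Tendsto (fun n : ℕ => ((2 : ℝ)⁻¹ ^ n)) atTop (𝓝 0) :=
        tendsto_pow_atTop_nhds_zero_of_lt_one (by norm_num) (by norm_num)
      simpa using h2.smul_const ξ
    exact (hc.tendsto 0).comp h1
  have := dist_le_of_le_geometric_of_tendsto₀ r (C * (W ‖ξ‖ * ‖ξ‖)) hr1 hstep hlim
  rw [pow_zero, one_smul, dist_eq_norm] at this
  refine le_trans this (le_of_eq ?_)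
  ring

private theorem lip_aux {a b C : ℝ} {W : ℝ → ℝ} (ha : a < 1) (hC : 0 ≤ C) (hW : Wt a b W)
    {A : Hv m → Hv m} (hc : Continuous A)
    (h : ∀ ξ ζ : Hv m, ξ ≠ 0 → ‖ξ - ζ‖ ≤ ‖ξ‖ / 2 → ‖A ξ - A ζ‖ ≤ C * W ‖ξ‖ * ‖ξ - ζ‖)
    (ξ ζ : Hv m) (hM : ‖ζ‖ ≤ ‖ξ‖) :
    ‖A ξ - A ζ‖ ≤ (C + 4 * (C / (1 - (2 : ℝ) ^ (a - 1)))) * (W ‖ξ‖ * ‖ξ - ζ‖) := by
  have hr1 : (2 : ℝ) ^ (a - 1) < 1 :=
    Real.rpow_lt_one_of_one_lt_of_neg (by norm_num) (by linarith)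
  have hD : 0 ≤ C / (1 - (2 : ℝ) ^ (a - 1)) := div_nonneg hC (by linarith)
  by_cases hξ0 : ξ = 0
  · subst hξ0
    have hζ : ζ = 0 := norm_eq_zero.1 (le_antisymm (by simpa using hM) (norm_nonneg _))
    subst hζ
    simp
  have hξ : 0 < ‖ξ‖ := norm_pos_iff.2 hξ0
  have hWξ := hW.pos _ hξ
  by_cases hs : ‖ξ - ζ‖ ≤ ‖ξ‖ / 2
  · refine le_trans (h ξ ζ hξ0 hs) ?_
    have h1 : 0 ≤ W ‖ξ‖ * ‖ξ - ζ‖ := by positivity
    nlinarith
  · push Not at hs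
    -- monotonicity of `t W t`
    have hmon : W ‖ζ‖ * ‖ζ‖ ≤ W ‖ξ‖ * ‖ξ‖ ∨ ζ = 0 := by
      by_cases hζ0 : ζ = 0
      · exact Or.inr hζ0
      left
      have hζ : 0 < ‖ζ‖ := norm_pos_iff.2 hζ0
      have hlo := hW.lo ‖ζ‖ ‖ξ‖ hζ hM
      have hq : 1 ≤ ‖ξ‖ / ‖ζ‖ := (one_le_div hζ).2 hM
      have hWζ := hW.pos _ hζ
      have h2 : (‖ξ‖ / ‖ζ‖) ^ (-1 : ℝ) ≤ (‖ξ‖ / ‖ζ‖) ^ (-a) :=
        Real.rpow_le_rpow_of_exponent_le hq (by linarith)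
      rw [Real.rpow_neg_one, inv_div] at h2
      have h3 : ‖ζ‖ / ‖ξ‖ * W ‖ζ‖ ≤ W ‖ξ‖ := le_trans (by gcongr) hlo
      have h4 : W ‖ζ‖ * ‖ζ‖ = (‖ζ‖ / ‖ξ‖ * W ‖ζ‖) * ‖ξ‖ := by field_simp
      rw [h4]
      gcongr
    have h1 := ray_aux ha hC hW hc h ξ hξ0
    have h2 : ‖A ζ - A 0‖ ≤ C / (1 - (2 : ℝ) ^ (a - 1)) * (W ‖ξ‖ * ‖ξ‖) := by
      rcases hmon with hmon | hζ
      · by_cases hζ0 : ζ = 0
        · subst hζ0
          rw [sub_self, norm_zero]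
          positivity
        · exact le_trans (ray_aux ha hC hW hc h ζ hζ0) (mul_le_mul_of_nonneg_left hmon hD)
      · subst hζ
        rw [sub_self, norm_zero]
        positivity
    have h3 : ‖A ξ - A ζ‖ ≤ ‖A ξ - A 0‖ + ‖A ζ - A 0‖ := by
      have := norm_sub_le (A ξ - A 0) (A ζ - A 0)
      rwa [sub_sub_sub_cancel_right] at this
    have h4 : W ‖ξ‖ * ‖ξ‖ ≤ 2 * (W ‖ξ‖ * ‖ξ - ζ‖) := by nlinarith
    have h5 : 0 ≤ W ‖ξ‖ * ‖ξ - ζ‖ := by positivity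
    calc ‖A ξ - A ζ‖ ≤ 2 * (C / (1 - (2 : ℝ) ^ (a - 1))) * (W ‖ξ‖ * ‖ξ‖) := by linarith
      _ ≤ 2 * (C / (1 - (2 : ℝ) ^ (a - 1))) * (2 * (W ‖ξ‖ * ‖ξ - ζ‖)) := by gcongr
      _ ≤ (C + 4 * (C / (1 - (2 : ℝ) ^ (a - 1)))) * (W ‖ξ‖ * ‖ξ - ζ‖) := by nlinarith

/-- M0: integration of the differential structure conditions. -/
theorem structA_AA {p lam Lam : ℝ} (hp : 1 < p) (hlam : 0 < lam) :
    ∃ c : ℝ, 0 < c ∧ ∃ L : ℝ, 1 ≤ L ∧ ∀ (δ : ℝ), 0 ≤ δ → ∀ A : Hv m → Hv m,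
      StructA p δ lam Lam A → AA (pw p c δ) L A := by
  set c : ℝ := lam * (4 : ℝ) ^ (-|(p - 2) / 2|) / 4 with hc
  have hc0 : 0 < c := by positivity
  set a : ℝ := max (2 - p) 0 with ha
  have ha1 : a < 1 := max_lt (by linarith) (by norm_num)
  set C : ℝ := |Lam| * (4 : ℝ) ^ |(p - 2) / 2| with hC
  have hC0 : 0 ≤ C := by positivity
  set K : ℝ := C + 4 * (C / (1 - (2 : ℝ) ^ (a - 1))) with hK
  refine ⟨c, hc0, max 1 (K / c), le_max_left _ _, fun δ hδ A hA => ⟨fun ξ ζ => ?_, fun ξ ζ => ?_⟩⟩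
  · rcases le_total ‖ζ‖ ‖ξ‖ with h1 | h1
    · rw [max_eq_left h1]
      exact mono_aux hlam hδ hA ξ ζ h1
    · rw [max_eq_right h1]
      have h2 := mono_aux hlam hδ hA ζ ξ h1
      rw [norm_sub_rev ζ ξ, ← neg_sub (A ξ) (A ζ), ← neg_sub ξ ζ, inner_neg_neg] at h2
      exact h2
  · have hW := pw_wt (p := p) (c := 1) one_pos hδ
    have hloc : ∀ ξ ζ : Hv m, ξ ≠ 0 → ‖ξ - ζ‖ ≤ ‖ξ‖ / 2 →
        ‖A ξ - A ζ‖ ≤ C * pw p 1 δ ‖ξ‖ * ‖ξ - ζ‖ := fun ξ ζ h1 h2 => lip_aux1 hδ hA ξ ζ h1 h2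
    have hpw : ∀ t, pw p c δ t = c * pw p 1 δ t := by
      intro t
      unfold pw
      rw [one_mul]
    have hpn : ∀ t, 0 ≤ pw p 1 δ t := by
      intro t
      unfold pw
      rw [one_mul]
      exact Real.rpow_nonneg (by positivity) _
    have hfin : ∀ t x : ℝ, 0 ≤ x → K * (pw p 1 δ t * x) ≤ max 1 (K / c) * pw p c δ t * x := by
      intro t x hx
      rw [hpw]
      have h1 : K = K / c * c := by field_simp
      calc K * (pw p 1 δ t * x) = K / c * c * (pw p 1 δ t * x) := by rw [← h1]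
        _ ≤ max 1 (K / c) * c * (pw p 1 δ t * x) := by
          have := hpn t
          have h2 : K / c ≤ max 1 (K / c) := le_max_right _ _
          gcongr
        _ = max 1 (K / c) * (c * pw p 1 δ t) * x := by ring
    rcases le_total ‖ζ‖ ‖ξ‖ with h1 | h1
    · rw [max_eq_left h1]
      exact le_trans (lip_aux ha1 hC0 hW hA.cont hloc ξ ζ h1) (hfin _ _ (norm_nonneg _))
    · rw [max_eq_right h1, norm_sub_rev (A ξ), norm_sub_rev ξ]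
      exact le_trans (lip_aux ha1 hC0 hW hA.cont hloc ζ ξ h1) (hfin _ _ (norm_nonneg _))

end Pool.Agent.CG
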