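import Pool.Agent.CG.Sob

/-!
# CG-M-Trunc: truncation raises the exponent

PLAN.  `T u = (u + M)_+ - (u - M)_+ - M` is `max (-M) (min u M)`; `HW.posPart` (twice, `q = 1`), `HW.sub`, `HW.add_const` give `HW G 1 univ`
with gradient `1_{-M < u ≤ M} F` (`HW.congr` if needed).  Since `|T u| ≤ M` and the gradient is bounded by `‖F‖ ∈ L^p`, the pair is in `HW G p univ` (`LqLoc p`: bounded
measurable functions on compact sets; `MemLp.mono`; the weak equation does not depend on the exponent; measurability on compact sets comes from the `HW G 1 univ` statement).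
-/

set_option autoImplicit false

namespace Pool.Agent.CG

open MeasureTheory Set Filter Topology
open scoped ContDiff ENNReal

variable {N m : ℕ}

theorem trunc_hw (G : Carnot N m) {p : ℝ≥0∞} (hp : 1 ≤ p) {z : Pt N → ℝ}
    {Z : Pt N → Hv m} (h : HW G 1 univ z Z) (hZ : MemLp Z p volume) {M : ℝ} (hM : 0 < M) :
    HW G p univ (fun x => max (z x + M) 0 - max (z x - M) 0 - M)
      (fun x => if -M < z x ∧ z x ≤ M then Z x else 0) := by
  have h1 := HW.posPart isOpen_univ le_rfl h (-M)
  have h2 := HW.posPart isOpen_univ le_rfl h M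
  have h3 := HW.add_const le_rfl (-M) (HW.sub le_rfl h1 h2)
  have h4 : HW G 1 univ (fun x => max (z x + M) 0 - max (z x - M) 0 - M)
      (fun x => if -M < z x ∧ z x ≤ M then Z x else 0) := by
    convert h3 using 1
    · funext x
      rw [sub_neg_eq_add, ← sub_eq_add_neg]
    · funext x
      by_cases h5 : -M < z x
      · by_cases h6 : M < z x
        · rw [if_pos h5, if_pos h6, if_neg (fun h => not_lt.2 h.2 h6), sub_self]
        · rw [if_pos h5, if_neg h6, if_pos ⟨h5, not_lt.1 h6⟩, sub_zero]
      · have h6 : ¬ M < z x := fun h => h5 (by linarith)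
        rw [if_neg h5, if_neg h6, if_neg (fun h => h5 h.1), sub_zero]
  refine ⟨fun K hK hKu => ?_, fun K hK hKu => ?_, h4.weak⟩
  · have hfin : IsFiniteMeasure (volume.restrict K) := ⟨by
      rw [Measure.restrict_apply_univ]
      exact hK.measure_lt_top⟩
    refine MemLp.of_bound (h4.lq K hK hKu).1 M (Eventually.of_forall fun x => ?_)
    rw [Real.norm_eq_abs, abs_le]
    rcases le_total (z x + M) 0 with h5 | h5
    · rw [max_eq_right h5, max_eq_right (by linarith : z x - M ≤ 0)]
      constructor <;> linarith
    · rw [max_eq_left h5]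
      rcases le_total (z x - M) 0 with h6 | h6
      · rw [max_eq_right h6]
        constructor <;> linarith
      · rw [max_eq_left h6]
        constructor <;> linarith
  · refine MemLp.mono (hZ.restrict K) (h4.lqg K hK hKu).1 (Eventually.of_forall fun x => ?_)
    show ‖if -M < z x ∧ z x ≤ M then Z x else 0‖ ≤ ‖Z x‖
    split_ifs
    · exact le_rfl
    · rw [norm_zero]
      exact norm_nonneg _

end Pool.Agent.CG
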